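import Pool.Agent.LibJB95.A5
namespace JB95

private theorem a6_poly : ∃ K : ℝ, 0 < K ∧ ∀ l : ℕ, (l : ℝ) ^ 4 ≤ K * ((2 : ℝ) ^ (1 / 9 : ℝ)) ^ l := by
  have hr : 1 < (2 : ℝ) ^ (1 / 9 : ℝ) := Real.one_lt_rpow (by norm_num) (by norm_num)
  have h1 := tendsto_pow_const_div_const_pow_of_one_lt 4 hr
  obtain ⟨K, hK⟩ := h1.bddAbove_range
  refine ⟨max K 1, lt_of_lt_of_le one_pos (le_max_right _ _), fun l => ?_⟩
  have h2 : (l : ℝ) ^ 4 / ((2 : ℝ) ^ (1 / 9 : ℝ)) ^ l ≤ K := hK ⟨l, rfl⟩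
  have h3 : (0 : ℝ) < ((2 : ℝ) ^ (1 / 9 : ℝ)) ^ l := by positivity
  rw [div_le_iff₀ h3] at h2
  exact h2.trans (mul_le_mul_of_nonneg_right (le_max_left _ _) h3.le)

/-- Logarithms are negligible. -/
theorem log_pow_small : ∃ K : ℝ, 0 < K ∧ ∀ n : ℕ, 1 ≤ n → ∃ l : ℕ, 1 ≤ l ∧ n ≤ 2 ^ l ∧
    (l : ℝ) ^ 4 ≤ K * (n : ℝ) ^ (1 / 9 : ℝ) := by
  obtain ⟨K, hK, h⟩ := a6_poly
  refine ⟨K * 2 ^ (2 / 9 : ℝ), by positivity, fun n hn => ?_⟩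
  refine ⟨Nat.clog 2 n + 1, by omega, ?_, ?_⟩
  · exact (Nat.le_pow_clog (by norm_num) n).trans (Nat.pow_le_pow_right (by norm_num) (by omega))
  · have h1 : 2 ^ (Nat.clog 2 n + 1) ≤ 2 ^ 2 * n := by
      rcases Nat.lt_or_ge n 2 with hn2 | hn2
      · have : n = 1 := by omega
        subst this
        simp
      · have h2 := Nat.pow_pred_clog_lt_self (b := 2) (by norm_num) (x := n) (by omega)
        have h3 : 0 < Nat.clog 2 n := Nat.clog_pos (by norm_num) hn2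
        have h4 : (2 : ℕ) ^ (Nat.clog 2 n + 1) = 2 ^ 2 * 2 ^ (Nat.clog 2 n).pred := by
          rw [← pow_add]
          congr 1
          have := Nat.succ_pred_eq_of_pos h3
          omega
        rw [h4]
        exact Nat.mul_le_mul_left _ h2.le
    have h2 : ((2 : ℝ) ^ (1 / 9 : ℝ)) ^ (Nat.clog 2 n + 1) ≤ 2 ^ (2 / 9 : ℝ) * (n : ℝ) ^ (1 / 9 : ℝ) := by
      have e1 : ((2 : ℝ) ^ (1 / 9 : ℝ)) ^ (Nat.clog 2 n + 1) =
          ((2 : ℝ) ^ (Nat.clog 2 n + 1)) ^ (1 / 9 : ℝ) := by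
        rw [← Real.rpow_natCast, ← Real.rpow_natCast, ← Real.rpow_mul (by norm_num),
          ← Real.rpow_mul (by norm_num), mul_comm]
      have e2 : (2 : ℝ) ^ (2 / 9 : ℝ) = ((2 : ℝ) ^ 2) ^ (1 / 9 : ℝ) := by
        rw [← Real.rpow_natCast, ← Real.rpow_mul (by norm_num)]
        norm_num
      rw [e1, e2, ← Real.mul_rpow (by positivity) (by positivity)]
      refine Real.rpow_le_rpow (by positivity) ?_ (by norm_num)
      exact_mod_cast h1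
    calc ((Nat.clog 2 n + 1 : ℕ) : ℝ) ^ 4 ≤ K * ((2 : ℝ) ^ (1 / 9 : ℝ)) ^ (Nat.clog 2 n + 1) := h _
      _ ≤ K * (2 ^ (2 / 9 : ℝ) * (n : ℝ) ^ (1 / 9 : ℝ)) := mul_le_mul_of_nonneg_left h2 hK.le
      _ = K * 2 ^ (2 / 9 : ℝ) * (n : ℝ) ^ (1 / 9 : ℝ) := by ring

private theorem a6_real {C A z : ℝ} (hC : 0 < C) (hA : 0 < A) (hz : 0 < z)
    (h : z ≤ C * A ^ 2 * (2 * z) ^ (1 / 9 : ℝ)) :
    z ≤ (C * 2 ^ (1 / 9 : ℝ)) ^ (9 / 8 : ℝ) * A ^ (9 / 4 : ℝ) := by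
  rw [Real.mul_rpow (by norm_num) hz.le] at h
  have h1 : z ^ (8 / 9 : ℝ) * z ^ (1 / 9 : ℝ) = z := by
    rw [← Real.rpow_add hz]
    norm_num
  have h2 : z ^ (8 / 9 : ℝ) ≤ C * 2 ^ (1 / 9 : ℝ) * A ^ 2 := by
    have h3 : (0 : ℝ) < z ^ (1 / 9 : ℝ) := by positivity
    refine le_of_mul_le_mul_right ?_ h3
    rw [h1]
    calc z ≤ _ := h
      _ = _ := by ring
  have h3 : z = (z ^ (8 / 9 : ℝ)) ^ (9 / 8 : ℝ) := by
    rw [← Real.rpow_mul hz.le]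
    norm_num
  rw [h3]
  refine (Real.rpow_le_rpow (by positivity) h2 (by norm_num)).trans ?_
  rw [Real.mul_rpow (by positivity) (by positivity)]
  refine le_of_eq ?_
  congr 1
  rw [← Real.rpow_natCast, ← Real.rpow_mul hA.le]
  norm_num

private theorem a6_sol_symm {a b c x y z : ℕ} (h : Sol a b c x y z) : Sol b a c y x z := by
  obtain ⟨h1, h2, h3, h4, h5, h6, h7, h8⟩ := h
  exact ⟨h2, h1, by omega, h5, h4, h6, by omega, fun hh => h8 ⟨hh.2.1, hh.1, hh.2.2⟩⟩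

private theorem a6_z : ∃ K : ℝ, 0 < K ∧ ∀ a b c k x y z : ℕ, PT a b c → 0 < k →
    Sol (k * a) (k * b) (k * c) x y z →
    (z : ℝ) ≤ K * (Real.log (k * c : ℕ)) ^ (9 / 4 : ℝ) := by
  obtain ⟨K₀, hK₀, hlog⟩ := log_pow_small
  set C : ℝ := 2 ^ 40 * K₀ with hC
  have hCpos : 0 < C := by positivity
  set D : ℝ := (C * 2 ^ (1 / 9 : ℝ)) ^ (9 / 8 : ℝ) with hD
  have hDpos : 0 < D := by positivity
  have hl2 : 0 < Real.log 2 := Real.log_pos (by norm_num)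
  refine ⟨(D + 1) * (2 / Real.log 2) ^ (9 / 4 : ℝ), by positivity, ?_⟩
  intro a b c k x y z hPT hk hs
  have hc5 : 5 ≤ c := (pt_facts hPT).2.2.2.2.2.2.2.2.2.2.1
  have hkc : 2 ≤ k * c := by nlinarith
  have hz0 : 0 < z := hs.2.2.2.2.2.1
  obtain ⟨-, hx2, -⟩ := tri hs
  have hA1 : k * c ≤ 2 ^ Nat.clog 2 (k * c) := Nat.le_pow_clog (by norm_num) _
  have hApos : 0 < Nat.clog 2 (k * c) := Nat.clog_pos (by norm_num) hkc
  have hA2 : 2 ^ Nat.clog 2 (k * c) ≤ (k * c) ^ 2 := by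
    have h2 := Nat.pow_pred_clog_lt_self (b := 2) (by norm_num) (x := k * c) (by omega)
    have h4 : (2 : ℕ) ^ (Nat.clog 2 (k * c)) = 2 * 2 ^ (Nat.clog 2 (k * c)).pred := by
      rw [← pow_succ']
      congr 1
      have := Nat.succ_pred_eq_of_pos hApos
      omega
    rw [h4, sq]
    exact Nat.mul_le_mul hkc h2.le
  obtain ⟨A, hA⟩ : ∃ A, A = Nat.clog 2 (k * c) := ⟨_, rfl⟩
  rw [← hA] at hA1 hApos hA2
  obtain ⟨l, hl1, hnl, hl4⟩ := hlog (max (2 * z) A) (by omega)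
  have h2z : 2 * z ≤ 2 ^ l := (le_max_left _ _).trans hnl
  have hAl : A ≤ 2 ^ l := (le_max_right _ _).trans hnl
  have hb := z_bound hPT hk hs hApos hA1 hA2 hl1 hAl (by omega) (by omega)
  have hbR : (z : ℝ) ≤ 2 ^ 40 * (A : ℝ) ^ 2 * (l : ℝ) ^ 4 := by exact_mod_cast hb
  have hAR : (0 : ℝ) < A := by exact_mod_cast hApos
  have hA1R : (1 : ℝ) ≤ A := by exact_mod_cast hApos
  have hzR : (0 : ℝ) < z := by exact_mod_cast hz0
  -- the bound in terms of `A`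
  have hzA : (z : ℝ) ≤ (D + 1) * (A : ℝ) ^ (9 / 4 : ℝ) := by
    have hApow : (0 : ℝ) ≤ (A : ℝ) ^ (9 / 4 : ℝ) := by positivity
    rcases le_total A (2 * z) with hcase | hcase
    · rw [max_eq_left hcase] at hl4
      push_cast at hl4
      have h1 : (z : ℝ) ≤ C * (A : ℝ) ^ 2 * (2 * z) ^ (1 / 9 : ℝ) := by
        calc (z : ℝ) ≤ 2 ^ 40 * (A : ℝ) ^ 2 * (l : ℝ) ^ 4 := hbR
          _ ≤ 2 ^ 40 * (A : ℝ) ^ 2 * (K₀ * (2 * z) ^ (1 / 9 : ℝ)) :=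
              mul_le_mul_of_nonneg_left hl4 (by positivity)
          _ = C * (A : ℝ) ^ 2 * (2 * z) ^ (1 / 9 : ℝ) := by rw [hC]; ring
      have h2 := a6_real hCpos hAR hzR h1
      rw [← hD] at h2
      linarith
    · have h1 : (z : ℝ) ≤ A := by exact_mod_cast (by omega : z ≤ A)
      have h2 : (A : ℝ) ≤ (A : ℝ) ^ (9 / 4 : ℝ) := by
        conv_lhs => rw [← Real.rpow_one (A : ℝ)]
        exact Real.rpow_le_rpow_of_exponent_le hA1R (by norm_num)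
      have h3 : 0 ≤ D * (A : ℝ) ^ (9 / 4 : ℝ) := by positivity
      linarith
  have hAlog : (A : ℝ) ≤ 2 / Real.log 2 * Real.log (k * c : ℕ) := by
    have h1 : (2 : ℝ) ^ A ≤ ((k * c : ℕ) : ℝ) ^ 2 := by exact_mod_cast hA2
    have h2 := Real.log_le_log (by positivity) h1
    rw [Real.log_pow, Real.log_pow] at h2
    rw [div_mul_eq_mul_div, le_div_iff₀ hl2]
    exact_mod_cast h2
  have hlogc : 0 ≤ Real.log (k * c : ℕ) := Real.log_natCast_nonneg _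
  calc (z : ℝ) ≤ (D + 1) * (A : ℝ) ^ (9 / 4 : ℝ) := hzA
    _ ≤ (D + 1) * (2 / Real.log 2 * Real.log (k * c : ℕ)) ^ (9 / 4 : ℝ) :=
        mul_le_mul_of_nonneg_left (Real.rpow_le_rpow hAR.le hAlog (by norm_num)) (by positivity)
    _ = (D + 1) * (2 / Real.log 2) ^ (9 / 4 : ℝ) * (Real.log (k * c : ℕ)) ^ (9 / 4 : ℝ) := by
        rw [Real.mul_rpow (by positivity) hlogc]
        ring

/-- Bound for the exponents of all nontrivial solutions (all Pythagorean triples). `decomp`, then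
`z_bound` with `A = Nat.clog 2 c` (so `c ≤ 2^A ≤ c²`, `A ≤ 2 log c / log 2`), `l` from
`log_pow_small` for `n = max (2z) A` (`x < 2z` by `tri`): if `2z ≥ A`,
`z ≤ 2^40 A² K (2z)^(1/9)`, so `z^(8/9) ≤ K' A²`, `z ≤ K'' A^(9/4)`. -/
theorem exp_bound : ∃ K : ℝ, 0 < K ∧ ∀ a b c x y z : ℕ, Sol a b c x y z →
    (x : ℝ) ≤ K * (Real.log c) ^ (9 / 4 : ℝ) ∧ (y : ℝ) ≤ K * (Real.log c) ^ (9 / 4 : ℝ) ∧
      (z : ℝ) ≤ K * (Real.log c) ^ (9 / 4 : ℝ) := by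
  obtain ⟨K, hK, h⟩ := a6_z
  refine ⟨2 * K, by positivity, ?_⟩
  intro a b c x y z hs
  obtain ⟨-, hx, hy⟩ := tri hs
  have hz : (z : ℝ) ≤ K * (Real.log c) ^ (9 / 4 : ℝ) := by
    obtain ⟨ha, hb, hp, -⟩ := id hs
    obtain ⟨k, a₀, b₀, c₀, hk, rfl, hab | hab, hPT⟩ := decomp ha hb hp
    · obtain ⟨rfl, rfl⟩ := hab
      exact h a₀ b₀ c₀ k x y z hPT hk hs
    · obtain ⟨rfl, rfl⟩ := hab
      exact h a₀ b₀ c₀ k y x z hPT hk (a6_sol_symm hs)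
  have hx' : (x : ℝ) ≤ 2 * z := by exact_mod_cast hx.le
  have hy' : (y : ℝ) ≤ 2 * z := by exact_mod_cast hy.le
  have hz0 : (0 : ℝ) ≤ z := Nat.cast_nonneg z
  refine ⟨?_, ?_, ?_⟩ <;> nlinarith

end JB95
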