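import Pool.Agent.LibJB95.Defs
namespace JB95

/-- Every Pythagorean triple is `k` times a primitive one, one leg of which is even. -/
theorem decomp {a b c : ℕ} (ha : 0 < a) (hb : 0 < b) (h : a ^ 2 + b ^ 2 = c ^ 2) :
    ∃ k a₀ b₀ c₀ : ℕ, 0 < k ∧ c = k * c₀ ∧
      ((a = k * a₀ ∧ b = k * b₀) ∨ (a = k * b₀ ∧ b = k * a₀)) ∧ PT a₀ b₀ c₀ := by
  obtain ⟨g, a₁, b₁, hg, hcop, ha1, hb1⟩ := Nat.exists_coprime' (m := a) (n := b)
    (Nat.gcd_pos_of_pos_left b ha)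
  subst ha1 hb1
  have hdvd : g ∣ c := by
    have h1 : g ^ 2 ∣ c ^ 2 := by
      rw [← h, mul_pow, mul_pow]
      exact (Dvd.intro_left _ rfl).add (Dvd.intro_left _ rfl)
    exact (Nat.pow_dvd_pow_iff two_ne_zero).mp h1
  obtain ⟨c₁, rfl⟩ := hdvd
  have ha1 : 0 < a₁ := Nat.pos_of_mul_pos_right ha
  have hb1 : 0 < b₁ := Nat.pos_of_mul_pos_right hb
  have h1 : a₁ ^ 2 + b₁ ^ 2 = c₁ ^ 2 := by
    have h2 : g ^ 2 * (a₁ ^ 2 + b₁ ^ 2) = g ^ 2 * c₁ ^ 2 := by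
      calc g ^ 2 * (a₁ ^ 2 + b₁ ^ 2) = (a₁ * g) ^ 2 + (b₁ * g) ^ 2 := by ring
        _ = (g * c₁) ^ 2 := h
        _ = g ^ 2 * c₁ ^ 2 := by ring
    exact Nat.eq_of_mul_eq_mul_left (pow_pos hg 2) h2
  rcases Nat.even_or_odd a₁ with hae | hao
  · rcases Nat.even_or_odd b₁ with hbe | hbo
    · exfalso
      have h2 : 2 ∣ Nat.gcd a₁ b₁ := Nat.dvd_gcd hae.two_dvd hbe.two_dvd
      rw [hcop] at h2
      omega
    · refine ⟨g, b₁, a₁, c₁, hg, rfl, Or.inr ⟨mul_comm _ _, mul_comm _ _⟩, hb1, ha1, hbo, hae,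
        hcop.symm, ?_⟩
      rw [add_comm]; exact h1
  · rcases Nat.even_or_odd b₁ with hbe | hbo
    · exact ⟨g, a₁, b₁, c₁, hg, rfl, Or.inl ⟨mul_comm _ _, mul_comm _ _⟩, ha1, hb1, hao, hbe,
        hcop, h1⟩
    · exfalso
      obtain ⟨i, hi⟩ := hao
      obtain ⟨j, hj⟩ := hbo
      rw [hi, hj] at h1
      have h2 : c₁ ^ 2 % 4 = 2 := by
        rw [← h1]
        ring_nf
        omega
      rcases Nat.even_or_odd c₁ with ⟨m, hm⟩ | ⟨m, hm⟩
      · rw [hm] at h2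
        ring_nf at h2
        omega
      · rw [hm] at h2
        ring_nf at h2
        omega

/-- Sizes in a primitive triple (`(c-a)(c+a) = b²`, `c - a ≥ 1` ...; `4 ∣ b` since `a`, `c` are odd
and `b² = (c-a)(c+a)`, see `Jes95.four_dvd` in `Pool.Agent.LibJes95.Core`). -/
theorem pt_facts {a b c : ℕ} (h : PT a b c) :
    Odd c ∧ a.Coprime c ∧ b.Coprime c ∧ a < c ∧ b < c ∧ c < a + b ∧ c < a ^ 2 ∧ c < b ^ 2 ∧
      3 ≤ a ∧ 4 ≤ b ∧ 5 ≤ c ∧ 4 ∣ b := by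
  obtain ⟨ha, hb, hao, hbe, hcop, h⟩ := h
  have hc : Odd c := by
    have h1 : Odd (c ^ 2) := by
      rw [← h]
      exact (hao.pow).add_even (hbe.pow_of_ne_zero two_ne_zero)
    exact (Nat.odd_pow_iff two_ne_zero).mp h1
  have hac : a.Coprime c := by
    have h1 : Nat.Coprime a (b ^ 2) := hcop.pow_right 2
    have h2 : Nat.Coprime a (c ^ 2) := by
      rw [← h, show a ^ 2 + b ^ 2 = b ^ 2 + a * a by ring, Nat.coprime_add_mul_left_right]
      exact h1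
    exact (Nat.coprime_pow_right_iff (by norm_num) _ _).mp h2
  have hbc : b.Coprime c := by
    have h1 : Nat.Coprime b (a ^ 2) := hcop.symm.pow_right 2
    have h2 : Nat.Coprime b (c ^ 2) := by
      rw [← h, show a ^ 2 + b ^ 2 = a ^ 2 + b * b by ring, Nat.coprime_add_mul_left_right]
      exact h1
    exact (Nat.coprime_pow_right_iff (by norm_num) _ _).mp h2
  have h1 : a < c := by nlinarith
  have h2 : b < c := by nlinarith
  have h3 : c < a + b := by nlinarith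
  have h4 : c < a ^ 2 := by
    obtain ⟨d, rfl⟩ : ∃ d, c = b + 1 + d := ⟨c - (b + 1), by omega⟩
    nlinarith
  have h5 : c < b ^ 2 := by
    obtain ⟨d, rfl⟩ : ∃ d, c = a + 1 + d := ⟨c - (a + 1), by omega⟩
    nlinarith
  have h6 : 3 ≤ a := by
    obtain ⟨i, hi⟩ := hao
    have : a ≠ 1 := by
      rintro h7
      rw [h7] at h4
      omega
    omega
  have h7 : 4 ∣ b := by
    obtain ⟨i, hi⟩ := hao
    obtain ⟨j, hj⟩ := hc
    obtain ⟨k, hk⟩ := hbe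
    -- `4 k² = 4 (j (j+1) - i (i+1))`, hence `k` is even
    have h8 : k ^ 2 + i * (i + 1) = j * (j + 1) := by
      have : 4 * (k ^ 2 + i * (i + 1)) = 4 * (j * (j + 1)) := by
        have e1 : (2 * i + 1) ^ 2 + (k + k) ^ 2 = (2 * j + 1) ^ 2 := by rw [← hi, ← hj, ← hk]; exact h
        nlinarith
      omega
    have h9 : Even (i * (i + 1)) := Nat.even_mul_succ_self i
    have h10 : Even (j * (j + 1)) := Nat.even_mul_succ_self j
    have h11 : Even (k ^ 2) := by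
      rw [← h8] at h10
      exact (Nat.even_add.mp h10).mpr h9
    have h12 : Even k := (Nat.even_pow.mp h11).1
    obtain ⟨l, hl⟩ := h12
    exact ⟨l, by omega⟩
  have h8 : 4 ≤ b := Nat.le_of_dvd hb h7
  exact ⟨hc, hac, hbc, h1, h2, h3, h4, h5, h6, h8, by omega, h7⟩

end JB95
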