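import Pool.Agent.LibJB95.A0
namespace JB95

private theorem a1_pow_le {a b c z : ℕ} (hac : a ≤ c) (hbc : b ≤ c) (h : a ^ 2 + b ^ 2 = c ^ 2)
    (hz : 2 ≤ z) : a ^ z + b ^ z ≤ c ^ z := by
  obtain ⟨w, rfl⟩ := Nat.exists_eq_add_of_le hz
  have h1 : a ^ w ≤ c ^ w := Nat.pow_le_pow_left hac w
  have h2 : b ^ w ≤ c ^ w := Nat.pow_le_pow_left hbc w
  calc a ^ (2 + w) + b ^ (2 + w) = a ^ 2 * a ^ w + b ^ 2 * b ^ w := by rw [pow_add, pow_add]
    _ ≤ a ^ 2 * c ^ w + b ^ 2 * c ^ w :=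
        Nat.add_le_add (Nat.mul_le_mul_left _ h1) (Nat.mul_le_mul_left _ h2)
    _ = c ^ (2 + w) := by rw [← add_mul, h, pow_add]

private theorem a1_pow_lt {a b c z : ℕ} (ha : 0 < a) (hac : a < c) (hbc : b ≤ c)
    (h : a ^ 2 + b ^ 2 = c ^ 2) (hz : 3 ≤ z) : a ^ z + b ^ z < c ^ z := by
  obtain ⟨w, rfl⟩ := Nat.exists_eq_add_of_le (show 2 ≤ z by omega)
  have h1 : a ^ w < c ^ w := Nat.pow_lt_pow_left hac (by omega)
  have h2 : b ^ w ≤ c ^ w := Nat.pow_le_pow_left hbc w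
  have h3 : a ^ 2 * a ^ w < a ^ 2 * c ^ w := Nat.mul_lt_mul_of_pos_left h1 (by positivity)
  calc a ^ (2 + w) + b ^ (2 + w) = a ^ 2 * a ^ w + b ^ 2 * b ^ w := by rw [pow_add, pow_add]
    _ < a ^ 2 * c ^ w + b ^ 2 * c ^ w :=
        Nat.add_lt_add_of_lt_of_le h3 (Nat.mul_le_mul_left _ h2)
    _ = c ^ (2 + w) := by rw [← add_mul, h, pow_add]

/-- `x = z` is impossible for a nontrivial solution.  If `z ≥ 2`: `c^z ≥ a^z + b^z` with equality
only for `z = 2`.  `y < z` (so `z ≥ 2`): `b^y = k^(z-y) (c^z - a^z) ≥ b^z`, impossible.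
`y = z`: `c^z - a^z = b^z`, so `z = 2` (`z = 1` contradicts `c < a + b`).
`y > z`: `c^z - a^z = k^(y-z) b^y`. Put `β = v₂(b) ≥ 2`; `v₂(c²-a²) = 2β`. If `z` is odd,
`v₂(c^z - a^z) = v₂(c - a) < 2β` (as `c + a` is even) but `y β ≥ 2β`. If `z` is even,
`v₂(c^z - a^z) = 2β + v₂(z) - 1`, so `(z-1) * 2 ≤ (y-2) β ≤ v₂(z) - 1`, impossible. -/
theorem xz_case {a b c k y z : ℕ} (h : PT a b c) (hk : 0 < k) (hy : 0 < y) (hz : 0 < z)
    (e : (k * a) ^ z + (k * b) ^ y = (k * c) ^ z) : z = 2 ∧ y = 2 := by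
  obtain ⟨hoc, -, -, hac, hbc, hcab, -, -, ha3, hb4, hc5, h4b⟩ := pt_facts h
  obtain ⟨ha0, hb0, hoa, heb, hcop, hpyt⟩ := h
  have e1 : k ^ z * a ^ z + k ^ y * b ^ y = k ^ z * c ^ z := by
    rw [← mul_pow, ← mul_pow, ← mul_pow]
    exact e
  have hacz : a ^ z < c ^ z := Nat.pow_lt_pow_left hac (by omega)
  -- `z = 1`
  rcases Nat.lt_or_ge z 2 with hz1 | hz2
  · exfalso
    have hz1' : z = 1 := by omega
    subst hz1'
    rw [pow_one, pow_one, pow_one] at e1
    have h1 : k * b ≤ k ^ y * b ^ y := by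
      rw [← mul_pow]
      exact Nat.le_self_pow (by omega) _
    have h2 : k * c < k * (a + b) := Nat.mul_lt_mul_of_pos_left hcab hk
    rw [mul_add] at h2
    omega
  have hle := a1_pow_le hac.le hbc.le hpyt hz2
  rcases lt_trichotomy y z with hyz | hyz | hyz
  · -- `y < z`
    exfalso
    have h1 : k ^ y * b ^ z ≤ k ^ z * b ^ z :=
      Nat.mul_le_mul_right _ (Nat.pow_le_pow_right hk hyz.le)
    have h2 : k ^ z * a ^ z + k ^ z * b ^ z ≤ k ^ z * c ^ z := by
      rw [← mul_add]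
      exact Nat.mul_le_mul_left _ hle
    have h3 : k ^ y * b ^ y < k ^ y * b ^ z :=
      Nat.mul_lt_mul_of_pos_left (Nat.pow_lt_pow_right (by omega) hyz) (by positivity)
    omega
  · -- `y = z`
    subst hyz
    rw [← mul_add] at e1
    have e2 := Nat.eq_of_mul_eq_mul_left (by positivity : 0 < k ^ y) e1
    have h3 : ¬ 3 ≤ y := by
      intro h3
      have := a1_pow_lt ha0 hac hbc.le hpyt h3
      omega
    omega
  · -- `z < y`
    exfalso
    obtain ⟨w, rfl⟩ := Nat.exists_eq_add_of_lt hyz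
    have e2 : c ^ z - a ^ z = k ^ (w + 1) * b ^ (z + w + 1) := by
      have h1 : k ^ z * (a ^ z + k ^ (w + 1) * b ^ (z + w + 1)) = k ^ z * c ^ z := by
        rw [← e1, mul_add, ← mul_assoc, ← pow_add]
        rfl
      have h2 := Nat.eq_of_mul_eq_mul_left (by positivity : 0 < k ^ z) h1
      omega
    obtain ⟨β, b', hb', hbβ⟩ : ∃ β b' : ℕ, ¬ 2 ∣ b' ∧ b = 2 ^ β * b' :=
      Nat.exists_eq_two_pow_mul_odd (by omega : b ≠ 0) |>.imp fun β hβ => by
        obtain ⟨b', h1, h2⟩ := hβ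
        exact ⟨b', by rw [← even_iff_two_dvd, Nat.not_even_iff_odd]; exact h1, h2⟩
    have hβ2 : 2 ≤ β := by
      by_contra hlt
      have h1 : β = 0 ∨ β = 1 := by omega
      rcases h1 with h1 | h1
      · rw [h1, pow_zero, one_mul] at hbβ
        rw [hbβ] at h4b
        exact hb' (dvd_trans (by norm_num) h4b)
      · rw [h1, pow_one] at hbβ
        obtain ⟨m, hm⟩ := h4b
        exact hb' ⟨m, by omega⟩
    have hv : padicValNat 2 b = β := by
      rw [hbβ, padicValNat.mul (by positivity) (by rintro rfl; simp at hb'),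
        padicValNat.prime_pow, padicValNat.eq_zero_of_not_dvd hb', add_zero]
    have hvz : (z + w + 1) * β ≤ padicValNat 2 (c ^ z - a ^ z) := by
      rw [e2, padicValNat.mul (by positivity) (by positivity), padicValNat.pow,
        padicValNat.pow, hv]
      omega
    have hca : (c - a) * (c + a) = b ^ 2 := by
      have h1 : a ^ 2 ≤ c ^ 2 := Nat.pow_le_pow_left hac.le 2
      have h2 : (c - a) * (c + a) = c ^ 2 - a ^ 2 := by
        rw [Nat.sq_sub_sq, mul_comm]
      omega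
    have hvca : padicValNat 2 (c - a) + padicValNat 2 (c + a) = 2 * β := by
      rw [← padicValNat.mul (by omega) (by omega), hca, padicValNat.pow, hv]
    have hodc : ¬ 2 ∣ c := by
      rw [← even_iff_two_dvd, Nat.not_even_iff_odd]
      exact hoc
    have h2ca : 2 ∣ c - a := by
      obtain ⟨m, hm⟩ := hoc
      obtain ⟨n, hn⟩ := hoa
      exact ⟨m - n, by omega⟩
    have h2ca' : 2 ∣ c + a := by
      obtain ⟨m, hm⟩ := hoc
      obtain ⟨n, hn⟩ := hoa
      exact ⟨m + n + 1, by omega⟩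
    rcases Nat.even_or_odd z with hez | hoz
    · have h1 := padicValNat.pow_two_sub_pow hac h2ca hodc (by omega : z ≠ 0) hez
      have h2 : padicValNat 2 z < z := by
        have h3 : 2 ^ padicValNat 2 z ≤ z := Nat.le_of_dvd hz pow_padicValNat_dvd
        exact lt_of_lt_of_le Nat.lt_two_pow_self h3
      have h3 : (z + w + 1) * β = (z + w - 1) * β + 2 * β := by
        rw [← add_mul]
        congr 1
        omega
      have h4 : (z + w - 1) * 2 ≤ (z + w - 1) * β := Nat.mul_le_mul_left _ hβ2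
      omega
    · have hd1 : (2 : ℕ) ^ (2 * β) ∣ c ^ z - a ^ z := by
        have h1 : 2 * β ≤ padicValNat 2 (c ^ z - a ^ z) := by
          refine le_trans ?_ hvz
          exact Nat.mul_le_mul_right _ (by omega)
        exact dvd_trans (pow_dvd_pow 2 h1) pow_padicValNat_dvd
      have hd2 : (2 : ℤ) ^ (2 * β) ∣ (c : ℤ) ^ z - (a : ℤ) ^ z := by
        have h1 : ((c ^ z - a ^ z : ℕ) : ℤ) = (c : ℤ) ^ z - (a : ℤ) ^ z := by
          rw [Nat.cast_sub hacz.le]
          push_cast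
          rfl
        rw [← h1]
        exact_mod_cast Int.natCast_dvd_natCast.2 hd1
      have hem : emultiplicity (2 : ℤ) ((c : ℤ) ^ z - (a : ℤ) ^ z) =
          emultiplicity (2 : ℤ) ((c : ℤ) - a) := by
        refine emultiplicity_pow_sub_pow_of_prime Int.prime_two ?_ ?_ ?_
        · obtain ⟨m, hm⟩ := h2ca
          exact ⟨m, by omega⟩
        · omega
        · obtain ⟨m, hm⟩ := hoz
          omega
      have hd3 : (2 : ℤ) ^ (2 * β) ∣ (c : ℤ) - a := by
        rw [pow_dvd_iff_le_emultiplicity] at hd2 ⊢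
        rw [← hem]
        exact hd2
      have hd4 : (2 : ℕ) ^ (2 * β) ∣ c - a := by
        have h1 : ((c - a : ℕ) : ℤ) = (c : ℤ) - a := Nat.cast_sub hac.le
        rw [← h1] at hd3
        exact_mod_cast hd3
      have h5 : 2 * β ≤ padicValNat 2 (c - a) :=
        (padicValNat_dvd_iff_le (by omega)).1 hd4
      have h6 : 1 ≤ padicValNat 2 (c + a) :=
        (padicValNat_dvd_iff_le (by omega)).1 (by rwa [pow_one])
      omega

end JB95
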