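import Pool.Agent.LibJB95.A0
namespace JB95

private theorem a2_odd {a b c k x z : ℕ} (h : PT a b c) (hx : z < x) (hz : Odd z)
    (e : k ^ (x - z) * a ^ x + b ^ z = c ^ z) : False := by
  obtain ⟨hc, hac, hbc, h1, h2, h3, h4, h5, h6, h7, h8, h9⟩ := pt_facts h
  obtain ⟨ha0, hb0, haodd, hbeven, hab, hsq⟩ := h
  have hcb : Odd (c + b) := hc.add_even hbeven
  obtain ⟨p, hp, hpd⟩ := Nat.exists_prime_and_dvd (show c + b ≠ 1 by omega)
  have hpa : p ∣ a := by
    have e1 : a ^ 2 = (c + b) * (c - b) := by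
      rw [← Nat.sq_sub_sq]
      omega
    refine hp.dvd_of_dvd_pow (n := 2) ?_
    rw [e1]
    exact hpd.mul_right _
  have hpb : ¬ p ∣ b := by
    intro hpb
    have h5 : p ∣ Nat.gcd a b := Nat.dvd_gcd hpa hpb
    rw [Nat.coprime_iff_gcd_eq_one.1 hab] at h5
    exact hp.one_lt.ne' (Nat.dvd_one.1 h5)
  have hM : p ∣ k ^ (x - z) * a ^ x := (dvd_pow hpa (by omega)).mul_left _
  have hS : p ∣ c ^ z + b ^ z := hpd.trans (Odd.nat_add_dvd_pow_add_pow c b hz)
  have h2b : p ∣ 2 * b ^ z := by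
    have e2 : c ^ z + b ^ z = k ^ (x - z) * a ^ x + 2 * b ^ z := by omega
    rw [e2] at hS
    exact (Nat.dvd_add_right hM).1 hS
  rcases hp.dvd_mul.1 h2b with h | h
  · have hp2 : p = 2 := (Nat.prime_dvd_prime_iff_eq hp Nat.prime_two).1 h
    rw [hp2] at hpd
    exact (Nat.not_even_iff_odd.2 hcb) (even_iff_two_dvd.2 hpd)
  · exact hpb (hp.dvd_of_dvd_pow h)

private theorem a2_even {a b c k x w : ℕ} (h : PT a b c) (hk : 0 < k) (hw : 0 < w)
    (hx : 2 * w < x) (e : k ^ (x - 2 * w) * a ^ x + b ^ (2 * w) = c ^ (2 * w)) : False := by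
  obtain ⟨hc, hac', hbc', h1, h2, h3, h4, h5, h6, h7, h8, h9⟩ := pt_facts h
  obtain ⟨ha0, hb0, haodd, hbeven, hab, hsq⟩ := h
  have hbc : b ^ 2 < c ^ 2 := by
    have : 0 < a ^ 2 := by positivity
    omega
  have hsub : k ^ (x - 2 * w) * a ^ x = (c ^ 2) ^ w - (b ^ 2) ^ w := by
    rw [← pow_mul, ← pow_mul]
    omega
  have hsub2 : a ^ 2 = c ^ 2 - b ^ 2 := by omega
  have hdvd : a ^ (x - 2) ∣ w := by
    rw [← Nat.factorization_prime_le_iff_dvd (by positivity) hw.ne']
    intro p hp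
    by_cases hpa : p ∣ a
    · have : Fact p.Prime := ⟨hp⟩
      have hp2 : Odd p := by
        rcases hp.eq_two_or_odd' with h2 | h2
        · exfalso
          rw [h2] at hpa
          exact (Nat.not_even_iff_odd.2 haodd) (even_iff_two_dvd.2 hpa)
        · exact h2
      have g1 : p ∣ c ^ 2 - b ^ 2 := by
        rw [← hsub2]
        exact dvd_pow hpa (by norm_num)
      have g2 : ¬ p ∣ c ^ 2 := by
        intro hd
        have g3 : p ∣ b ^ 2 := by
          rw [← hsq] at hd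
          exact (Nat.dvd_add_right (dvd_pow hpa (by norm_num))).1 hd
        have g4 : p ∣ b := hp.dvd_of_dvd_pow g3
        have g5 : p ∣ Nat.gcd a b := Nat.dvd_gcd hpa g4
        rw [Nat.coprime_iff_gcd_eq_one.1 hab] at g5
        exact hp.one_lt.ne' (Nat.dvd_one.1 g5)
      have g3 := padicValNat.pow_sub_pow hp2 hbc g1 g2 hw.ne'
      rw [← hsub, ← hsub2, ← Nat.factorization_def _ hp, ← Nat.factorization_def _ hp,
        ← Nat.factorization_def _ hp,
        Nat.factorization_mul (pow_ne_zero _ hk.ne') (pow_ne_zero _ ha0.ne'),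
        Finsupp.add_apply, Nat.factorization_pow a, Nat.factorization_pow a,
        Finsupp.smul_apply, Finsupp.smul_apply, smul_eq_mul, smul_eq_mul] at g3
      rw [Nat.factorization_pow, Finsupp.smul_apply, smul_eq_mul]
      obtain ⟨y, rfl⟩ := Nat.exists_eq_add_of_le (show 2 ≤ x by omega)
      have g4 : (2 + y) * a.factorization p = 2 * a.factorization p + y * a.factorization p := by
        ring
      have g5 : 2 + y - 2 = y := by omega
      rw [g5]
      omega
    · rw [Nat.factorization_pow]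
      simp [Nat.factorization_eq_zero_of_not_dvd hpa]
  have hle : a ^ (x - 2) ≤ w := Nat.le_of_dvd hw hdvd
  have hge : w < a ^ (x - 2) := by
    calc w < 3 ^ w := Nat.lt_pow_self (by norm_num)
      _ ≤ a ^ w := Nat.pow_le_pow_left h6 w
      _ ≤ a ^ (x - 2) := Nat.pow_le_pow_right ha0 (by omega)
  omega

/-- `y = z` is impossible for a nontrivial solution.  `x < z`: `a^x = k^(z-x) (c^z - b^z) ≥ a^z`,
impossible (`z ≥ 2`). `x = z`: `c^z - b^z = a^z`, so `z = 2`. `x > z`: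
`c^z - b^z = k^(x-z) a^x`. If `z` is odd take a prime `p ∣ c + b` (`c + b` is odd, `> 1`, divides
`a²`, so `p ∣ a`, `p ∤ b`): `c ≡ -b`, so `0 ≡ c^z - b^z ≡ -2b^z (mod p)`, impossible. If
`z = 2w`: for every prime `p ∣ a` (odd), `x v_p(a) ≤ v_p(c^(2w) - b^(2w)) = 2 v_p(a) + v_p(w)`
(`padicValNat.pow_sub_pow`), so `a^(x-2) ∣ w` and `3^(2w-1) ≤ a^(x-2) ≤ w`, impossible.
(`Jes95.eqcase` in `Pool.Agent.LibJes95.E5` is a similar proof which can be copied.) -/
theorem yz_case {a b c k x z : ℕ} (h : PT a b c) (hk : 0 < k) (hx : 0 < x) (hz : 0 < z)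
    (e : (k * a) ^ x + (k * b) ^ z = (k * c) ^ z) : x = 2 ∧ z = 2 := by
  have hf := pt_facts h
  obtain ⟨hc, hac', hbc', h1, h2, h3, h4, h5, h6, h7, h8, h9⟩ := hf
  have h' := h
  obtain ⟨ha0, hb0, haodd, hbeven, hab, hsq⟩ := h
  have e' : k ^ x * a ^ x + k ^ z * b ^ z = k ^ z * c ^ z := by
    rw [← mul_pow, ← mul_pow, ← mul_pow]
    exact e
  -- `a ^ (n + 2) + b ^ (n + 2) ≤ c ^ (n + 2)`
  have hpow : ∀ n : ℕ, a ^ (n + 2) + b ^ (n + 2) ≤ c ^ (n + 2) := by
    intro n
    have g1 : a ^ n ≤ c ^ n := Nat.pow_le_pow_left h1.le n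
    have g2 : b ^ n ≤ c ^ n := Nat.pow_le_pow_left h2.le n
    calc a ^ (n + 2) + b ^ (n + 2) = a ^ n * a ^ 2 + b ^ n * b ^ 2 := by ring
      _ ≤ c ^ n * a ^ 2 + c ^ n * b ^ 2 :=
          Nat.add_le_add (Nat.mul_le_mul_right _ g1) (Nat.mul_le_mul_right _ g2)
      _ = c ^ n * (a ^ 2 + b ^ 2) := by ring
      _ = c ^ (n + 2) := by rw [hsq]; ring
  have hpow' : ∀ n : ℕ, a ^ (n + 3) + b ^ (n + 3) < c ^ (n + 3) := by
    intro n
    have g1 : a ^ (n + 1) < c ^ (n + 1) := Nat.pow_lt_pow_left h1 (Nat.succ_ne_zero n)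
    have g2 : b ^ (n + 1) < c ^ (n + 1) := Nat.pow_lt_pow_left h2 (Nat.succ_ne_zero n)
    calc a ^ (n + 3) + b ^ (n + 3) = a ^ (n + 1) * a ^ 2 + b ^ (n + 1) * b ^ 2 := by ring
      _ < c ^ (n + 1) * a ^ 2 + c ^ (n + 1) * b ^ 2 :=
          Nat.add_lt_add (Nat.mul_lt_mul_of_pos_right g1 (by positivity))
            (Nat.mul_lt_mul_of_pos_right g2 (by positivity))
      _ = c ^ (n + 1) * (a ^ 2 + b ^ 2) := by ring
      _ = c ^ (n + 3) := by rw [hsq]; ring
  rcases lt_trichotomy x z with hxz | hxz | hxz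
  · exfalso
    obtain ⟨d, rfl⟩ := Nat.exists_eq_add_of_lt hxz
    have e2 : k ^ x * (a ^ x + k ^ (d + 1) * b ^ (x + d + 1)) =
        k ^ x * (k ^ (d + 1) * c ^ (x + d + 1)) := by
      have g1 : k ^ (x + d + 1) = k ^ x * k ^ (d + 1) := by
        rw [← pow_add]
        congr 1
      rw [g1] at e'
      rw [mul_add, ← mul_assoc, ← mul_assoc]
      exact e'
    have e3 := Nat.eq_of_mul_eq_mul_left (show 0 < k ^ x by positivity) e2
    obtain ⟨n, hn⟩ := Nat.exists_eq_add_of_le (show 2 ≤ x + d + 1 by omega)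
    have g2 := hpow n
    have g3 : n + 2 = x + d + 1 := by omega
    rw [g3] at g2
    have g4 : 1 ≤ k ^ (d + 1) := Nat.one_le_pow _ _ hk
    have g5 := Nat.mul_le_mul_left (k ^ (d + 1)) g2
    rw [mul_add] at g5
    have g6 : k ^ (d + 1) * a ^ (x + d + 1) ≤ a ^ x := by omega
    have g7 : a ^ (x + d + 1) ≤ k ^ (d + 1) * a ^ (x + d + 1) :=
      Nat.le_mul_of_pos_left _ g4
    have g8 : a ^ x < a ^ (x + d + 1) := Nat.pow_lt_pow_right (by omega) (by omega)
    omega
  · subst hxz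
    have e2 : k ^ x * (a ^ x + b ^ x) = k ^ x * c ^ x := by
      rw [mul_add]
      exact e'
    have e3 := Nat.eq_of_mul_eq_mul_left (show 0 < k ^ x by positivity) e2
    have hx2 : x = 2 := by
      rcases Nat.lt_or_ge x 3 with g1 | g1
      · have g2 : x = 1 ∨ x = 2 := by omega
        rcases g2 with g2 | g2
        · exfalso
          rw [g2, pow_one, pow_one, pow_one] at e3
          omega
        · exact g2
      · exfalso
        obtain ⟨n, hn⟩ := Nat.exists_eq_add_of_le g1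
        have g2 := hpow' n
        have g3 : n + 3 = x := by omega
        rw [g3] at g2
        omega
    exact ⟨hx2, hx2⟩
  · exfalso
    have e2 : k ^ z * (k ^ (x - z) * a ^ x + b ^ z) = k ^ z * c ^ z := by
      have g1 : k ^ x = k ^ z * k ^ (x - z) := by
        rw [← pow_add]
        congr 1
        omega
      rw [g1] at e'
      rw [mul_add, ← mul_assoc]
      exact e'
    have e3 := Nat.eq_of_mul_eq_mul_left (show 0 < k ^ z by positivity) e2
    rcases Nat.even_or_odd' z with ⟨w, hw | hw⟩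
    · subst hw
      exact a2_even h' hk (by omega) hxz e3
    · exact a2_odd h' hxz ⟨w, hw⟩ e3

end JB95
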