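import Pool.Agent.LibJB95.A1
import Pool.Agent.LibJB95.A2
namespace JB95

/-- Order of the exponents of a nontrivial solution.  By `decomp`, `xz_case`, `yz_case` (and the
symmetry `a ↔ b`, `x ↔ y`), `x ≠ z` and `y ≠ z`; and `x, y ≤ z - 1` would give
`a^x + b^y < 2 c^(z-1) ≤ c^z`.  Finally `c < a²`, `c < b²` give `x, y < 2z`. -/
theorem tri {a b c x y z : ℕ} (h : Sol a b c x y z) :
    ((x < z ∧ z < y) ∨ (y < z ∧ z < x) ∨ (z < x ∧ z < y)) ∧ x < 2 * z ∧ y < 2 * z := by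
  obtain ⟨ha, hb, hsq, hx, hy, hz, he, hn⟩ := h
  obtain ⟨k, a₀, b₀, c₀, hk, rfl, hab, hPT⟩ := decomp ha hb hsq
  obtain ⟨-, -, -, hac, hbc, -, hca, hcb, -, -, hc5, -⟩ := pt_facts hPT
  have hxz : x ≠ z := by
    rintro rfl
    rcases hab with ⟨rfl, rfl⟩ | ⟨rfl, rfl⟩
    · obtain ⟨h1, h2⟩ := xz_case hPT hk hy hx he
      exact hn ⟨h1, h2, h1⟩
    · rw [add_comm] at he
      obtain ⟨h1, h2⟩ := yz_case hPT hk hy hx he
      exact hn ⟨h2, h1, h2⟩
  have hyz : y ≠ z := by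
    rintro rfl
    rcases hab with ⟨rfl, rfl⟩ | ⟨rfl, rfl⟩
    · obtain ⟨h1, h2⟩ := yz_case hPT hk hx hy he
      exact hn ⟨h1, h2, h2⟩
    · rw [add_comm] at he
      obtain ⟨h1, h2⟩ := xz_case hPT hk hx hy he
      exact hn ⟨h2, h1, h1⟩
  have hlt : a < k * c₀ ∧ b < k * c₀ ∧ k * c₀ < a ^ 2 ∧ k * c₀ < b ^ 2 := by
    have hkk : k * c₀ ≤ k ^ 2 * c₀ := Nat.mul_le_mul_right _ (by nlinarith)
    have hk2 : 0 < k ^ 2 := by positivity
    have e1 : k * c₀ < (k * a₀) ^ 2 := by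
      rw [mul_pow]
      exact lt_of_le_of_lt hkk (Nat.mul_lt_mul_of_pos_left hca hk2)
    have e2 : k * c₀ < (k * b₀) ^ 2 := by
      rw [mul_pow]
      exact lt_of_le_of_lt hkk (Nat.mul_lt_mul_of_pos_left hcb hk2)
    have e3 : k * a₀ < k * c₀ := Nat.mul_lt_mul_of_pos_left hac hk
    have e4 : k * b₀ < k * c₀ := Nat.mul_lt_mul_of_pos_left hbc hk
    rcases hab with ⟨rfl, rfl⟩ | ⟨rfl, rfl⟩
    · exact ⟨e3, e4, e1, e2⟩
    · exact ⟨e4, e3, e2, e1⟩
  obtain ⟨h1, h2, h3, h4⟩ := hlt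
  have hc2 : 2 ≤ k * c₀ := by nlinarith
  generalize k * c₀ = c at *
  have hbx : 0 < b ^ y := Nat.pow_pos hb
  have hax : 0 < a ^ x := Nat.pow_pos ha
  have hx2 : x < 2 * z := by
    by_contra hcon
    push Not at hcon
    have e1 : a ^ (2 * z) ≤ a ^ x := Nat.pow_le_pow_right ha hcon
    rw [pow_mul] at e1
    have e2 : c ^ z ≤ (a ^ 2) ^ z := Nat.pow_le_pow_left h3.le z
    omega
  have hy2 : y < 2 * z := by
    by_contra hcon
    push Not at hcon
    have e1 : b ^ (2 * z) ≤ b ^ y := Nat.pow_le_pow_right hb hcon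
    rw [pow_mul] at e1
    have e2 : c ^ z ≤ (b ^ 2) ^ z := Nat.pow_le_pow_left h4.le z
    omega
  have hbig : ¬ (x < z ∧ y < z) := by
    rintro ⟨h5, h6⟩
    obtain ⟨w, rfl⟩ : ∃ w, z = w + 1 := ⟨z - 1, by omega⟩
    have e1 : a ^ x < c ^ w := lt_of_lt_of_le (Nat.pow_lt_pow_left h1 hx.ne')
      (Nat.pow_le_pow_right (by omega) (by omega))
    have e2 : b ^ y < c ^ w := lt_of_lt_of_le (Nat.pow_lt_pow_left h2 hy.ne')
      (Nat.pow_le_pow_right (by omega) (by omega))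
    have e3 : c ^ w * 2 ≤ c ^ (w + 1) := by
      rw [pow_succ]
      exact Nat.mul_le_mul_left _ hc2
    omega
  refine ⟨?_, hx2, hy2⟩
  omega

private theorem two_pow_odd {p r U V : ℕ} (hU : Odd U) (hV : Odd V) (h : 2 ^ p * U = 2 ^ r * V) :
    p = r := by
  rcases lt_trichotomy p r with hlt | heq | hgt
  · exfalso
    obtain ⟨k, hk, rfl⟩ : ∃ k, 0 < k ∧ r = p + k := ⟨r - p, by omega, by omega⟩
    rw [pow_add, mul_assoc] at h
    have h1 := Nat.eq_of_mul_eq_mul_left (by positivity) h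
    rw [h1] at hU
    have h2 : Even (2 ^ k * V) := (Nat.even_pow.2 ⟨even_two, hk.ne'⟩).mul_right V
    exact (Nat.not_even_iff_odd.2 hU) h2
  · exact heq
  · exfalso
    obtain ⟨k, hk, rfl⟩ : ∃ k, 0 < k ∧ p = r + k := ⟨p - r, by omega, by omega⟩
    rw [pow_add, mul_assoc] at h
    have h1 := Nat.eq_of_mul_eq_mul_left (by positivity) h
    rw [← h1] at hV
    have h2 : Even (2 ^ k * U) := (Nat.even_pow.2 ⟨even_two, hk.ne'⟩).mul_right U
    exact (Nat.not_even_iff_odd.2 hV) h2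

private theorem two_pow_sum {p q r A B C : ℕ} (hA : Odd A) (hB : Odd B) (hC : Odd C)
    (h : 2 ^ p * A + 2 ^ q * B = 2 ^ r * C) :
    (p = r ∧ p < q) ∨ (q = r ∧ q < p) ∨ (p = q ∧ p < r) := by
  rcases lt_trichotomy p q with hlt | heq | hgt
  · left
    refine ⟨?_, hlt⟩
    obtain ⟨k, hk, rfl⟩ : ∃ k, 0 < k ∧ q = p + k := ⟨q - p, by omega, by omega⟩
    rw [pow_add, mul_assoc, ← mul_add] at h
    have h2 : Even (2 ^ k * B) := (Nat.even_pow.2 ⟨even_two, hk.ne'⟩).mul_right B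
    exact two_pow_odd (hA.add_even h2) hC h
  · right; right
    subst heq
    refine ⟨rfl, ?_⟩
    rw [← mul_add] at h
    by_contra hcon
    push Not at hcon
    obtain ⟨k, rfl⟩ := Nat.exists_eq_add_of_le hcon
    rw [pow_add, mul_assoc] at h
    have h1 := Nat.eq_of_mul_eq_mul_left (by positivity) h
    rw [← h1] at hC
    exact (Nat.not_even_iff_odd.2 hC) ((hA.add_odd hB).mul_left _)
  · right; left
    refine ⟨?_, hgt⟩
    obtain ⟨k, hk, rfl⟩ : ∃ k, 0 < k ∧ p = q + k := ⟨p - q, by omega, by omega⟩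
    rw [pow_add, mul_assoc, ← mul_add] at h
    have h2 : Even (2 ^ k * A) := (Nat.even_pow.2 ⟨even_two, hk.ne'⟩).mul_right A
    exact two_pow_odd (h2.add_odd hB) hC h

/-- If `k` is even then `y < z < x` and `y ≤ (z - y) log₂ k`: with `κ = v₂(k) ≥ 1`, `β = v₂(b)`,
the 2-adic valuations of the three terms are `x κ`, `y (κ + β)`, `z κ`, and the minimum is attained
twice. `xκ = zκ` is impossible; `y(κ+β) = xκ < zκ` gives `y < x < z`, impossible by `tri`. So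
`y(κ+β) = zκ < xκ`, `(z-y) κ = y β ≥ y`, and `κ ≤ Nat.log 2 k`. -/
theorem keven {a b c k x y z : ℕ} (h : PT a b c) (hk : 0 < k) (hke : Even k)
    (hs : Sol (k * a) (k * b) (k * c) x y z) :
    y < z ∧ z < x ∧ y ≤ (z - y) * Nat.log 2 k := by
  have htri := (tri hs).1
  obtain ⟨-, -, -, hx, hy, hz, he, -⟩ := hs
  obtain ⟨hco, -⟩ := pt_facts h
  obtain ⟨ha, hb, hao, hbe, -, -⟩ := h
  obtain ⟨κ, k', hk'o, rfl⟩ := Nat.exists_eq_two_pow_mul_odd hk.ne'
  obtain ⟨β, b', hb'o, rfl⟩ := Nat.exists_eq_two_pow_mul_odd hb.ne'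
  have hκ : 0 < κ := by
    rcases Nat.eq_zero_or_pos κ with rfl | h1
    · rw [pow_zero, one_mul] at hke
      exact absurd hke (Nat.not_even_iff_odd.2 hk'o)
    · exact h1
  have hβ : 0 < β := by
    rcases Nat.eq_zero_or_pos β with rfl | h1
    · rw [pow_zero, one_mul] at hbe
      exact absurd hbe (Nat.not_even_iff_odd.2 hb'o)
    · exact h1
  have he' : 2 ^ (κ * x) * (k' * a) ^ x + 2 ^ ((κ + β) * y) * (k' * b') ^ y =
      2 ^ (κ * z) * (k' * c) ^ z := by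
    rw [pow_mul, pow_mul, pow_mul, ← mul_pow, ← mul_pow, ← mul_pow, pow_add]
    rw [show 2 ^ κ * 2 ^ β * (k' * b') = 2 ^ κ * k' * (2 ^ β * b') by ring,
      ← mul_assoc, show 2 ^ κ * (k' * c) = 2 ^ κ * k' * c by ring]
    exact he
  have hlog : κ ≤ Nat.log 2 (2 ^ κ * k') := by
    apply Nat.le_log_of_pow_le (by norm_num)
    exact Nat.le_mul_of_pos_right _ hk'o.pos
  have hyβ : y ≤ y * β := Nat.le_mul_of_pos_right _ hβ
  rcases two_pow_sum ((hk'o.mul hao).pow) ((hk'o.mul hb'o).pow) ((hk'o.mul hco).pow) he' with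
    ⟨h1, h2⟩ | ⟨h1, h2⟩ | ⟨h1, h2⟩
  · have h3 : x = z := Nat.eq_of_mul_eq_mul_left hκ h1
    omega
  · have h3 : z < x := by
      rw [h1] at h2
      exact Nat.lt_of_mul_lt_mul_left h2
    have h4 : y < z := by
      by_contra hcon
      push Not at hcon
      have h5 : κ * z ≤ κ * y := Nat.mul_le_mul_left _ hcon
      have h6 : (κ + β) * y = κ * y + y * β := by ring
      omega
    refine ⟨h4, h3, ?_⟩
    obtain ⟨w, rfl⟩ := Nat.exists_eq_add_of_lt h4
    have h5 : y + w + 1 - y = w + 1 := by omega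
    rw [h5]
    have h6 : (κ + β) * y = κ * y + y * β := by ring
    have h7 : κ * (y + w + 1) = κ * y + (w + 1) * κ := by ring
    have h8 : (w + 1) * κ ≤ (w + 1) * Nat.log 2 (2 ^ κ * k') := Nat.mul_le_mul_left _ hlog
    omega
  · exfalso
    have h3 : x < z := Nat.lt_of_mul_lt_mul_left h2
    have h4 : y < x := by
      by_contra hcon
      push Not at hcon
      have h5 : κ * x ≤ κ * y := Nat.mul_le_mul_left _ hcon
      have h6 : (κ + β) * y = κ * y + y * β := by ring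
      omega
    omega

end JB95
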