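import Pool.Agent.LibJB95.A3
import Pool.Agent.LibTL95.Arch
namespace JB95

/-- `k c` and `k a` are multiplicatively independent (`a, c ≥ 3` coprime). -/
theorem mult_indep {a b c k : ℕ} (h : PT a b c) (hk : 0 < k) :
    ∀ i j : ℕ, (k * c) ^ i = (k * a) ^ j → i = 0 ∧ j = 0 := by
  obtain ⟨-, hac, -, hlt, -, -, -, -, ha3, -, hc5, -⟩ := pt_facts h
  intro i j e
  have hka : 3 ≤ k * a := ha3.trans (Nat.le_mul_of_pos_left _ hk)
  have hkc : 5 ≤ k * c := hc5.trans (Nat.le_mul_of_pos_left _ hk)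
  have hkac : k * a < k * c := Nat.mul_lt_mul_of_pos_left hlt hk
  rcases Nat.eq_zero_or_pos i with rfl | hi
  · refine ⟨rfl, ?_⟩
    by_contra hj
    have h1 : 1 < (k * a) ^ j := Nat.one_lt_pow hj (by omega)
    rw [pow_zero] at e
    omega
  · exfalso
    have hij : i < j := by
      by_contra hji
      push Not at hji
      have h1 : (k * a) ^ j ≤ (k * a) ^ i := Nat.pow_le_pow_right (by omega) hji
      have h2 : (k * a) ^ i < (k * c) ^ i := Nat.pow_lt_pow_left hkac (by omega)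
      omega
    have h3 : c ^ i = k ^ (j - i) * a ^ j := by
      have h4 : k ^ i * c ^ i = k ^ i * (k ^ (j - i) * a ^ j) := by
        rw [← mul_pow, e, mul_pow, ← mul_assoc, ← pow_add, Nat.add_sub_cancel' hij.le]
      exact Nat.eq_of_mul_eq_mul_left (by positivity) h4
    have h5 : a ∣ c ^ i := by
      rw [h3]
      exact (dvd_pow_self a (by omega)).mul_left _
    have h6 : a = 1 := Nat.Coprime.eq_one_of_dvd (Nat.Coprime.pow_right i hac) h5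
    omega

/-- Archimedean part.  `0 < Λ = z log(kc) - x log(ka) = -log(1 - u) ≤ 2u`, where
`u = (kb)^y / (kc)^z < (kc)^(y-z) ≤ 1/2`. By `TL95.two_log_arch`
(`α₁ = ka, b₁ = x, α₂ = kc, b₂ = z`), `(kc)^(z-y) ≤ 2 * 2^(2^33 A² l⁴)`, and `2^A ≤ (kc)²`. -/
theorem arch_part {a b c k x y z A l : ℕ} (h : PT a b c) (hk : 0 < k)
    (hs : Sol (k * a) (k * b) (k * c) x y z) (hyz : y < z)
    (hA1 : k * c ≤ 2 ^ A) (hA2 : 2 ^ A ≤ (k * c) ^ 2) (hl : 1 ≤ l) (hAl : A ≤ 2 ^ l)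
    (hx : x ≤ 2 ^ l) (hz : z ≤ 2 ^ l) : z - y ≤ 2 ^ 35 * A * l ^ 4 := by
  obtain ⟨-, hac, -, hlt, hbc, -, -, -, ha3, hb4, hc5, -⟩ := pt_facts h
  have hka : 3 ≤ k * a := ha3.trans (Nat.le_mul_of_pos_left _ hk)
  have hkb : 4 ≤ k * b := hb4.trans (Nat.le_mul_of_pos_left _ hk)
  have hkc : 5 ≤ k * c := hc5.trans (Nat.le_mul_of_pos_left _ hk)
  have hkac : k * a < k * c := Nat.mul_lt_mul_of_pos_left hlt hk
  have hkbc : k * b < k * c := Nat.mul_lt_mul_of_pos_left hbc hk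
  have hA : 1 ≤ A := by
    by_contra hA0
    have : A = 0 := by omega
    subst this
    simp at hA1
    omega
  obtain ⟨-, -, -, hx0, hy0, hz0, heq, -⟩ := hs
  have hMI := mult_indep h hk
  obtain ⟨α, hα⟩ : ∃ α, α = k * a := ⟨_, rfl⟩
  obtain ⟨β, hβ⟩ : ∃ β, β = k * b := ⟨_, rfl⟩
  obtain ⟨γ, hγ⟩ : ∃ γ, γ = k * c := ⟨_, rfl⟩
  rw [← hα] at hka hkac heq hMI
  rw [← hβ] at hkb hkbc heq
  rw [← hγ] at hkc hkac hkbc heq hMI hA1 hA2
  have hlow := TL95.two_log_arch (l := l) (A := A) (α₁ := α) (α₂ := γ) (b₁ := x) (b₂ := z)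
    hl hA hAl hx0 hz0 hx hz (by omega) (by omega) (by omega) hA1
    (fun i j e => (hMI j i e.symm).symm)
  -- real numbers
  have hγ0 : (0 : ℝ) < γ := by exact_mod_cast (by omega : 0 < γ)
  have hα0 : (0 : ℝ) < α := by exact_mod_cast (by omega : 0 < α)
  have hγ1 : (5 : ℝ) ≤ γ := by exact_mod_cast hkc
  have heqR : (α : ℝ) ^ x + (β : ℝ) ^ y = (γ : ℝ) ^ z := by exact_mod_cast heq
  have hγz : (0 : ℝ) < (γ : ℝ) ^ z := by positivity
  have hαx : (0 : ℝ) < (α : ℝ) ^ x := by positivity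
  obtain ⟨u, hu⟩ : ∃ u : ℝ, u = (β : ℝ) ^ y / (γ : ℝ) ^ z := ⟨_, rfl⟩
  obtain ⟨d, hd⟩ : ∃ d : ℕ, d = z - y := ⟨_, rfl⟩
  have hu0 : 0 ≤ u := by rw [hu]; positivity
  have hd1 : 1 ≤ d := by omega
  have hu1 : u * (γ : ℝ) ^ d ≤ 1 := by
    have h1 : (β : ℝ) ^ y ≤ (γ : ℝ) ^ y := by
      apply pow_le_pow_left₀ (by positivity)
      exact_mod_cast hkbc.le
    have h2 : (γ : ℝ) ^ z = (γ : ℝ) ^ y * (γ : ℝ) ^ d := by
      rw [← pow_add]; congr 1; omega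
    rw [hu, h2, div_mul_eq_mul_div, div_le_one (by positivity)]
    exact mul_le_mul_of_nonneg_right h1 (by positivity)
  have hγd : (5 : ℝ) ≤ (γ : ℝ) ^ d := by
    calc (5 : ℝ) ≤ γ := hγ1
      _ = (γ : ℝ) ^ 1 := (pow_one _).symm
      _ ≤ (γ : ℝ) ^ d := pow_le_pow_right₀ (by linarith) hd1
  have hu2 : u ≤ 1 / 5 := by nlinarith
  have h1u : (α : ℝ) ^ x = (γ : ℝ) ^ z * (1 - u) := by
    rw [hu]
    field_simp
    linarith
  have hΛ : (z : ℝ) * Real.log γ - (x : ℝ) * Real.log α = - Real.log (1 - u) := by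
    have h3 : Real.log ((α : ℝ) ^ x) = Real.log ((γ : ℝ) ^ z) + Real.log (1 - u) := by
      rw [h1u, Real.log_mul hγz.ne' (by linarith)]
    rw [Real.log_pow, Real.log_pow] at h3
    linarith
  have hlog : - Real.log (1 - u) ≤ 2 * u := by
    have h4 : 1 - (1 - u)⁻¹ ≤ Real.log (1 - u) := Real.one_sub_inv_le_log_of_pos (by linarith)
    have h5 : (1 - u)⁻¹ ≤ 1 + 2 * u := by
      rw [inv_le_comm₀ (by linarith) (by linarith), inv_le_comm₀ (by linarith) (by linarith)]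
      rw [inv_le_iff_one_le_mul₀ (by linarith)]
      nlinarith
    linarith
  have hlog0 : 0 ≤ - Real.log (1 - u) := by
    have := Real.log_nonpos (x := 1 - u) (by linarith) (by linarith)
    linarith
  rw [hΛ, abs_of_nonneg hlog0] at hlow
  obtain ⟨M, hM⟩ : ∃ M : ℕ, M = 2 ^ 33 * A ^ 2 * l ^ 4 := ⟨_, rfl⟩
  rw [← hM] at hlow
  have h6 : (γ : ℝ) ^ d ≤ 2 ^ (M + 1) := by
    have h7 : (1 / 2 : ℝ) ^ M ≤ 2 * u := hlow.trans hlog
    have h8 : (1 / 2 : ℝ) ^ M * (γ : ℝ) ^ d ≤ 2 := by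
      calc (1 / 2 : ℝ) ^ M * (γ : ℝ) ^ d ≤ 2 * u * (γ : ℝ) ^ d :=
            mul_le_mul_of_nonneg_right h7 (by positivity)
        _ ≤ 2 := by nlinarith
    have h9 : (γ : ℝ) ^ d = 2 ^ M * ((1 / 2 : ℝ) ^ M * (γ : ℝ) ^ d) := by
      rw [← mul_assoc, ← mul_pow]; norm_num
    rw [h9, pow_succ]
    exact mul_le_mul_of_nonneg_left h8 (by positivity)
  have h7 : γ ^ d ≤ 2 ^ (M + 1) := by exact_mod_cast h6
  have h8 : 2 ^ (A * d) ≤ 2 ^ (2 * (M + 1)) := by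
    calc 2 ^ (A * d) = (2 ^ A) ^ d := pow_mul 2 A d
      _ ≤ (γ ^ 2) ^ d := Nat.pow_le_pow_left hA2 d
      _ = (γ ^ d) ^ 2 := by rw [← pow_mul, ← pow_mul, mul_comm]
      _ ≤ (2 ^ (M + 1)) ^ 2 := Nat.pow_le_pow_left h7 2
      _ = 2 ^ (2 * (M + 1)) := by rw [← pow_mul, mul_comm]
  have h9 : A * d ≤ 2 * (M + 1) := (Nat.pow_le_pow_iff_right (by norm_num)).mp h8
  rw [← hd]
  have hl4 : 1 ≤ l ^ 4 := Nat.one_le_pow _ _ hl
  have hA2' : 1 ≤ A ^ 2 := Nat.one_le_pow _ _ hA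
  have hM1 : 1 ≤ M := by
    rw [hM]; exact Nat.one_le_iff_ne_zero.mpr (by positivity)
  have h10 : A * d ≤ A * (2 ^ 35 * A * l ^ 4) := by
    calc A * d ≤ 2 * (M + 1) := h9
      _ ≤ 4 * M := by omega
      _ = A * (2 ^ 35 * A * l ^ 4) := by rw [hM]; ring
  exact Nat.le_of_mul_le_mul_left h10 hA

end JB95
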