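import Pool.Agent.LibJB95.A4
import Pool.Agent.LibTL95.Two
namespace JB95

/-- 2-adic part: `4 ∣ b`, so `2^(2y) ∣ (kb)^y = (kc)^z - (ka)^x` with `ka`, `kc` odd;
`TL95.two_log_two`. -/
theorem adic_part {a b c k x y z A l : ℕ} (h : PT a b c) (hk : Odd k)
    (hs : Sol (k * a) (k * b) (k * c) x y z) (hA : 1 ≤ A) (hA1 : k * c ≤ 2 ^ A) (hl : 1 ≤ l)
    (hAl : A ≤ 2 ^ l) (hx : x ≤ 2 ^ l) (hz : z ≤ 2 ^ l) : y ≤ 2 ^ 39 * A ^ 2 * l ^ 4 := by
  obtain ⟨hc, hac, hbc, h1, h2, h3, h4, h5, h6, h7, h8, h9⟩ := pt_facts h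
  obtain ⟨s1, s2, s3, hx0, hy0, hz0, heq, _⟩ := hs
  have hk0 : 0 < k := hk.pos
  have hao : Odd a := h.2.2.1
  have hka : 2 ≤ k * a := by nlinarith
  have hkc : 2 ≤ k * c := by nlinarith
  have hle : k * a ≤ 2 ^ A := le_trans (Nat.mul_le_mul_left k h1.le) hA1
  have hdvd : (2 : ℤ) ^ (2 * y) ∣ ((k * a : ℕ) : ℤ) ^ x - ((k * c : ℕ) : ℤ) ^ z := by
    have e1 : ((k * a : ℕ) : ℤ) ^ x - ((k * c : ℕ) : ℤ) ^ z = -(((k * b : ℕ) : ℤ) ^ y) := by
      have e2 : ((k * a : ℕ) : ℤ) ^ x + ((k * b : ℕ) : ℤ) ^ y = ((k * c : ℕ) : ℤ) ^ z := by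
        exact_mod_cast heq
      linarith
    rw [e1, dvd_neg, pow_mul]
    apply pow_dvd_pow_of_dvd
    have e3 : (4 : ℕ) ∣ k * b := Dvd.dvd.mul_left h9 k
    have e4 : ((4 : ℕ) : ℤ) ∣ ((k * b : ℕ) : ℤ) := by exact_mod_cast e3
    norm_num at e4 ⊢
    exact e4
  have hMI : ∀ i j : ℕ, (k * a) ^ i = (k * c) ^ j → i = 0 ∧ j = 0 := by
    intro i j hij
    have := mult_indep h hk0 j i hij.symm
    exact ⟨this.2, this.1⟩
  have := TL95.two_log_two (v := 2 * y) hl hA hAl hx0 hz0 hx hz (hk.mul hao) (hk.mul hc) hka hkc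
    hle hA1 hMI hdvd
  have e5 : 2 ^ 40 * A ^ 2 * l ^ 4 = 2 * (2 ^ 39 * A ^ 2 * l ^ 4) := by ring
  rw [e5] at this
  exact Nat.le_of_mul_le_mul_left this (by norm_num)

/-- If `y > z` then `k` is odd (`keven`) and `z < y` is bounded by `adic_part`. If `y < z` then
`z - y` is bounded by `arch_part`, and `y` by `adic_part` (`k` odd) or `keven` (`k` even,
`Nat.log 2 k ≤ A`). -/
theorem z_bound {a b c k x y z A l : ℕ} (h : PT a b c) (hk : 0 < k)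
    (hs : Sol (k * a) (k * b) (k * c) x y z) (hA : 1 ≤ A)
    (hA1 : k * c ≤ 2 ^ A) (hA2 : 2 ^ A ≤ (k * c) ^ 2) (hl : 1 ≤ l) (hAl : A ≤ 2 ^ l)
    (hx : x ≤ 2 ^ l) (hz : z ≤ 2 ^ l) : z ≤ 2 ^ 40 * A ^ 2 * l ^ 4 := by
  obtain ⟨hc, hac, hbc, h1, h2, h3, h4, h5, h6, h7, h8, h9⟩ := pt_facts h
  have htri := (tri hs).1
  have hA2' : A ≤ A ^ 2 := Nat.le_self_pow two_ne_zero A
  have hAl4 : A * l ^ 4 ≤ A ^ 2 * l ^ 4 := Nat.mul_le_mul_right _ hA2'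
  have e40 : 2 ^ 40 * A ^ 2 * l ^ 4 = 2 * (2 ^ 39 * A ^ 2 * l ^ 4) := by ring
  rcases lt_or_ge z y with hzy | hyz
  · have hko : Odd k := by
      by_contra hcon
      have hke : Even k := Nat.not_odd_iff_even.mp hcon
      have := (keven h hk hke hs).1
      omega
    have h10 := adic_part h hko hs hA hA1 hl hAl hx hz
    omega
  · have hyz' : y < z := by
      rcases htri with h | h | h <;> omega
    have h10 := arch_part h hk hs hyz' hA1 hA2 hl hAl hx hz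
    have h11 : 2 ^ 35 * A * l ^ 4 ≤ 2 ^ 35 * A ^ 2 * l ^ 4 := by
      rw [mul_assoc, mul_assoc]
      exact Nat.mul_le_mul_left _ hAl4
    have h35 : 2 ^ 39 * A ^ 2 * l ^ 4 = 16 * (2 ^ 35 * A ^ 2 * l ^ 4) := by ring
    rcases Nat.even_or_odd k with hke | hko
    · obtain ⟨_, _, h12⟩ := keven h hk hke hs
      have h13 : Nat.log 2 k ≤ A := by
        have hkle : k ≤ 2 ^ A := by
          refine le_trans ?_ hA1
          nlinarith
        calc Nat.log 2 k ≤ Nat.log 2 (2 ^ A) := Nat.log_mono_right hkle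
          _ = A := Nat.log_pow (by norm_num) A
      have h14 : y ≤ 2 ^ 35 * A ^ 2 * l ^ 4 := by
        calc y ≤ (z - y) * Nat.log 2 k := h12
          _ ≤ (2 ^ 35 * A * l ^ 4) * A := Nat.mul_le_mul h10 h13
          _ = 2 ^ 35 * A ^ 2 * l ^ 4 := by ring
      omega
    · have h14 := adic_part h hko hs hA hA1 hl hAl hx hz
      omega

end JB95
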