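import Pool.Agent.LibJB95.Defs
namespace JB95

/-- Rolle gives `ξ` with `φ₁ ξ = 0`, then the mean value inequality. -/
theorem rolle_bound {φ φ₁ φ₂ : ℝ → ℝ} {B : ℝ}
    (h1 : ∀ s ∈ Set.Icc (0 : ℝ) 1, HasDerivAt φ (φ₁ s) s)
    (h2 : ∀ s ∈ Set.Icc (0 : ℝ) 1, HasDerivAt φ₁ (φ₂ s) s)
    (hB : ∀ s ∈ Set.Icc (0 : ℝ) 1, |φ₂ s| ≤ B) (h : φ 0 = φ 1) : |φ₁ 0| ≤ B := by
  have hc : ContinuousOn φ (Set.Icc 0 1) := fun s hs => (h1 s hs).continuousAt.continuousWithinAt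
  obtain ⟨ξ, hξ, hξ0⟩ := exists_hasDerivAt_eq_zero (f := φ) (f' := φ₁) (by norm_num) hc h
    (fun x hx => h1 x (Set.Ioo_subset_Icc_self hx))
  have hB0 : 0 ≤ B := (abs_nonneg _).trans (hB 0 (by simp))
  have key := (convex_Icc (0 : ℝ) 1).norm_image_sub_le_of_norm_hasDerivWithin_le (f := φ₁)
    (f' := φ₂) (C := B) (fun x hx => (h2 x hx).hasDerivWithinAt)
    (fun x hx => by rw [Real.norm_eq_abs]; exact hB x hx)
    (Set.Ioo_subset_Icc_self hξ) (Set.left_mem_Icc.2 zero_le_one)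
  rw [hξ0, sub_zero, Real.norm_eq_abs, Real.norm_eq_abs] at key
  refine key.trans ?_
  have : |0 - ξ| ≤ 1 := by
    rw [abs_le]
    constructor <;> linarith [hξ.1, hξ.2]
  nlinarith [abs_nonneg (0 - ξ)]

end JB95
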