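import Pool.Agent.LibJB95.Defs
namespace JB95
open Polynomial

private theorem natDegree_sq_add (f g : ℝ[X]) :
    (f ^ 2 + g ^ 2).natDegree = 2 * max f.natDegree g.natDegree := by
  have key : ∀ f g : ℝ[X], g.natDegree < f.natDegree →
      (f ^ 2 + g ^ 2).natDegree = 2 * f.natDegree := by
    intro f g h
    rw [natDegree_add_eq_left_of_natDegree_lt]
    · exact natDegree_pow f 2
    · rw [natDegree_pow, natDegree_pow]; omega
  rcases lt_trichotomy f.natDegree g.natDegree with h | h | h
  · rw [add_comm, key g f h, max_eq_right h.le]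
  · rw [h, max_self]
    by_cases hg : g = 0
    · have : f.natDegree = 0 := by rw [h, hg, natDegree_zero]
      obtain ⟨c, hc⟩ := natDegree_eq_zero.1 this
      rw [hg, ← hc]
      have : (C c ^ 2 + (0 : ℝ[X]) ^ 2) = C (c ^ 2) := by simp
      rw [this, natDegree_C, natDegree_zero]
    · apply le_antisymm
      · refine (natDegree_add_le _ _).trans ?_
        rw [natDegree_pow, natDegree_pow, h, max_self]
      · apply le_natDegree_of_ne_zero
        rw [coeff_add]
        have e1 : (g ^ 2).coeff (2 * g.natDegree) = g.leadingCoeff ^ 2 := by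
          rw [← natDegree_pow, coeff_natDegree, leadingCoeff_pow]
        have e2 : (f ^ 2).coeff (2 * g.natDegree) = f.leadingCoeff ^ 2 := by
          rw [← h, ← natDegree_pow, coeff_natDegree, leadingCoeff_pow]
        rw [e1, e2]
        have : 0 < g.leadingCoeff ^ 2 := by
          have := leadingCoeff_ne_zero.2 hg
          positivity
        positivity
  · rw [key f g h, max_eq_left h.le]

private theorem case31 {f g : ℝ[X]} {k : ℝ} (hk : 0 < k) (hco : IsCoprime f g)
    (h : (C k * f) ^ 3 + C k * g = C k ^ 2 * (f ^ 2 + g ^ 2)) :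
    f.natDegree = 0 ∧ g.natDegree = 0 := by
  have hCk : (C k : ℝ[X]) ≠ 0 := by rw [Ne, C_eq_zero]; exact hk.ne'
  have h1 : f ^ 2 * (C k * (C k * f - 1)) = g * (C k * g - 1) := by
    apply mul_left_cancel₀ hCk
    linear_combination h
  have hd1 : ∀ w : ℝ[X], (C k * w - 1).natDegree ≤ w.natDegree := by
    intro w
    refine (natDegree_sub_le _ _).trans ?_
    rw [natDegree_one]
    exact max_le (natDegree_C_mul_le _ _) (Nat.zero_le _)
  have hconst : ∀ w : ℝ[X], C k * w - 1 = 0 → w.natDegree = 0 := by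
    intro w hw
    have e1 : C k * w = 1 := sub_eq_zero.1 hw
    have e2 := congrArg natDegree e1
    rw [natDegree_C_mul hk.ne', natDegree_one] at e2
    exact e2
  by_cases hg : C k * g - 1 = 0
  · have e1 := hconst g hg
    rw [hg, mul_zero] at h1
    rcases mul_eq_zero.1 h1 with h2 | h2
    · have : f = 0 := by simpa using h2
      rw [this]
      exact ⟨natDegree_zero, e1⟩
    · rcases mul_eq_zero.1 h2 with h3 | h3
      · exact absurd h3 hCk
      · exact ⟨hconst f h3, e1⟩
  · by_cases hf : C k * f - 1 = 0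
    · have e1 := hconst f hf
      rw [hf, mul_zero, mul_zero] at h1
      rcases mul_eq_zero.1 h1.symm with h2 | h2
      · rw [h2]; exact ⟨e1, natDegree_zero⟩
      · exact absurd h2 hg
    · have d1 : f ^ 2 ∣ C k * g - 1 := by
        have : f ^ 2 ∣ g * (C k * g - 1) := ⟨_, h1.symm⟩
        exact (hco.pow_left (m := 2)).dvd_of_dvd_mul_left this
      have d2 : g ∣ C k * f - 1 := by
        have e1 : g ∣ f ^ 2 * (C k * (C k * f - 1)) := ⟨_, h1⟩
        have e2 : g ∣ C k * (C k * f - 1) :=
          ((hco.pow_left (m := 2)).symm).dvd_of_dvd_mul_left e1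
        have hu : IsUnit (C k : ℝ[X]) := isUnit_C.2 (isUnit_iff_ne_zero.2 hk.ne')
        exact hu.dvd_mul_left.1 e2
      have e1 := natDegree_le_of_dvd d1 hg
      have e2 := natDegree_le_of_dvd d2 hf
      rw [natDegree_pow] at e1
      have e3 := hd1 g
      have e4 := hd1 f
      omega

/-- Jeśmanowicz's conjecture over `ℝ[X]` (in the range of exponents that we need), by
Mason–Stothers (`Polynomial.abc`).  Let `a = P² - Q²`, `b = 2PQ`, `c = P² + Q²`,
`d = max (deg P) (deg Q) ≥ 1`; `a, b, c` are nonzero and pairwise coprime, `deg c = 2d`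
(no cancellation), `deg a, deg b ≤ 2d` with equality at least once. If
`(ka)^x + (kb)^y = (kc)^z`, then `z * 2d + 1 ≤ deg a + deg b + deg c ≤ 6d`, so `z ≤ 2`; as
`z < max x y < 2z`: `z = 2` and `{x, y} ⊂ {1, 3}`, not both `1`.
`(3,3)`: `k(a+b)(a²-ab+b²) = c² = a²+b²`, so `a²-ab+b²` divides `ab`, is coprime to it, and has
degree `4d`. `(3,1)`: `k a²(ka - 1) = b(kb - 1)`; `a² ∣ kb - 1` and `b ∣ ka - 1` are impossible by
degrees (and `ka = 1` or `kb = 1` force everything to be constant). `(1,3)`: the same. -/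
theorem poly_ne (P Q : ℝ[X]) (hP : P ≠ 0) (hQ : Q ≠ 0) (hco : IsCoprime P Q)
    (hdeg : 0 < P.natDegree ∨ 0 < Q.natDegree) (k : ℝ) (hk : 0 < k) (x y z : ℕ)
    (hx : 0 < x) (hy : 0 < y) (hz : 0 < z) (hxz : x ≠ z) (hyz : y ≠ z) (hmax : z < x ∨ z < y)
    (hx2 : x < 2 * z) (hy2 : y < 2 * z) :
    (C k * (P ^ 2 - Q ^ 2)) ^ x + (C k * (2 * P * Q)) ^ y - (C k * (P ^ 2 + Q ^ 2)) ^ z ≠ 0 := by
  classical
  intro h0
  set d := max P.natDegree Q.natDegree with hd
  have hd0 : 0 < d := by rw [hd, lt_max_iff]; exact hdeg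
  set a := P ^ 2 - Q ^ 2 with ha
  set b := 2 * P * Q with hb
  set c := P ^ 2 + Q ^ 2 with hc
  have hid : a ^ 2 + b ^ 2 = c ^ 2 := by rw [ha, hb, hc]; ring
  have hu2 : IsUnit (2 : ℝ[X]) := by
    have : (2 : ℝ[X]) = C (2 : ℝ) := by
      rw [show (2 : ℝ) = 1 + 1 by norm_num, C_add, C_1]; norm_num
    rw [this]
    exact isUnit_C.2 (isUnit_iff_ne_zero.2 (by norm_num))
  have huk : IsUnit (C k : ℝ[X]) := isUnit_C.2 (isUnit_iff_ne_zero.2 hk.ne')
  have hCk : (C k : ℝ[X]) ≠ 0 := huk.ne_zero
  have hcdeg : c.natDegree = 2 * d := natDegree_sq_add P Q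
  have hc0 : c ≠ 0 := by
    intro h
    rw [h, natDegree_zero] at hcdeg
    omega
  have hb0 : b ≠ 0 := mul_ne_zero (mul_ne_zero hu2.ne_zero hP) hQ
  have hab : IsCoprime a b := by
    have e1 : IsCoprime a P := by
      have : IsCoprime (Q ^ 2) P := (hco.pow_right (n := 2)).symm
      rw [ha, sub_eq_add_neg, add_comm, sq P]
      have h2 := IsCoprime.add_mul_left_left (this.neg_left) P
      exact h2
    have e2 : IsCoprime a Q := by
      have : IsCoprime (P ^ 2) Q := hco.pow_left (m := 2)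
      have h2 := IsCoprime.add_mul_left_left this (-Q)
      rw [ha, sub_eq_add_neg, sq Q]
      have h3 : P ^ 2 + -(Q * Q) = P ^ 2 + Q * -Q := by ring
      rw [h3]
      exact h2
    rw [hb]
    have e3 : IsCoprime a (2 * P) := (isCoprime_mul_unit_left_right hu2 a P).2 e1
    exact IsCoprime.mul_right e3 e2
  have ha0 : a ≠ 0 := by
    intro h
    rw [h, isCoprime_zero_left] at hab
    have h1 : IsUnit (2 * P) := isUnit_of_mul_isUnit_left hab
    have h2 : IsUnit Q := isUnit_of_mul_isUnit_right hab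
    have h3 : IsUnit P := isUnit_of_mul_isUnit_right h1
    have h4 := natDegree_eq_zero_of_isUnit h3
    have h5 := natDegree_eq_zero_of_isUnit h2
    omega
  have hadeg : a.natDegree ≤ 2 * d := by
    refine (natDegree_sub_le _ _).trans ?_
    rw [natDegree_pow, natDegree_pow]
    omega
  have hbdeg : b.natDegree ≤ 2 * d := by
    rw [hb, natDegree_mul (mul_ne_zero hu2.ne_zero hP) hQ, natDegree_mul hu2.ne_zero hP,
      natDegree_eq_zero_of_isUnit hu2]
    omega
  have hmaxdeg : max a.natDegree b.natDegree = 2 * d := by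
    have e1 := natDegree_sq_add a b
    rw [hid, natDegree_pow, hcdeg] at e1
    omega
  -- Mason-Stothers
  have hA0 : (C k * a) ^ x ≠ 0 := pow_ne_zero _ (mul_ne_zero hCk ha0)
  have hB0 : (C k * b) ^ y ≠ 0 := pow_ne_zero _ (mul_ne_zero hCk hb0)
  have hG0 : -(C k * c) ^ z ≠ 0 := neg_ne_zero.2 (pow_ne_zero _ (mul_ne_zero hCk hc0))
  have hAB : IsCoprime ((C k * a) ^ x) ((C k * b) ^ y) := by
    apply IsCoprime.pow
    exact (isCoprime_mul_unit_left huk a b).2 hab
  have hsum : (C k * a) ^ x + (C k * b) ^ y + -(C k * c) ^ z = 0 := by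
    rw [← sub_eq_add_neg]; exact h0
  have hGdeg : (-(C k * c) ^ z).natDegree = z * (2 * d) := by
    rw [natDegree_neg, natDegree_pow, natDegree_C_mul hk.ne', hcdeg]
  have hz2 : z ≤ 2 := by
    rcases Polynomial.abc hA0 hB0 hG0 hAB hsum with h1 | h1
    · have h2 := h1.2.2
      rw [hGdeg] at h2
      have h3 : UniqueFactorizationMonoid.radical ((C k * a) ^ x * (C k * b) ^ y * -(C k * c) ^ z) ∣
          a * b * c := by
        rw [← UniqueFactorizationMonoid.exists_dvd_pow_iff_radical_dvd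
          (mul_ne_zero (mul_ne_zero hA0 hB0) hG0)]
        refine ⟨x + y + z, ?_⟩
        have f1 : (C k * a) ^ x ∣ a ^ (x + y + z) := by
          rw [mul_pow]
          exact ((huk.pow x).mul_left_dvd).2 (pow_dvd_pow _ (by omega))
        have f2 : (C k * b) ^ y ∣ b ^ (x + y + z) := by
          rw [mul_pow]
          exact ((huk.pow y).mul_left_dvd).2 (pow_dvd_pow _ (by omega))
        have f3 : -(C k * c) ^ z ∣ c ^ (x + y + z) := by
          rw [neg_dvd, mul_pow]
          exact ((huk.pow z).mul_left_dvd).2 (pow_dvd_pow _ (by omega))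
        have f4 : (a * b * c) ^ (x + y + z) =
            a ^ (x + y + z) * b ^ (x + y + z) * c ^ (x + y + z) := by
          rw [mul_pow, mul_pow]
        rw [f4]
        exact mul_dvd_mul (mul_dvd_mul f1 f2) f3
      have h4 := natDegree_le_of_dvd h3 (mul_ne_zero (mul_ne_zero ha0 hb0) hc0)
      rw [natDegree_mul (mul_ne_zero ha0 hb0) hc0, natDegree_mul ha0 hb0, hcdeg] at h4
      by_contra hcon
      push Not at hcon
      have h5 : 3 * (2 * d) ≤ z * (2 * d) := Nat.mul_le_mul_right _ hcon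
      omega
    · exfalso
      have h2 := Polynomial.derivative_eq_zero.1 h1.2.2
      rw [hGdeg] at h2
      have : 0 < z * (2 * d) := by positivity
      omega
  have hz' : z = 2 := by omega
  subst hz'
  have hx' : x = 1 ∨ x = 3 := by omega
  have hy' : y = 1 ∨ y = 3 := by omega
  rw [sub_eq_zero] at h0
  have h0' : (C k * a) ^ x + (C k * b) ^ y = C k ^ 2 * (a ^ 2 + b ^ 2) := by
    rw [h0, hid]; ring
  rcases hx' with rfl | rfl <;> rcases hy' with rfl | rfl
  · omega
  · have h1 : (C k * b) ^ 3 + C k * a = C k ^ 2 * (b ^ 2 + a ^ 2) := by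
      rw [add_comm (b ^ 2), ← h0']; ring
    have := case31 hk hab.symm h1
    omega
  · have h1 : (C k * a) ^ 3 + C k * b = C k ^ 2 * (a ^ 2 + b ^ 2) := by
      rw [← h0']; ring
    have := case31 hk hab h1
    omega
  · -- (3,3)
    have h1 : C k * (a + b) * (a ^ 2 - a * b + b ^ 2) = a ^ 2 + b ^ 2 := by
      have : (C k ^ 2 : ℝ[X]) ≠ 0 := pow_ne_zero _ hCk
      apply mul_left_cancel₀ this
      linear_combination h0'
    have h2 : (a ^ 2 - a * b + b ^ 2) ∣ a * b := by
      refine ⟨C k * (a + b) - 1, ?_⟩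
      linear_combination (-1 : ℝ[X]) * h1
    have h3 : IsCoprime (a ^ 2 - a * b + b ^ 2) (a * b) := by
      have g1 : IsCoprime (a ^ 2 - a * b + b ^ 2) a := by
        have e1 : IsCoprime (b ^ 2) a := (hab.pow_right (n := 2)).symm
        have e2 := IsCoprime.add_mul_left_left e1 (a - b)
        have e3 : b ^ 2 + a * (a - b) = a ^ 2 - a * b + b ^ 2 := by ring
        rwa [e3] at e2
      have g2 : IsCoprime (a ^ 2 - a * b + b ^ 2) b := by
        have e1 : IsCoprime (a ^ 2) b := hab.pow_left (m := 2)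
        have e2 := IsCoprime.add_mul_left_left e1 (b - a)
        have e3 : a ^ 2 + b * (b - a) = a ^ 2 - a * b + b ^ 2 := by ring
        rwa [e3] at e2
      exact IsCoprime.mul_right g1 g2
    have h4 : IsUnit (a ^ 2 - a * b + b ^ 2) := h3.isUnit_of_dvd' dvd_rfl h2
    have h5 := natDegree_eq_zero_of_isUnit h4
    have h6 : (c ^ 2 + (a - b) ^ 2).natDegree = 0 := by
      have e1 : c ^ 2 + (a - b) ^ 2 = C 2 * (a ^ 2 - a * b + b ^ 2) := by
        rw [← hid]
        have : (C (2 : ℝ) : ℝ[X]) = 2 := by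
          rw [show (2 : ℝ) = 1 + 1 by norm_num, C_add, C_1]; norm_num
        rw [this]
        ring
      rw [e1, natDegree_C_mul (by norm_num), h5]
    rw [natDegree_sq_add, hcdeg] at h6
    have := le_max_left (2 * d) (a - b).natDegree
    omega

end JB95
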