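import Pool.Agent.LibJB95.A3
import Pool.Agent.LibJB95.B7
namespace JB95
open Jes95 (Adm)
open Polynomial

private theorem line_natDegree (P Q : ℝ[X]) (k : ℝ) (x y z J : ℕ) (hP : P.natDegree ≤ 1)
    (hQ : Q.natDegree ≤ 1) (hx : x ≤ J) (hy : y ≤ J) (hz : z ≤ J) :
    ((C k * (P ^ 2 - Q ^ 2)) ^ x + (C k * (2 * P * Q)) ^ y -
      (C k * (P ^ 2 + Q ^ 2)) ^ z).natDegree ≤ 2 * J := by
  have hP2 : (P ^ 2).natDegree ≤ 2 := le_trans (natDegree_pow_le_of_le 2 hP) (by norm_num)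
  have hQ2 : (Q ^ 2).natDegree ≤ 2 := le_trans (natDegree_pow_le_of_le 2 hQ) (by norm_num)
  have hPQ : (2 * P * Q).natDegree ≤ 2 := by
    have h1 : (2 * P * Q) = C (2:ℝ) * (P * Q) := by
      rw [← mul_assoc]
      rfl
    rw [h1]
    refine le_trans (natDegree_C_mul_le _ _) ?_
    refine le_trans (natDegree_mul_le (p := P) (q := Q)) ?_
    omega
  have h1 : (C k * (P ^ 2 - Q ^ 2)).natDegree ≤ 2 :=
    le_trans (natDegree_C_mul_le k (P ^ 2 - Q ^ 2)) (natDegree_sub_le_of_le hP2 hQ2)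
  have h2 : (C k * (2 * P * Q)).natDegree ≤ 2 := le_trans (natDegree_C_mul_le k (2 * P * Q)) hPQ
  have h3 : (C k * (P ^ 2 + Q ^ 2)).natDegree ≤ 2 :=
    le_trans (natDegree_C_mul_le k (P ^ 2 + Q ^ 2)) (natDegree_add_le_of_degree_le hP2 hQ2)
  have h4 : ((C k * (P ^ 2 - Q ^ 2)) ^ x).natDegree ≤ 2 * J :=
    le_trans (natDegree_pow_le_of_le x h1) (by omega)
  have h5 : ((C k * (2 * P * Q)) ^ y).natDegree ≤ 2 * J :=
    le_trans (natDegree_pow_le_of_le y h2) (by omega)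
  have h6 : ((C k * (P ^ 2 + Q ^ 2)) ^ z).natDegree ≤ 2 * J :=
    le_trans (natDegree_pow_le_of_le z h3) (by omega)
  have h7 : ((C k * (P ^ 2 - Q ^ 2)) ^ x + (C k * (2 * P * Q)) ^ y).natDegree ≤ 2 * J :=
    le_trans (natDegree_add_le _ _) (max_le h4 h5)
  exact le_trans (natDegree_sub_le _ _) (max_le h7 h6)

private theorem line_det {m n m' n' : ℕ} (h : Adm m n) (h' : Adm m' n') (e : m * n' = m' * n) :
    m = m' ∧ n = n' := by
  obtain ⟨h1, h2, h3, _⟩ := h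
  obtain ⟨h1', h2', h3', _⟩ := h'
  have a1 : m ∣ m' := h3.dvd_of_dvd_mul_right (e ▸ Dvd.intro n' rfl)
  have a2 : m' ∣ m := h3'.dvd_of_dvd_mul_right (e.symm ▸ Dvd.intro n rfl)
  have a3 : m = m' := Nat.dvd_antisymm a1 a2
  refine ⟨a3, ?_⟩
  rw [← a3] at e
  exact (Nat.eq_of_mul_eq_mul_left (by omega) e).symm

/-- The solutions for the multiples of the triples of a line.  Through two distinct admissible
pairs `s`, `s'` consider `P = m + (m' - m) X`, `Q = n + (n' - n) X ∈ ℝ[X]`: they are coprime as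
`m n' ≠ m' n` (distinct coprime pairs). The polynomial of `poly_ne` is nonzero of degree at most
`2J`, and the pairs of the line which admit the solution `(x, y, z)` correspond to roots. -/
theorem line_count {J k x y z : ℕ} (hk : 0 < k) (hx : x ≤ J) (hy : y ≤ J) (hz : z ≤ J)
    (S : Finset (ℕ × ℕ))
    (hS : ∀ s ∈ S, Adm s.1 s.2 ∧ Sol (k * (s.1 ^ 2 - s.2 ^ 2)) (k * (2 * s.1 * s.2))
      (k * (s.1 ^ 2 + s.2 ^ 2)) x y z)
    (s s' : ℕ × ℕ) (hs : s ∈ S) (hs' : s' ∈ S) (hne : s ≠ s') :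
    (S.filter (fun w => ((s'.1 : ℤ) - s.1) * ((w.2 : ℤ) - s.2) -
      ((w.1 : ℤ) - s.1) * ((s'.2 : ℤ) - s.2) = 0)).card ≤ 2 * J := by
  obtain ⟨m, n⟩ := s
  obtain ⟨m', n'⟩ := s'
  simp only at *
  obtain ⟨hadm, hsol⟩ := hS _ hs
  obtain ⟨hadm', _⟩ := hS _ hs'
  simp only at hadm hsol hadm'
  have htri := tri hsol
  set P : ℝ[X] := C ((m' : ℝ) - m) * X + C (m : ℝ) with hP
  set Q : ℝ[X] := C ((n' : ℝ) - n) * X + C (n : ℝ) with hQ
  have hev : ∀ τ : ℝ, P.eval τ = m + τ * (m' - m) ∧ Q.eval τ = n + τ * (n' - n) := by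
    intro τ
    constructor
    · rw [hP]
      simp only [eval_add, eval_mul, eval_C, eval_X]
      ring
    · rw [hQ]
      simp only [eval_add, eval_mul, eval_C, eval_X]
      ring
  have hP0 : P ≠ 0 := by
    intro h
    have h1 := (hev 0).1
    rw [h, eval_zero, zero_mul, add_zero] at h1
    have h2 : m = 0 := by exact_mod_cast h1.symm
    have := hadm.1
    have := hadm.2.1
    omega
  have hQ0 : Q ≠ 0 := by
    intro h
    have h1 := (hev 0).2
    rw [h, eval_zero, zero_mul, add_zero] at h1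
    have h2 : n = 0 := by exact_mod_cast h1.symm
    have := hadm.1
    omega
  have hmn : m ≠ m' ∨ n ≠ n' := by
    by_contra hcon
    push Not at hcon
    exact hne (Prod.ext hcon.1 hcon.2)
  have hdet : (m : ℝ) * n' - m' * n ≠ 0 := by
    intro h
    have h1 : m * n' = m' * n := by
      have h2 : (m : ℝ) * n' = m' * n := sub_eq_zero.mp h
      exact_mod_cast h2
    obtain ⟨h2, h3⟩ := line_det hadm hadm' h1
    rcases hmn with h4 | h4
    · exact h4 h2
    · exact h4 h3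
  have hco : IsCoprime P Q := by
    refine ⟨C (((m : ℝ) * n' - m' * n)⁻¹ * ((n' : ℝ) - n)),
      C (((m : ℝ) * n' - m' * n)⁻¹ * ((m : ℝ) - m')), ?_⟩
    rw [hP, hQ]
    have h1 : C (((m : ℝ) * n' - m' * n)⁻¹ * ((n' : ℝ) - n)) * (C ((m' : ℝ) - m) * X + C (m : ℝ)) +
        C (((m : ℝ) * n' - m' * n)⁻¹ * ((m : ℝ) - m')) * (C ((n' : ℝ) - n) * X + C (n : ℝ)) =
        C (((m : ℝ) * n' - m' * n)⁻¹ * ((m : ℝ) * n' - m' * n)) := by
      simp only [C_mul, C_sub]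
      ring
    rw [h1, inv_mul_cancel₀ hdet, C_1]
  have hdeg : 0 < P.natDegree ∨ 0 < Q.natDegree := by
    rcases hmn with h | h
    · left
      rw [hP, natDegree_linear (sub_ne_zero.mpr (by exact_mod_cast h.symm))]
      exact one_pos
    · right
      rw [hQ, natDegree_linear (sub_ne_zero.mpr (by exact_mod_cast h.symm))]
      exact one_pos
  have hPd : P.natDegree ≤ 1 := natDegree_linear_le
  have hQd : Q.natDegree ≤ 1 := natDegree_linear_le
  have hR0 := poly_ne P Q hP0 hQ0 hco hdeg k (by exact_mod_cast hk) x y z hsol.2.2.2.1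
    hsol.2.2.2.2.1 hsol.2.2.2.2.2.1 (by omega) (by omega) (by omega) htri.2.1 htri.2.2
  have hRd := line_natDegree P Q (k : ℝ) x y z J hPd hQd hx hy hz
  set R : ℝ[X] := (C (k : ℝ) * (P ^ 2 - Q ^ 2)) ^ x + (C (k : ℝ) * (2 * P * Q)) ^ y -
    (C (k : ℝ) * (P ^ 2 + Q ^ 2)) ^ z with hR
  -- the parameter of a point of the line
  have hpar : ∀ w : ℕ × ℕ, ((m' : ℤ) - m) * ((w.2 : ℤ) - n) - ((w.1 : ℤ) - m) * ((n' : ℤ) - n) = 0 →
      ∃ τ : ℝ, P.eval τ = w.1 ∧ Q.eval τ = w.2 := by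
    rintro ⟨w1, w2⟩ hw
    simp only at hw
    have hw' : ((m' : ℝ) - m) * ((w2 : ℝ) - n) - ((w1 : ℝ) - m) * ((n' : ℝ) - n) = 0 := by
      exact_mod_cast hw
    by_cases h : m = m'
    · have h2 : n ≠ n' := by
        rcases hmn with h3 | h3
        · exact absurd h h3
        · exact h3
      have h3 : (n' : ℝ) - n ≠ 0 := sub_ne_zero.mpr (by exact_mod_cast h2.symm)
      refine ⟨((w2 : ℝ) - n) / (n' - n), ?_, ?_⟩
      · rw [(hev _).1]
        rw [h, sub_self, zero_mul, zero_sub, neg_eq_zero] at hw'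
        rcases mul_eq_zero.mp hw' with h4 | h4
        · rw [h, sub_self, mul_zero, add_zero]
          linarith
        · exact absurd h4 h3
      · rw [(hev _).2, div_mul_cancel₀ _ h3]
        ring
    · have h3 : (m' : ℝ) - m ≠ 0 := sub_ne_zero.mpr (by exact_mod_cast Ne.symm h)
      refine ⟨((w1 : ℝ) - m) / (m' - m), ?_, ?_⟩
      · rw [(hev _).1, div_mul_cancel₀ _ h3]
        ring
      · rw [(hev _).2]
        field_simp
        linarith
  choose! τ hτ using hpar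
  refine le_trans ?_ (le_trans (Multiset.toFinset_card_le R.roots) (le_trans (card_roots' R) hRd))
  refine Finset.card_le_card_of_injOn τ ?_ ?_
  · intro w hw
    rw [Finset.mem_coe, Finset.mem_filter] at hw
    obtain ⟨hwS, hwl⟩ := hw
    obtain ⟨h1, h2⟩ := hτ w hwl
    obtain ⟨hwa, hws⟩ := hS w hwS
    rw [Finset.mem_coe, Multiset.mem_toFinset, mem_roots hR0, IsRoot.def, hR]
    simp only [eval_sub, eval_add, eval_mul, eval_pow, eval_C, eval_ofNat]
    rw [h1, h2]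
    have h3 := hws.2.2.2.2.2.2.1
    have h4 : w.2 ^ 2 ≤ w.1 ^ 2 := Nat.pow_le_pow_left (le_of_lt hwa.2.1) 2
    have h5 : ((k : ℝ) * ((w.1 : ℝ) ^ 2 - (w.2 : ℝ) ^ 2)) ^ x + ((k : ℝ) * (2 * w.1 * w.2)) ^ y =
        ((k : ℝ) * ((w.1 : ℝ) ^ 2 + (w.2 : ℝ) ^ 2)) ^ z := by
      have h6 := congrArg (Nat.cast : ℕ → ℝ) h3
      push_cast [Nat.cast_sub h4] at h6
      exact h6
    rw [h5, sub_self]
  · intro w hw w' hw' e
    rw [Finset.mem_coe, Finset.mem_filter] at hw hw'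
    obtain ⟨h1, h2⟩ := hτ w hw.2
    obtain ⟨h1', h2'⟩ := hτ w' hw'.2
    rw [e] at h1 h2
    apply Prod.ext
    · have h3 : (w.1 : ℝ) = w'.1 := h1.symm.trans h1'
      exact_mod_cast h3
    · have h3 : (w.2 : ℝ) = w'.2 := h2.symm.trans h2'
      exact_mod_cast h3

end JB95
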