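import Pool.Agent.LibJB95.B6
import Pool.Agent.LibJB95.B8
namespace JB95
open Jes95 (Adm)

private theorem b9a_term {k a c x z m : ℕ} (hk : 0 < k) (ha : 0 < a) (hac : a ≤ c)
    (hm : 0 < m) (hc : m ^ 2 ≤ c) (hxz : x < z) :
    ((k * a : ℕ) : ℝ) ^ x / ((k * c : ℕ) : ℝ) ^ z ≤ 2 / (m : ℝ) ^ 2 := by
  have hc0 : 0 < c := lt_of_lt_of_le ha hac
  have h1 : (k * a) ^ x ≤ (k * c) ^ (z - 1) :=
    (Nat.pow_le_pow_left (Nat.mul_le_mul_left k hac) x).trans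
      (Nat.pow_le_pow_right (Nat.mul_pos hk hc0) (by omega))
  have h2 : (k * c) ^ z = (k * c) ^ (z - 1) * (k * c) := by
    rw [← pow_succ]; congr 1; omega
  have hkc : (0 : ℝ) < ((k * c : ℕ) : ℝ) := by exact_mod_cast Nat.mul_pos hk hc0
  have hm2 : (0 : ℝ) < (m : ℝ) ^ 2 := by positivity
  rw [div_le_div_iff₀ (by positivity) hm2]
  have h3 : (k * a) ^ x * m ^ 2 ≤ (k * c) ^ z := by
    rw [h2]
    refine Nat.mul_le_mul h1 ?_
    calc m ^ 2 ≤ c := hc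
      _ = 1 * c := (one_mul c).symm
      _ ≤ k * c := Nat.mul_le_mul_right c hk
  have h4 : (((k * a : ℕ) : ℝ)) ^ x * (m : ℝ) ^ 2 ≤ ((k * c : ℕ) : ℝ) ^ z := by exact_mod_cast h3
  have h5 : (0 : ℝ) ≤ ((k * c : ℕ) : ℝ) ^ z := by positivity
  linarith

/-- The pairs with `2n ≤ m`: `curve_count` with `(p, q) = (m, n)`, `P = M`, `X = x`, `Y = y`,
`Z = z`, `C₁ = k^x/k^z`, `C₂ = (2k)^y/k^z`, so `e₁ = (ka)^x/(kc)^z`, `e₂ = (kb)^y/(kc)^z`; `Good`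
follows from `tri`: a term whose exponent is less than `z` is `≤ 1/(kc) ≤ 1/m²`. -/
theorem pair_count_low {J k x y z M : ℕ} (hJ : 1 ≤ J) (hk : 0 < k) (hM : 1 ≤ M) (hx : x ≤ J)
    (hy : y ≤ J) (hz : z ≤ J) (S : Finset (ℕ × ℕ))
    (hS : ∀ s ∈ S, Adm s.1 s.2 ∧ s.1 ≤ M ∧ 2 * s.2 ≤ s.1 ∧
      Sol (k * (s.1 ^ 2 - s.2 ^ 2)) (k * (2 * s.1 * s.2)) (k * (s.1 ^ 2 + s.2 ^ 2)) x y z) :
    (S.card : ℝ) ≤ 300 * J ^ 3 * (M : ℝ) ^ (2 / 3 : ℝ) * (1 + Real.log M) := by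
  classical
  set f : ℕ × ℕ → ℤ × ℤ := fun s => ((s.1 : ℤ), (s.2 : ℤ)) with hf
  have hinj : Function.Injective f := by
    intro a b hab
    simp only [hf, Prod.mk.injEq, Nat.cast_inj] at hab
    exact Prod.ext hab.1 hab.2
  have hkR : (0 : ℝ) < k := by exact_mod_cast hk
  set C₁ : ℝ := (k : ℝ) ^ x / (k : ℝ) ^ z with hC₁
  set C₂ : ℝ := (2 * (k : ℝ)) ^ y / (k : ℝ) ^ z with hC₂
  have key := curve_count (X := x) (Y := y) (Z := z) (D := 2 * J) (P := M) hJ hx hy hz (by omega) hM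
    (C₁ := C₁) (C₂ := C₂) (by positivity) (by positivity) (S.image f) ?_ ?_
  · rw [Finset.card_image_of_injective _ hinj] at key
    have hM1 : (1 : ℝ) ≤ M := by exact_mod_cast hM
    have ht : (1 : ℝ) ≤ (M : ℝ) ^ (2 / 3 : ℝ) := Real.one_le_rpow hM1 (by norm_num)
    have hl : 0 ≤ Real.log M := Real.log_nonneg hM1
    have hJ1 : (1 : ℝ) ≤ J := by exact_mod_cast hJ
    have hJ2 : (J : ℝ) ^ 2 ≤ (J : ℝ) ^ 3 := pow_le_pow_right₀ hJ1 (by norm_num)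
    have hJ3 : (J : ℝ) ≤ (J : ℝ) ^ 3 := le_self_pow₀ hJ1 (by norm_num)
    have hJ30 : (0 : ℝ) < (J : ℝ) ^ 3 := by positivity
    refine key.trans ?_
    push_cast
    set t : ℝ := (M : ℝ) ^ (2 / 3 : ℝ)
    set l : ℝ := Real.log M
    have a1 : 144 * (J : ℝ) ^ 2 * t ≤ 144 * ((J : ℝ) ^ 3 * t) := by nlinarith
    have a2 : 2 * (J : ℝ) * (64 * (J : ℝ) ^ 2 * t * l + 1) = 128 * ((J : ℝ) ^ 3 * t) * l + 2 * J := by
      ring
    have a3 : (J : ℝ) ≤ (J : ℝ) ^ 3 * t := hJ3.trans (le_mul_of_one_le_right hJ30.le ht)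
    have a4 : 0 ≤ (J : ℝ) ^ 3 * t := by positivity
    rw [a2]
    nlinarith [mul_nonneg a4 hl]
  · intro s hs
    obtain ⟨w, hw, rfl⟩ := Finset.mem_image.1 hs
    obtain ⟨hadm, hwM, h2n, hsol⟩ := hS w hw
    obtain ⟨m, n⟩ := w
    obtain ⟨hn0, hnm, hcop, hpar⟩ := hadm
    simp only at hn0 hnm hcop hpar hwM h2n hsol
    have hm0 : 0 < m := by omega
    refine ⟨by simp only [hf]; exact_mod_cast hn0, by simp only [hf]; exact_mod_cast h2n,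
      by simp only [hf]; exact_mod_cast hwM, ?_⟩
    have hsq : n ^ 2 ≤ m ^ 2 := Nat.pow_le_pow_left hnm.le 2
    have hsq' : n ^ 2 < m ^ 2 := Nat.pow_lt_pow_left hnm (by norm_num)
    have hm2 : (0:ℝ) < (m:ℝ) ^ 2 + (n:ℝ) ^ 2 := by positivity
    -- the two terms
    have E1 : e₁ C₁ x z (m : ℝ) (n : ℝ) = ((k * (m ^ 2 - n ^ 2) : ℕ) : ℝ) ^ x /
        ((k * (m ^ 2 + n ^ 2) : ℕ) : ℝ) ^ z := by
      unfold e₁
      push_cast [Nat.cast_sub hsq]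
      rw [hC₁, mul_pow, mul_pow]
      field_simp
    have E2 : e₂ C₂ y z (m : ℝ) (n : ℝ) = ((k * (2 * m * n) : ℕ) : ℝ) ^ y /
        ((k * (m ^ 2 + n ^ 2) : ℕ) : ℝ) ^ z := by
      unfold e₂
      push_cast
      rw [hC₂]
      have : (k : ℝ) * (2 * m * n) = (2 * k) * (m * n) := by ring
      rw [this, mul_pow (2 * (k : ℝ)) ((m : ℝ) * n) y, mul_pow (k : ℝ) ((m : ℝ) ^ 2 + (n : ℝ) ^ 2) z,
        div_mul_eq_mul_div, div_div]
    obtain ⟨q1, q2, q3, q4, q5, q6, q7, q8⟩ := id hsol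
    have hkc : (0 : ℝ) < ((k * (m ^ 2 + n ^ 2) : ℕ) : ℝ) := by
      have : 0 < k * (m ^ 2 + n ^ 2) := by positivity
      exact_mod_cast this
    have hsum : e₁ C₁ x z (m : ℝ) (n : ℝ) + e₂ C₂ y z (m : ℝ) (n : ℝ) = 1 := by
      rw [E1, E2, ← add_div, div_eq_one_iff_eq (by positivity)]
      exact_mod_cast q7
    have htri := (tri hsol).1
    have hab : m ^ 2 - n ^ 2 ≤ m ^ 2 + n ^ 2 := by omega
    have hbc : 2 * m * n ≤ m ^ 2 + n ^ 2 := two_mul_le_add_sq m n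
    have hmc : m ^ 2 ≤ m ^ 2 + n ^ 2 := by omega
    refine ⟨?_, ?_⟩
    · simpa [hf] using hsum
    · rcases htri with ⟨t1, t2⟩ | ⟨t1, t2⟩ | ⟨t1, t2⟩
      · right; left
        refine ⟨t1, t2, ?_⟩
        have h3 := b9a_term (a := m ^ 2 - n ^ 2) (c := m ^ 2 + n ^ 2) hk (by omega) hab hm0 hmc t1
        rw [← E1] at h3
        simpa [hf] using h3
      · right; right
        refine ⟨t1, t2, ?_⟩
        have h3 := b9a_term (a := 2 * m * n) (c := m ^ 2 + n ^ 2) hk (by positivity) hbc hm0 hmc t1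
        rw [← E2] at h3
        simpa [hf] using h3
      · left; exact ⟨t1, t2⟩
  · intro s hs s' hs' hne
    obtain ⟨w, hw, rfl⟩ := Finset.mem_image.1 hs
    obtain ⟨w', hw', rfl⟩ := Finset.mem_image.1 hs'
    have hne' : w ≠ w' := fun h => hne (by rw [h])
    have h1 := line_count hk hx hy hz S (fun s hs => ⟨(hS s hs).1, (hS s hs).2.2.2⟩) w w' hw hw' hne'
    rw [Finset.filter_image, Finset.card_image_of_injective _ hinj]
    exact h1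

end JB95
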