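import Pool.Agent.LibJB95.B6
import Pool.Agent.LibJB95.B8
namespace JB95
open Jes95 (Adm)

private theorem b9b_term {k a c x z : ℕ} {p : ℝ} (hk : 0 < k) (ha : 0 < a) (hac : a ≤ c)
    (hp : 0 < p) (hc : p ^ 2 ≤ 2 * (c : ℝ)) (hxz : x < z) :
    ((k * a : ℕ) : ℝ) ^ x / ((k * c : ℕ) : ℝ) ^ z ≤ 2 / p ^ 2 := by
  have hc0 : 0 < c := lt_of_lt_of_le ha hac
  have h1 : (k * a) ^ x ≤ (k * c) ^ (z - 1) :=
    (Nat.pow_le_pow_left (Nat.mul_le_mul_left k hac) x).trans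
      (Nat.pow_le_pow_right (Nat.mul_pos hk hc0) (by omega))
  have h2 : (k * c) ^ z = (k * c) ^ (z - 1) * (k * c) := by
    rw [← pow_succ]; congr 1; omega
  have hkc : (0 : ℝ) < ((k * c : ℕ) : ℝ) := by exact_mod_cast Nat.mul_pos hk hc0
  have hp2 : (0 : ℝ) < p ^ 2 := by positivity
  rw [div_le_div_iff₀ (by positivity) hp2]
  have h1' : (((k * a : ℕ) : ℝ)) ^ x ≤ ((k * c : ℕ) : ℝ) ^ (z - 1) := by exact_mod_cast h1
  have h2' : ((k * c : ℕ) : ℝ) ^ z = ((k * c : ℕ) : ℝ) ^ (z - 1) * ((k * c : ℕ) : ℝ) := by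
    exact_mod_cast h2
  have h3 : (c : ℝ) ≤ ((k * c : ℕ) : ℝ) := by
    have : c ≤ k * c := by nlinarith
    exact_mod_cast this
  rw [h2']
  have h4 : (0:ℝ) ≤ ((k * c : ℕ) : ℝ) ^ (z - 1) := by positivity
  calc ((k * a : ℕ) : ℝ) ^ x * p ^ 2 ≤ ((k * c : ℕ) : ℝ) ^ (z - 1) * (2 * ((k * c : ℕ) : ℝ)) := by
        refine mul_le_mul h1' (by linarith) hp2.le h4
    _ = 2 * (((k * c : ℕ) : ℝ) ^ (z - 1) * ((k * c : ℕ) : ℝ)) := by ring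

/-- The pairs with `m < 2n`: `curve_count` with `(p, q) = (m + n, m - n)` (`2q ≤ p`), `P = 2M`,
`X = y`, `Y = x`, `Z = z`, `C₁ = k^y 2^z / (2^y k^z)`, `C₂ = k^x 2^z / k^z`, so
`e₁ = (kb)^y/(kc)^z`, `e₂ = (ka)^x/(kc)^z` (`b = (p²-q²)/2`, `a = pq`, `c = (p²+q²)/2`);
collinearity is preserved. -/
theorem pair_count_high {J k x y z M : ℕ} (hJ : 1 ≤ J) (hk : 0 < k) (hM : 1 ≤ M) (hx : x ≤ J)
    (hy : y ≤ J) (hz : z ≤ J) (S : Finset (ℕ × ℕ))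
    (hS : ∀ s ∈ S, Adm s.1 s.2 ∧ s.1 ≤ M ∧ s.1 < 2 * s.2 ∧
      Sol (k * (s.1 ^ 2 - s.2 ^ 2)) (k * (2 * s.1 * s.2)) (k * (s.1 ^ 2 + s.2 ^ 2)) x y z) :
    (S.card : ℝ) ≤ 1000 * J ^ 3 * (M : ℝ) ^ (2 / 3 : ℝ) * (1 + Real.log M) := by
  classical
  set f : ℕ × ℕ → ℤ × ℤ := fun s => ((s.1 : ℤ) + s.2, (s.1 : ℤ) - s.2) with hf
  have hinj : Function.Injective f := by
    intro a b hab
    simp only [hf, Prod.mk.injEq] at hab
    obtain ⟨h1, h2⟩ := hab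
    exact Prod.ext (by omega) (by omega)
  have hkR : (0 : ℝ) < k := by exact_mod_cast hk
  set C₁ : ℝ := ((k : ℝ) / 2) ^ y / ((k : ℝ) / 2) ^ z with hC₁
  set C₂ : ℝ := (k : ℝ) ^ x / ((k : ℝ) / 2) ^ z with hC₂
  have key := curve_count (X := y) (Y := x) (Z := z) (D := 2 * J) (P := 2 * M) hJ hy hx hz (by omega)
    (by omega) (C₁ := C₁) (C₂ := C₂) (by positivity) (by positivity) (S.image f) ?_ ?_
  · rw [Finset.card_image_of_injective _ hinj] at key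
    have hM1 : (1 : ℝ) ≤ M := by exact_mod_cast hM
    have ht : (1 : ℝ) ≤ (M : ℝ) ^ (2 / 3 : ℝ) := Real.one_le_rpow hM1 (by norm_num)
    have hl : 0 ≤ Real.log M := Real.log_nonneg hM1
    have hJ1 : (1 : ℝ) ≤ J := by exact_mod_cast hJ
    have hJ2 : (J : ℝ) ^ 2 ≤ (J : ℝ) ^ 3 := pow_le_pow_right₀ hJ1 (by norm_num)
    have hJ3 : (J : ℝ) ≤ (J : ℝ) ^ 3 := le_self_pow₀ hJ1 (by norm_num)
    have hJ30 : (0 : ℝ) < (J : ℝ) ^ 3 := by positivity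
    refine key.trans ?_
    push_cast
    have h2t : (2 * (M : ℝ)) ^ (2 / 3 : ℝ) ≤ 2 * (M : ℝ) ^ (2 / 3 : ℝ) := by
      rw [Real.mul_rpow (by norm_num) (by positivity)]
      refine mul_le_mul_of_nonneg_right ?_ (by positivity)
      calc (2 : ℝ) ^ (2 / 3 : ℝ) ≤ (2 : ℝ) ^ (1 : ℝ) :=
            Real.rpow_le_rpow_of_exponent_le (by norm_num) (by norm_num)
        _ = 2 := Real.rpow_one 2
    have h2l : Real.log (2 * (M : ℝ)) ≤ 1 + Real.log M := by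
      rw [Real.log_mul (by norm_num) (by positivity)]
      have := Real.log_two_lt_d9
      linarith
    have h2l0 : 0 ≤ Real.log (2 * (M : ℝ)) := Real.log_nonneg (by linarith)
    have h2t0 : 0 ≤ (2 * (M : ℝ)) ^ (2 / 3 : ℝ) := by positivity
    set t2 : ℝ := (2 * (M : ℝ)) ^ (2 / 3 : ℝ)
    set l2 : ℝ := Real.log (2 * (M : ℝ))
    set t : ℝ := (M : ℝ) ^ (2 / 3 : ℝ)
    set l : ℝ := Real.log M
    have a4 : 0 ≤ (J : ℝ) ^ 3 * t := by positivity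
    have a1 : 144 * (J : ℝ) ^ 2 * t2 ≤ 288 * ((J : ℝ) ^ 3 * t) := by
      calc 144 * (J : ℝ) ^ 2 * t2 ≤ 144 * (J : ℝ) ^ 3 * (2 * t) := by
            refine mul_le_mul (by linarith) h2t h2t0 (by positivity)
        _ = 288 * ((J : ℝ) ^ 3 * t) := by ring
    have a5 : t2 * l2 ≤ 2 * t * (1 + l) := mul_le_mul h2t h2l h2l0 (by positivity)
    have a2 : 2 * (J : ℝ) * (64 * (J : ℝ) ^ 2 * t2 * l2 + 1) = 128 * (J : ℝ) ^ 3 * (t2 * l2) + 2 * J := by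
      ring
    have a3 : (J : ℝ) ≤ (J : ℝ) ^ 3 * t := hJ3.trans (le_mul_of_one_le_right hJ30.le ht)
    have a6 : 128 * (J : ℝ) ^ 3 * (t2 * l2) ≤ 128 * (J : ℝ) ^ 3 * (2 * t * (1 + l)) :=
      mul_le_mul_of_nonneg_left a5 (by positivity)
    have a7 : 128 * (J : ℝ) ^ 3 * (2 * t * (1 + l)) = 256 * (((J : ℝ) ^ 3 * t) * (1 + l)) := by ring
    have a8 : 1000 * (J : ℝ) ^ 3 * t * (1 + l) = 1000 * (((J : ℝ) ^ 3 * t) * (1 + l)) := by ring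
    have a9 : (J : ℝ) ^ 3 * t ≤ ((J : ℝ) ^ 3 * t) * (1 + l) :=
      le_mul_of_one_le_right a4 (by linarith)
    rw [a2, a8]
    linarith
  · intro s hs
    obtain ⟨w, hw, rfl⟩ := Finset.mem_image.1 hs
    obtain ⟨hadm, hwM, h2n, hsol⟩ := hS w hw
    obtain ⟨m, n⟩ := w
    obtain ⟨hn0, hnm, hcop, hpar⟩ := hadm
    simp only at hn0 hnm hcop hpar hwM h2n hsol
    have hm0 : 0 < m := by omega
    refine ⟨by simp only [hf]; omega, by simp only [hf]; omega,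
      by simp only [hf]; push_cast; omega, ?_⟩
    have hsq : n ^ 2 ≤ m ^ 2 := Nat.pow_le_pow_left hnm.le 2
    have hsq' : n ^ 2 < m ^ 2 := Nat.pow_lt_pow_left hnm (by norm_num)
    have hnmR : (n : ℝ) < m := by exact_mod_cast hnm
    have hn0R : (0 : ℝ) < n := by exact_mod_cast hn0
    have hm0R : (0 : ℝ) < m := by exact_mod_cast hm0
    have hc2 : ((m:ℝ) + n) ^ 2 + ((m:ℝ) - n) ^ 2 = 2 * ((m:ℝ) ^ 2 + (n:ℝ) ^ 2) := by ring
    have hb2 : ((m:ℝ) + n) ^ 2 - ((m:ℝ) - n) ^ 2 = 2 * (2 * m * n) := by ring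
    have hc0 : (0:ℝ) < (m:ℝ) ^ 2 + (n:ℝ) ^ 2 := by positivity
    -- the two terms
    have E1 : e₁ C₁ y z ((m : ℝ) + n) ((m : ℝ) - n) = ((k * (2 * m * n) : ℕ) : ℝ) ^ y /
        ((k * (m ^ 2 + n ^ 2) : ℕ) : ℝ) ^ z := by
      unfold e₁
      rw [hc2, hb2]
      push_cast
      rw [hC₁]
      have g1 : (k : ℝ) * (2 * m * n) = ((k : ℝ) / 2) * (2 * (2 * m * n)) := by ring
      have g2 : (k : ℝ) * ((m:ℝ) ^ 2 + (n:ℝ) ^ 2) = ((k : ℝ) / 2) * (2 * ((m:ℝ) ^ 2 + (n:ℝ) ^ 2)) := by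
        ring
      rw [g1, g2, mul_pow ((k : ℝ) / 2), mul_pow ((k : ℝ) / 2), div_mul_eq_mul_div, div_div]
    have E2 : e₂ C₂ x z ((m : ℝ) + n) ((m : ℝ) - n) = ((k * (m ^ 2 - n ^ 2) : ℕ) : ℝ) ^ x /
        ((k * (m ^ 2 + n ^ 2) : ℕ) : ℝ) ^ z := by
      unfold e₂
      rw [hc2]
      push_cast [Nat.cast_sub hsq]
      rw [hC₂]
      have g1 : (k : ℝ) * ((m:ℝ) ^ 2 - (n:ℝ) ^ 2) = k * (((m : ℝ) + n) * ((m : ℝ) - n)) := by ring
      have g2 : (k : ℝ) * ((m:ℝ) ^ 2 + (n:ℝ) ^ 2) = ((k : ℝ) / 2) * (2 * ((m:ℝ) ^ 2 + (n:ℝ) ^ 2)) := by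
        ring
      rw [g1, g2, mul_pow (k : ℝ), mul_pow ((k : ℝ) / 2), div_mul_eq_mul_div, div_div]
    obtain ⟨q1, q2, q3, q4, q5, q6, q7, q8⟩ := id hsol
    have hkc : (0 : ℝ) < ((k * (m ^ 2 + n ^ 2) : ℕ) : ℝ) := by
      have : 0 < k * (m ^ 2 + n ^ 2) := by positivity
      exact_mod_cast this
    have hsum : e₁ C₁ y z ((m : ℝ) + n) ((m : ℝ) - n) + e₂ C₂ x z ((m : ℝ) + n) ((m : ℝ) - n) = 1 := by
      rw [E1, E2, ← add_div, div_eq_one_iff_eq (by positivity), add_comm]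
      exact_mod_cast q7
    have htri := (tri hsol).1
    have hab : m ^ 2 - n ^ 2 ≤ m ^ 2 + n ^ 2 := by omega
    have hbc : 2 * m * n ≤ m ^ 2 + n ^ 2 := two_mul_le_add_sq m n
    have hp0 : (0:ℝ) < (m : ℝ) + n := by positivity
    have hpc : ((m : ℝ) + n) ^ 2 ≤ 2 * ((m ^ 2 + n ^ 2 : ℕ) : ℝ) := by
      push_cast; nlinarith [sq_nonneg ((m : ℝ) - n)]
    have hcast1 : (((f (m, n)).1 : ℤ) : ℝ) = (m : ℝ) + n := by simp [hf]
    have hcast2 : (((f (m, n)).2 : ℤ) : ℝ) = (m : ℝ) - n := by simp [hf]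
    rw [hcast1, hcast2]
    refine ⟨hsum, ?_⟩
    rcases htri with ⟨t1, t2⟩ | ⟨t1, t2⟩ | ⟨t1, t2⟩
    · right; right
      refine ⟨t1, t2, ?_⟩
      rw [E2]
      exact b9b_term (a := m ^ 2 - n ^ 2) (c := m ^ 2 + n ^ 2) hk (by omega) hab hp0 hpc t1
    · right; left
      refine ⟨t1, t2, ?_⟩
      rw [E1]
      exact b9b_term (a := 2 * m * n) (c := m ^ 2 + n ^ 2) hk (by positivity) hbc hp0 hpc t1
    · left; exact ⟨t2, t1⟩
  · intro s hs s' hs' hne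
    obtain ⟨w, hw, rfl⟩ := Finset.mem_image.1 hs
    obtain ⟨w', hw', rfl⟩ := Finset.mem_image.1 hs'
    have hne' : w ≠ w' := fun h => hne (by rw [h])
    have h1 := line_count hk hx hy hz S (fun s hs => ⟨(hS s hs).1, (hS s hs).2.2.2⟩) w w' hw hw' hne'
    rw [Finset.filter_image, Finset.card_image_of_injective _ hinj]
    refine le_trans (le_of_eq ?_) h1
    congr 1
    apply Finset.filter_congr
    intro v _
    simp only [hf]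
    constructor
    · intro h; nlinarith
    · intro h; nlinarith

end JB95
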