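import Pool.Agent.LibJB95.A6
import Pool.Agent.LibJB95.B9a
import Pool.Agent.LibJB95.B9b
namespace JB95
open Jes95 (Adm Jes)

private theorem sol_of_not_jes {a b c : ℕ} (ha : 0 < a) (hb : 0 < b) (h : a ^ 2 + b ^ 2 = c ^ 2)
    (hn : ¬ Jes a b c) : ∃ x y z, Sol a b c x y z := by
  unfold Jes at hn
  push Not at hn
  obtain ⟨x, y, z, hx, hy, hz, e, hne⟩ := hn
  exact ⟨x, y, z, ha, hb, h, hx, hy, hz, e, fun ⟨h1, h2, h3⟩ => hne h1 h2 h3⟩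

private theorem adm_pt {m n : ℕ} (h : Adm m n) :
    0 < m ^ 2 - n ^ 2 ∧ 0 < 2 * m * n ∧ (m ^ 2 - n ^ 2) ^ 2 + (2 * m * n) ^ 2 = (m ^ 2 + n ^ 2) ^ 2 := by
  obtain ⟨hn, hnm, _, _⟩ := h
  have hm : 0 < m := by omega
  have hsq : n ^ 2 < m ^ 2 := Nat.pow_lt_pow_left hnm (by norm_num)
  refine ⟨by omega, by positivity, ?_⟩
  obtain ⟨k, hk⟩ := Nat.exists_eq_add_of_lt hsq
  have h1 : m ^ 2 - n ^ 2 = k + 1 := by omega
  rw [h1, hk]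
  have h2 : (2 * m * n) ^ 2 = 4 * m ^ 2 * n ^ 2 := by ring
  rw [h2, hk]
  ring

/-- Sum over all exponents `x, y, z ≤ J = ⌈K (log (2 k M²))^(9/4)⌉` (`exp_bound`) of
`pair_count_low` and `pair_count_high`, and `(log (2kM²))^14 (1 + log M) ≤ K_ε k^ε M^ε`. -/
theorem total_count (ε : ℝ) (hε : 0 < ε) : ∃ K : ℝ, 0 < K ∧ ∀ k M : ℕ, 0 < k → 1 ≤ M →
    (({p : ℕ × ℕ | Adm p.1 p.2 ∧ p.1 ≤ M ∧ ¬ Jes (k * (p.1 ^ 2 - p.2 ^ 2))
      (k * (2 * p.1 * p.2)) (k * (p.1 ^ 2 + p.2 ^ 2))}).ncard : ℝ) ≤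
      K * (k : ℝ) ^ ε * (M : ℝ) ^ (2 / 3 + ε) := by
  classical
  obtain ⟨K₀, hK₀, hexp⟩ := exp_bound
  set δ : ℝ := ε / 14 with hδ
  have hδ0 : 0 < δ := by positivity
  set s : ℝ := 4 * δ / 9 with hs
  have hs0 : 0 < s := by positivity
  set K₁ : ℝ := K₀ / s ^ (9 / 4 : ℝ) + 3 with hK₁
  have hK₁0 : 0 < K₁ := by positivity
  set K₂ : ℝ := 1 + 1 / δ with hK₂
  have hK₂0 : 0 < K₂ := by positivity
  refine ⟨1300 * K₁ ^ 6 * K₂ * (2 : ℝ) ^ (ε / 2), by positivity, ?_⟩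
  intro k M hk hM
  have hkR : (1 : ℝ) ≤ k := by exact_mod_cast hk
  have hMR : (1 : ℝ) ≤ M := by exact_mod_cast hM
  set X : ℝ := 2 * k * (M : ℝ) ^ 2 with hX
  have hM2 : (1 : ℝ) ≤ (M : ℝ) ^ 2 := by nlinarith
  have hX2 : 2 ≤ X := by rw [hX]; nlinarith
  have hX0 : 0 < X := by linarith
  have hXδ : 1 ≤ X ^ δ := Real.one_le_rpow (by linarith) hδ0.le
  have hlogX0 : 0 ≤ Real.log X := Real.log_nonneg (by linarith)
  have hlog : (Real.log X) ^ (9 / 4 : ℝ) ≤ X ^ δ / s ^ (9 / 4 : ℝ) := by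
    have h1 : Real.log X ≤ X ^ s / s := Real.log_le_rpow_div hX0.le hs0
    calc (Real.log X) ^ (9 / 4 : ℝ) ≤ (X ^ s / s) ^ (9 / 4 : ℝ) :=
          Real.rpow_le_rpow hlogX0 h1 (by norm_num)
      _ = X ^ δ / s ^ (9 / 4 : ℝ) := by
          rw [Real.div_rpow (by positivity) hs0.le, ← Real.rpow_mul hX0.le]
          congr 2
          rw [hs]; ring
  set J : ℕ := ⌈K₀ * (Real.log X) ^ (9 / 4 : ℝ)⌉₊ + 1 with hJ
  have hJ1 : 1 ≤ J := by omega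
  have hJb : (J : ℝ) + 1 ≤ K₁ * X ^ δ := by
    have h1 : (J : ℝ) ≤ K₀ * (Real.log X) ^ (9 / 4 : ℝ) + 2 := by
      rw [hJ]
      push_cast
      have := Nat.ceil_lt_add_one (a := K₀ * (Real.log X) ^ (9 / 4 : ℝ)) (by positivity)
      linarith
    have h2 : K₀ * (Real.log X) ^ (9 / 4 : ℝ) ≤ K₀ / s ^ (9 / 4 : ℝ) * X ^ δ := by
      calc K₀ * (Real.log X) ^ (9 / 4 : ℝ) ≤ K₀ * (X ^ δ / s ^ (9 / 4 : ℝ)) :=
            mul_le_mul_of_nonneg_left hlog hK₀.le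
        _ = _ := by ring
    rw [hK₁]
    nlinarith
  -- the sets
  let box : Finset (ℕ × ℕ) := Finset.range (M + 1) ×ˢ Finset.range (M + 1)
  let low : ℕ × ℕ × ℕ → Finset (ℕ × ℕ) := fun t => box.filter (fun p => Adm p.1 p.2 ∧ p.1 ≤ M ∧
    2 * p.2 ≤ p.1 ∧ Sol (k * (p.1 ^ 2 - p.2 ^ 2)) (k * (2 * p.1 * p.2)) (k * (p.1 ^ 2 + p.2 ^ 2))
      t.1 t.2.1 t.2.2)
  let high : ℕ × ℕ × ℕ → Finset (ℕ × ℕ) := fun t => box.filter (fun p => Adm p.1 p.2 ∧ p.1 ≤ M ∧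
    p.1 < 2 * p.2 ∧ Sol (k * (p.1 ^ 2 - p.2 ^ 2)) (k * (2 * p.1 * p.2)) (k * (p.1 ^ 2 + p.2 ^ 2))
      t.1 t.2.1 t.2.2)
  let I : Finset (ℕ × ℕ × ℕ) :=
    Finset.range (J + 1) ×ˢ (Finset.range (J + 1) ×ˢ Finset.range (J + 1))
  have hsub : {p : ℕ × ℕ | Adm p.1 p.2 ∧ p.1 ≤ M ∧ ¬ Jes (k * (p.1 ^ 2 - p.2 ^ 2))
      (k * (2 * p.1 * p.2)) (k * (p.1 ^ 2 + p.2 ^ 2))} ⊆
      ((I.biUnion (fun t => low t ∪ high t) : Finset (ℕ × ℕ)) : Set (ℕ × ℕ)) := by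
    rintro ⟨m, n⟩ ⟨hadm, hmM, hne⟩
    simp only at hadm hmM hne
    obtain ⟨ha, hb, hab⟩ := adm_pt hadm
    have hn := hadm.1
    have hnm := hadm.2.1
    have hpyth : (k * (m ^ 2 - n ^ 2)) ^ 2 + (k * (2 * m * n)) ^ 2 = (k * (m ^ 2 + n ^ 2)) ^ 2 := by
      rw [mul_pow k (m ^ 2 - n ^ 2), mul_pow k (2 * m * n), mul_pow k (m ^ 2 + n ^ 2), ← mul_add, hab]
    obtain ⟨x, y, z, hsol⟩ := sol_of_not_jes (Nat.mul_pos hk ha) (Nat.mul_pos hk hb) hpyth hne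
    have hbd := hexp _ _ _ _ _ _ hsol
    have hcX : ((k * (m ^ 2 + n ^ 2) : ℕ) : ℝ) ≤ X := by
      rw [hX]
      push_cast
      have hmR : (m : ℝ) ≤ M := by exact_mod_cast hmM
      have hnR : (n : ℝ) ≤ M := by exact_mod_cast (hnm.le.trans hmM)
      have e1 : (m : ℝ) ^ 2 ≤ (M : ℝ) ^ 2 := pow_le_pow_left₀ (Nat.cast_nonneg _) hmR 2
      have e2 : (n : ℝ) ^ 2 ≤ (M : ℝ) ^ 2 := pow_le_pow_left₀ (Nat.cast_nonneg _) hnR 2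
      nlinarith
    have hc1 : (1 : ℝ) ≤ ((k * (m ^ 2 + n ^ 2) : ℕ) : ℝ) := by
      have : 1 ≤ k * (m ^ 2 + n ^ 2) := Nat.mul_pos hk (by positivity)
      exact_mod_cast this
    have hlogc : (Real.log ((k * (m ^ 2 + n ^ 2) : ℕ) : ℝ)) ^ (9 / 4 : ℝ) ≤
        (Real.log X) ^ (9 / 4 : ℝ) := by
      apply Real.rpow_le_rpow (Real.log_nonneg hc1) _ (by norm_num)
      exact Real.log_le_log (by linarith) hcX
    have hJJ : ∀ w : ℕ, (w : ℝ) ≤ K₀ * (Real.log ((k * (m ^ 2 + n ^ 2) : ℕ) : ℝ)) ^ (9 / 4 : ℝ) →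
        w < J + 1 := by
      intro w hw
      have h1 : (w : ℝ) ≤ (⌈K₀ * (Real.log X) ^ (9 / 4 : ℝ)⌉₊ : ℝ) :=
        (hw.trans (mul_le_mul_of_nonneg_left hlogc hK₀.le)).trans (Nat.le_ceil _)
      have h2 : w ≤ ⌈K₀ * (Real.log X) ^ (9 / 4 : ℝ)⌉₊ := by exact_mod_cast h1
      omega
    rw [Finset.mem_coe, Finset.mem_biUnion]
    refine ⟨(x, y, z), ?_, ?_⟩
    · rw [Finset.mem_product, Finset.mem_product]
      exact ⟨Finset.mem_range.2 (hJJ x hbd.1), Finset.mem_range.2 (hJJ y hbd.2.1),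
        Finset.mem_range.2 (hJJ z hbd.2.2)⟩
    · have hbox : (m, n) ∈ box := by
        rw [Finset.mem_product]
        exact ⟨Finset.mem_range.2 (by simp only; omega), Finset.mem_range.2 (by simp only; omega)⟩
      rw [Finset.mem_union]
      rcases le_or_gt (2 * n) m with h | h
      · left
        exact Finset.mem_filter.2 ⟨hbox, hadm, hmM, h, hsol⟩
      · right
        exact Finset.mem_filter.2 ⟨hbox, hadm, hmM, h, hsol⟩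
  have hcard : ({p : ℕ × ℕ | Adm p.1 p.2 ∧ p.1 ≤ M ∧ ¬ Jes (k * (p.1 ^ 2 - p.2 ^ 2))
      (k * (2 * p.1 * p.2)) (k * (p.1 ^ 2 + p.2 ^ 2))}).ncard ≤
      ∑ t ∈ I, ((low t).card + (high t).card) := by
    refine (Set.ncard_le_ncard hsub (Finset.finite_toSet _)).trans ?_
    rw [Set.ncard_coe_finset]
    refine Finset.card_biUnion_le.trans (Finset.sum_le_sum (fun t _ => Finset.card_union_le _ _))
  have hlogM0 : 0 ≤ Real.log M := Real.log_nonneg hMR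
  have hM23 : 0 < (M : ℝ) ^ (2 / 3 : ℝ) := by positivity
  have hterm : ∀ t ∈ I, (((low t).card + (high t).card : ℕ) : ℝ) ≤
      1300 * (J : ℝ) ^ 3 * (M : ℝ) ^ (2 / 3 : ℝ) * (1 + Real.log M) := by
    intro t ht
    rw [Finset.mem_product, Finset.mem_product, Finset.mem_range, Finset.mem_range,
      Finset.mem_range] at ht
    have h1 := pair_count_low (J := J) (k := k) (x := t.1) (y := t.2.1) (z := t.2.2) (M := M) hJ1 hk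
      hM (by omega) (by omega) (by omega) (low t) (fun p hp => (Finset.mem_filter.1 hp).2)
    have h2 := pair_count_high (J := J) (k := k) (x := t.1) (y := t.2.1) (z := t.2.2) (M := M) hJ1 hk
      hM (by omega) (by omega) (by omega) (high t) (fun p hp => (Finset.mem_filter.1 hp).2)
    push_cast
    linarith
  have hIcard : (I.card : ℝ) = ((J : ℝ) + 1) ^ 3 := by
    rw [Finset.card_product, Finset.card_product, Finset.card_range]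
    push_cast
    ring
  have hlogM : 1 + Real.log M ≤ K₂ * X ^ δ := by
    have h1 : Real.log M ≤ Real.log X := by
      apply Real.log_le_log (by linarith)
      rw [hX]
      nlinarith
    have h2 : Real.log X ≤ X ^ δ / δ := Real.log_le_rpow_div hX0.le hδ0
    have h3 : X ^ δ / δ = 1 / δ * X ^ δ := by ring
    rw [hK₂]
    nlinarith
  have hJ0 : (0 : ℝ) ≤ J := Nat.cast_nonneg _
  have h6 : ((J : ℝ) + 1) ^ 3 * (J : ℝ) ^ 3 ≤ K₁ ^ 6 * (X ^ δ) ^ 6 := by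
    have e1 : (J : ℝ) ^ 3 ≤ ((J : ℝ) + 1) ^ 3 := pow_le_pow_left₀ hJ0 (by linarith) 3
    calc ((J : ℝ) + 1) ^ 3 * (J : ℝ) ^ 3 ≤ ((J : ℝ) + 1) ^ 3 * ((J : ℝ) + 1) ^ 3 := by gcongr
      _ = ((J : ℝ) + 1) ^ 6 := by ring
      _ ≤ (K₁ * X ^ δ) ^ 6 := pow_le_pow_left₀ (by positivity) hJb 6
      _ = K₁ ^ 6 * (X ^ δ) ^ 6 := by ring
  have h7 : (X ^ δ) ^ 6 * X ^ δ = X ^ (ε / 2) := by
    rw [← Real.rpow_natCast (X ^ δ) 6, ← Real.rpow_mul hX0.le, ← Real.rpow_add hX0]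
    congr 1
    rw [hδ]
    push_cast
    ring
  have h8 : X ^ (ε / 2) ≤ (2 : ℝ) ^ (ε / 2) * ((k : ℝ) ^ ε * (M : ℝ) ^ ε) := by
    rw [hX, Real.mul_rpow (by positivity) (by positivity), Real.mul_rpow (by positivity) (by positivity)]
    have e1 : (k : ℝ) ^ (ε / 2) ≤ (k : ℝ) ^ ε := Real.rpow_le_rpow_of_exponent_le hkR (by linarith)
    have e2 : ((M : ℝ) ^ 2) ^ (ε / 2) = (M : ℝ) ^ ε := by
      rw [← Real.rpow_natCast, ← Real.rpow_mul (by positivity)]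
      congr 1
      push_cast
      ring
    rw [e2, mul_assoc]
    gcongr
  calc (({p : ℕ × ℕ | Adm p.1 p.2 ∧ p.1 ≤ M ∧ ¬ Jes (k * (p.1 ^ 2 - p.2 ^ 2))
      (k * (2 * p.1 * p.2)) (k * (p.1 ^ 2 + p.2 ^ 2))}).ncard : ℝ) ≤
      ((∑ t ∈ I, ((low t).card + (high t).card) : ℕ) : ℝ) := by exact_mod_cast hcard
    _ = ∑ t ∈ I, (((low t).card + (high t).card : ℕ) : ℝ) := by push_cast; rfl
    _ ≤ ∑ t ∈ I, 1300 * (J : ℝ) ^ 3 * (M : ℝ) ^ (2 / 3 : ℝ) * (1 + Real.log M) :=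
        Finset.sum_le_sum hterm
    _ = (I.card : ℝ) * (1300 * (J : ℝ) ^ 3 * (M : ℝ) ^ (2 / 3 : ℝ) * (1 + Real.log M)) := by
        rw [Finset.sum_const, nsmul_eq_mul]
    _ = 1300 * (((J : ℝ) + 1) ^ 3 * (J : ℝ) ^ 3) * ((M : ℝ) ^ (2 / 3 : ℝ) * (1 + Real.log M)) := by
        rw [hIcard]; ring
    _ ≤ 1300 * (K₁ ^ 6 * (X ^ δ) ^ 6) * ((M : ℝ) ^ (2 / 3 : ℝ) * (K₂ * X ^ δ)) := by
        gcongr
    _ = 1300 * K₁ ^ 6 * K₂ * (M : ℝ) ^ (2 / 3 : ℝ) * ((X ^ δ) ^ 6 * X ^ δ) := by ring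
    _ = 1300 * K₁ ^ 6 * K₂ * (M : ℝ) ^ (2 / 3 : ℝ) * X ^ (ε / 2) := by rw [h7]
    _ ≤ 1300 * K₁ ^ 6 * K₂ * (M : ℝ) ^ (2 / 3 : ℝ) *
        ((2 : ℝ) ^ (ε / 2) * ((k : ℝ) ^ ε * (M : ℝ) ^ ε)) := by gcongr
    _ = 1300 * K₁ ^ 6 * K₂ * (2 : ℝ) ^ (ε / 2) * (k : ℝ) ^ ε * (M : ℝ) ^ (2 / 3 + ε) := by
        rw [Real.rpow_add (by linarith : (0 : ℝ) < M)]; ring

end JB95
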