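import Pool.Agent.LibJB95.B1
namespace JB95

private theorem b2_pow (n : ℕ) {f : ℝ → ℝ} {f' s : ℝ} (h : HasDerivAt f f' s) (h0 : f s ≠ 0) :
    HasDerivAt (fun s => f s ^ n) (f s ^ n * (n * (f' / f s))) s := by
  have h1 := h.fun_pow n
  have : (n : ℝ) * f s ^ (n - 1) * f' = f s ^ n * (n * (f' / f s)) := by
    cases n with
    | zero => simp
    | succ m =>
      rw [Nat.add_sub_cancel]
      field_simp
      ring
  rwa [this] at h1

/-- Second order estimate along a short segment.  Let `f`, `g` be twice differentiable positive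
functions on `[0,1]` (`f'`, `f''`, `g'`, `g''` given) with `|f'| ≤ θ f`, `|f''| ≤ θ² f`,
`|g'| ≤ θ g`, `|g''| ≤ θ² g`, and let `φ = C f^X / g^Z`, `X, Z ≤ J`. Then `φ' = φ (X f'/f - Z g'/g)`
and `|φ''| ≤ φ ((2Jθ)² + 4 J θ²) ≤ 8 J² θ² φ`. -/
theorem term_deriv {J X Z : ℕ} (hJ : 1 ≤ J) (hX : X ≤ J) (hZ : Z ≤ J) {C θ : ℝ} (hC : 0 < C)
    (hθ : 0 ≤ θ) {f f₁ f₂ g g₁ g₂ : ℝ → ℝ}
    (hf : ∀ s ∈ Set.Icc (0 : ℝ) 1, HasDerivAt f (f₁ s) s ∧ HasDerivAt f₁ (f₂ s) s ∧ 0 < f s ∧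
      |f₁ s| ≤ θ * f s ∧ |f₂ s| ≤ θ ^ 2 * f s)
    (hg : ∀ s ∈ Set.Icc (0 : ℝ) 1, HasDerivAt g (g₁ s) s ∧ HasDerivAt g₁ (g₂ s) s ∧ 0 < g s ∧
      |g₁ s| ≤ θ * g s ∧ |g₂ s| ≤ θ ^ 2 * g s) :
    ∃ φ₂ : ℝ → ℝ, ∀ s ∈ Set.Icc (0 : ℝ) 1,
      HasDerivAt (fun s => C * f s ^ X / g s ^ Z)
        (C * f s ^ X / g s ^ Z * (X * (f₁ s / f s) - Z * (g₁ s / g s))) s ∧
      HasDerivAt (fun s => C * f s ^ X / g s ^ Z * (X * (f₁ s / f s) - Z * (g₁ s / g s)))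
        (φ₂ s) s ∧
      |φ₂ s| ≤ 8 * J ^ 2 * θ ^ 2 * (C * f s ^ X / g s ^ Z) := by
  refine ⟨fun s => C * f s ^ X / g s ^ Z * ((X * (f₁ s / f s) - Z * (g₁ s / g s)) ^ 2 +
    (X * (f₂ s / f s - (f₁ s / f s) ^ 2) - Z * (g₂ s / g s - (g₁ s / g s) ^ 2))), ?_⟩
  intro s hs
  obtain ⟨hf1, hf2, hf0, hfb1, hfb2⟩ := hf s hs
  obtain ⟨hg1, hg2, hg0, hgb1, hgb2⟩ := hg s hs
  have hφ : HasDerivAt (fun s => C * f s ^ X / g s ^ Z)
        (C * f s ^ X / g s ^ Z * (X * (f₁ s / f s) - Z * (g₁ s / g s))) s := by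
    have h1 := ((b2_pow X hf1 hf0.ne').const_mul C).fun_div (b2_pow Z hg1 hg0.ne')
      (pow_ne_zero Z hg0.ne')
    refine h1.congr_deriv ?_
    have : g s ^ Z ≠ 0 := pow_ne_zero Z hg0.ne'
    field_simp
  have hL : HasDerivAt (fun s => X * (f₁ s / f s) - Z * (g₁ s / g s))
      (X * (f₂ s / f s - (f₁ s / f s) ^ 2) - Z * (g₂ s / g s - (g₁ s / g s) ^ 2)) s := by
    have h1 := ((hf2.fun_div hf1 hf0.ne').const_mul (X : ℝ)).fun_sub
      ((hg2.fun_div hg1 hg0.ne').const_mul (Z : ℝ))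
    refine h1.congr_deriv ?_
    field_simp
  refine ⟨hφ, ?_, ?_⟩
  · have h1 := hφ.fun_mul hL
    refine h1.congr_deriv ?_
    ring
  · have hpos : 0 < C * f s ^ X / g s ^ Z := by positivity
    simp only
    rw [abs_mul, abs_of_pos hpos]
    have hJ' : (1 : ℝ) ≤ J := by exact_mod_cast hJ
    have hX' : (X : ℝ) ≤ J := by exact_mod_cast hX
    have hZ' : (Z : ℝ) ≤ J := by exact_mod_cast hZ
    have hX0 : (0 : ℝ) ≤ X := Nat.cast_nonneg X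
    have hZ0 : (0 : ℝ) ≤ Z := Nat.cast_nonneg Z
    have a1 : |f₁ s / f s| ≤ θ := by
      rw [abs_div, abs_of_pos hf0, div_le_iff₀ hf0]; exact hfb1
    have a2 : |g₁ s / g s| ≤ θ := by
      rw [abs_div, abs_of_pos hg0, div_le_iff₀ hg0]; exact hgb1
    have a3 : |f₂ s / f s| ≤ θ ^ 2 := by
      rw [abs_div, abs_of_pos hf0, div_le_iff₀ hf0]; exact hfb2
    have a4 : |g₂ s / g s| ≤ θ ^ 2 := by
      rw [abs_div, abs_of_pos hg0, div_le_iff₀ hg0]; exact hgb2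
    generalize f₁ s / f s = u at *
    generalize g₁ s / g s = v at *
    generalize f₂ s / f s = u' at *
    generalize g₂ s / g s = v' at *
    have b1 : |X * u| ≤ J * θ := by
      rw [abs_mul, abs_of_nonneg hX0]
      exact mul_le_mul hX' a1 (abs_nonneg _) (by positivity)
    have b2 : |Z * v| ≤ J * θ := by
      rw [abs_mul, abs_of_nonneg hZ0]
      exact mul_le_mul hZ' a2 (abs_nonneg _) (by positivity)
    have b3 : |X * u - Z * v| ≤ 2 * J * θ := by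
      have := abs_sub (X * u) (Z * v)
      linarith
    have b4 : (X * u - Z * v) ^ 2 ≤ (2 * J * θ) ^ 2 := by
      rw [← sq_abs]
      exact pow_le_pow_left₀ (abs_nonneg _) b3 2
    have b5 : |u' - u ^ 2| ≤ 2 * θ ^ 2 := by
      have h1 := abs_sub u' (u ^ 2)
      have h2 : |u ^ 2| ≤ θ ^ 2 := by
        rw [abs_pow]; exact pow_le_pow_left₀ (abs_nonneg _) a1 2
      linarith
    have b6 : |v' - v ^ 2| ≤ 2 * θ ^ 2 := by
      have h1 := abs_sub v' (v ^ 2)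
      have h2 : |v ^ 2| ≤ θ ^ 2 := by
        rw [abs_pow]; exact pow_le_pow_left₀ (abs_nonneg _) a2 2
      linarith
    have b7 : |X * (u' - u ^ 2)| ≤ J * (2 * θ ^ 2) := by
      rw [abs_mul, abs_of_nonneg hX0]
      exact mul_le_mul hX' b5 (abs_nonneg _) (by positivity)
    have b8 : |Z * (v' - v ^ 2)| ≤ J * (2 * θ ^ 2) := by
      rw [abs_mul, abs_of_nonneg hZ0]
      exact mul_le_mul hZ' b6 (abs_nonneg _) (by positivity)
    have b9 : |X * (u' - u ^ 2) - Z * (v' - v ^ 2)| ≤ 4 * J * θ ^ 2 := by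
      have := abs_sub (X * (u' - u ^ 2)) (Z * (v' - v ^ 2))
      linarith
    have b10 : |(X * u - Z * v) ^ 2 + (X * (u' - u ^ 2) - Z * (v' - v ^ 2))| ≤
        8 * J ^ 2 * θ ^ 2 := by
      have h1 := abs_add_le ((X * u - Z * v) ^ 2) (X * (u' - u ^ 2) - Z * (v' - v ^ 2))
      rw [abs_of_nonneg (sq_nonneg (X * u - Z * v))] at h1
      have h2 : (J : ℝ) * θ ^ 2 ≤ J ^ 2 * θ ^ 2 := by
        have : (J : ℝ) ≤ J ^ 2 := by nlinarith
        exact mul_le_mul_of_nonneg_right this (sq_nonneg θ)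
      nlinarith
    calc C * f s ^ X / g s ^ Z * |(X * u - Z * v) ^ 2 + (X * (u' - u ^ 2) - Z * (v' - v ^ 2))|
        ≤ C * f s ^ X / g s ^ Z * (8 * J ^ 2 * θ ^ 2) := by gcongr
      _ = 8 * J ^ 2 * θ ^ 2 * (C * f s ^ X / g s ^ Z) := by ring

end JB95
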