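import Pool.Agent.LibJB95.B2
namespace JB95

private theorem B3_grow {J X Z : ℕ} (hX : X ≤ J) (hZ : Z ≤ J) {κ C f0 g0 f g : ℝ} (hC : 0 < C)
    (hκ0 : 0 ≤ κ) (hκ : 16 * J * κ ≤ 1) (hf : 0 < f) (hf0 : 0 < f0) (hg0 : 0 < g0)
    (h1 : f ≤ (1 + 4 * κ) * f0) (h2 : (1 - 2 * κ) * g0 ≤ g) (hκ1 : κ ≤ 1 / 16) :
    C * f ^ X / g ^ Z ≤ 2 * (C * f0 ^ X / g0 ^ Z) := by
  have hb1 : (3 / 4 : ℝ) ≤ (1 - 4 * κ) ^ X := by
    have h := one_add_mul_le_pow (a := -(4 * κ)) (by linarith) X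
    have hX' : (X : ℝ) ≤ J := by exact_mod_cast hX
    have : (X : ℝ) * κ ≤ J * κ := mul_le_mul_of_nonneg_right hX' hκ0
    have e : (1 - 4 * κ) = 1 + -(4 * κ) := by ring
    rw [e]
    refine le_trans ?_ h
    nlinarith
  have hb2 : (1 + 4 * κ) ^ X ≤ 4 / 3 := by
    have h3 : (1 + 4 * κ) ^ X * (1 - 4 * κ) ^ X ≤ 1 := by
      rw [← mul_pow]
      apply pow_le_one₀
      · nlinarith
      · nlinarith [sq_nonneg κ]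
    have h4 : 0 < (1 + 4 * κ) ^ X := by positivity
    nlinarith
  have hb3 : (7 / 8 : ℝ) ≤ (1 - 2 * κ) ^ Z := by
    have h := one_add_mul_le_pow (a := -(2 * κ)) (by linarith) Z
    have hZ' : (Z : ℝ) ≤ J := by exact_mod_cast hZ
    have : (Z : ℝ) * κ ≤ J * κ := mul_le_mul_of_nonneg_right hZ' hκ0
    have e : (1 - 2 * κ) = 1 + -(2 * κ) := by ring
    rw [e]
    refine le_trans ?_ h
    nlinarith
  have hg : 0 < g := lt_of_lt_of_le (mul_pos (by linarith) hg0) h2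
  have hfX : f ^ X ≤ 4 / 3 * f0 ^ X := by
    calc f ^ X ≤ ((1 + 4 * κ) * f0) ^ X := pow_le_pow_left₀ hf.le h1 X
      _ = (1 + 4 * κ) ^ X * f0 ^ X := mul_pow _ _ _
      _ ≤ 4 / 3 * f0 ^ X := by
        have := pow_pos hf0 X
        gcongr
  have hgZ : 7 / 8 * g0 ^ Z ≤ g ^ Z := by
    calc 7 / 8 * g0 ^ Z ≤ (1 - 2 * κ) ^ Z * g0 ^ Z := by
          have := pow_pos hg0 Z
          gcongr
      _ = ((1 - 2 * κ) * g0) ^ Z := (mul_pow _ _ _).symm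
      _ ≤ g ^ Z := pow_le_pow_left₀ (mul_nonneg (by linarith) hg0.le) h2 Z
  have h5 := pow_pos hg0 Z
  have h6 := pow_pos hf0 X
  have h7 : 0 < g ^ Z := pow_pos hg Z
  rw [div_le_iff₀ h7]
  have h8 : 2 * (C * f0 ^ X / g0 ^ Z) * g ^ Z = 2 * C * f0 ^ X * (g ^ Z / g0 ^ Z) := by
    field_simp
  rw [h8]
  have h9 : 7 / 8 ≤ g ^ Z / g0 ^ Z := by
    rw [le_div_iff₀ h5]
    exact hgZ
  calc C * f ^ X ≤ C * (4 / 3 * f0 ^ X) := by gcongr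
    _ ≤ 2 * C * f0 ^ X * (7 / 8) := by
      have : 0 < C * f0 ^ X := mul_pos hC h6
      nlinarith
    _ ≤ 2 * C * f0 ^ X * (g ^ Z / g0 ^ Z) := by
      have : 0 < C * f0 ^ X := mul_pos hC h6
      have h10 : 0 ≤ 2 * C * f0 ^ X := by nlinarith
      exact mul_le_mul_of_nonneg_left h9 h10

private theorem B3_a {p q P Q u v κ : ℝ} (hq : 0 < q) (hpq : 2 * q ≤ p)
    (hκ0 : 0 ≤ κ) (hκ : κ ≤ 1 / 16) (hu : |u| ≤ κ * p) (hv : |v| ≤ κ * q)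
    (hP : |P - p| ≤ κ * p) (hQ : |Q - q| ≤ κ * q) :
    (0 < P ∧ 0 < Q ∧ Q ^ 2 ≤ 289 / 900 * P ^ 2) ∧
    (|P * u| ≤ 16 / 15 * (κ * P ^ 2) ∧ |Q * v| ≤ 16 / 15 * (κ * Q ^ 2) ∧
    |u * Q| ≤ 16 / 15 * (κ * (P * Q)) ∧ |P * v| ≤ 16 / 15 * (κ * (P * Q))) ∧
    (u ^ 2 ≤ 256 / 225 * (κ ^ 2 * P ^ 2) ∧ v ^ 2 ≤ 256 / 225 * (κ ^ 2 * Q ^ 2) ∧
    |u * v| ≤ 256 / 225 * (κ ^ 2 * (P * Q))) := by
  have hp : 0 < p := by linarith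
  obtain ⟨hsu1, hsu2⟩ := abs_le.1 hP
  obtain ⟨hsv1, hsv2⟩ := abs_le.1 hQ
  have hκp : κ * p ≤ 1 / 16 * p := mul_le_mul_of_nonneg_right hκ hp.le
  have hκq : κ * q ≤ 1 / 16 * q := mul_le_mul_of_nonneg_right hκ hq.le
  have hP0 : 0 < P := by linarith
  have hQ0 : 0 < Q := by linarith
  have hQP : Q ≤ 17 / 30 * P := by linarith
  have hpP : p ≤ 16 / 15 * P := by linarith
  have hqQ : q ≤ 16 / 15 * Q := by linarith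
  have hu' : |u| ≤ κ * (16 / 15 * P) := hu.trans (mul_le_mul_of_nonneg_left hpP hκ0)
  have hv' : |v| ≤ κ * (16 / 15 * Q) := hv.trans (mul_le_mul_of_nonneg_left hqQ hκ0)
  refine ⟨⟨hP0, hQ0, ?_⟩, ⟨?_, ?_, ?_, ?_⟩, ?_, ?_, ?_⟩
  · have h := pow_le_pow_left₀ hQ0.le hQP 2
    rw [mul_pow] at h
    linarith
  · rw [abs_mul, abs_of_pos hP0]
    calc P * |u| ≤ P * (κ * (16 / 15 * P)) := mul_le_mul_of_nonneg_left hu' hP0.le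
      _ = _ := by ring
  · rw [abs_mul, abs_of_pos hQ0]
    calc Q * |v| ≤ Q * (κ * (16 / 15 * Q)) := mul_le_mul_of_nonneg_left hv' hQ0.le
      _ = _ := by ring
  · rw [abs_mul, abs_of_pos hQ0]
    calc |u| * Q ≤ κ * (16 / 15 * P) * Q := mul_le_mul_of_nonneg_right hu' hQ0.le
      _ = _ := by ring
  · rw [abs_mul, abs_of_pos hP0]
    calc P * |v| ≤ P * (κ * (16 / 15 * Q)) := mul_le_mul_of_nonneg_left hv' hP0.le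
      _ = _ := by ring
  · have h := pow_le_pow_left₀ (abs_nonneg u) hu' 2
    rw [sq_abs] at h
    refine h.trans (le_of_eq ?_)
    ring
  · have h := pow_le_pow_left₀ (abs_nonneg v) hv' 2
    rw [sq_abs] at h
    refine h.trans (le_of_eq ?_)
    ring
  · have h := mul_le_mul hu' hv' (abs_nonneg _) (by positivity)
    rw [← abs_mul] at h
    refine h.trans (le_of_eq ?_)
    ring

private theorem B3_b {p q P Q u v κ : ℝ} (hq : 0 < q) (hpq : 2 * q ≤ p)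
    (hκ0 : 0 ≤ κ) (hκ : κ ≤ 1 / 16) (hu : |u| ≤ κ * p) (hv : |v| ≤ κ * q)
    (hP : |P - p| ≤ κ * p) (hQ : |Q - q| ≤ κ * q) :
    (0 < P ^ 2 - Q ^ 2 ∧
      |2 * (P * u - Q * v)| ≤ 5 * κ * (P ^ 2 - Q ^ 2) ∧
      |2 * (u ^ 2 - v ^ 2)| ≤ (5 * κ) ^ 2 * (P ^ 2 - Q ^ 2)) := by
  obtain ⟨⟨hP0, hQ0, hQP2⟩, ⟨hPu, hQv, -, -⟩, hu2, hv2, -⟩ := B3_a hq hpq hκ0 hκ hu hv hP hQ
  have hP2 : 0 < P ^ 2 := pow_pos hP0 2
  have hQ2 : 0 < Q ^ 2 := pow_pos hQ0 2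
  have hk1 : 0 ≤ κ * (289 / 900 * P ^ 2 - Q ^ 2) := mul_nonneg hκ0 (by linarith)
  have hk2 : 0 ≤ κ ^ 2 * (289 / 900 * P ^ 2 - Q ^ 2) := mul_nonneg (sq_nonneg κ) (by linarith)
  have hk3 : 0 ≤ κ * P ^ 2 := mul_nonneg hκ0 hP2.le
  have hk4 : 0 ≤ κ * Q ^ 2 := mul_nonneg hκ0 hQ2.le
  have hk5 : 0 ≤ κ ^ 2 * P ^ 2 := mul_nonneg (sq_nonneg κ) hP2.le
  have hk6 : 0 ≤ κ ^ 2 * Q ^ 2 := mul_nonneg (sq_nonneg κ) hQ2.le
  have hu20 := sq_nonneg u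
  have hv20 := sq_nonneg v
  obtain ⟨hPu1, hPu2⟩ := abs_le.1 hPu
  obtain ⟨hQv1, hQv2⟩ := abs_le.1 hQv
  clear hPu hQv hP hQ hu hv
  rw [mul_sub] at hk1 hk2
  have e1 : 5 * κ * (P ^ 2 - Q ^ 2) = 5 * (κ * P ^ 2) - 5 * (κ * Q ^ 2) := by ring
  have e2 : (5 * κ) ^ 2 * (P ^ 2 - Q ^ 2) = 25 * (κ ^ 2 * P ^ 2) - 25 * (κ ^ 2 * Q ^ 2) := by ring
  have e3 : κ * (289 / 900 * P ^ 2) = 289 / 900 * (κ * P ^ 2) := by ring
  have e4 : κ ^ 2 * (289 / 900 * P ^ 2) = 289 / 900 * (κ ^ 2 * P ^ 2) := by ring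
  rw [e3] at hk1
  rw [e4] at hk2
  refine ⟨by linarith, ?_, ?_⟩
  · rw [abs_le, e1]
    constructor <;> linarith
  · rw [abs_le, e2]
    constructor <;> linarith

private theorem B3_c {p q P Q u v κ : ℝ} (hq : 0 < q) (hpq : 2 * q ≤ p)
    (hκ0 : 0 ≤ κ) (hκ : κ ≤ 1 / 16) (hu : |u| ≤ κ * p) (hv : |v| ≤ κ * q)
    (hP : |P - p| ≤ κ * p) (hQ : |Q - q| ≤ κ * q) :
    (0 < P * Q ∧
      |u * Q + P * v| ≤ 5 * κ * (P * Q) ∧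
      |2 * (u * v)| ≤ (5 * κ) ^ 2 * (P * Q)) ∧
    (0 < P ^ 2 + Q ^ 2 ∧
      |2 * (P * u + Q * v)| ≤ 5 * κ * (P ^ 2 + Q ^ 2) ∧
      |2 * (u ^ 2 + v ^ 2)| ≤ (5 * κ) ^ 2 * (P ^ 2 + Q ^ 2)) := by
  obtain ⟨⟨hP0, hQ0, -⟩, ⟨hPu, hQv, huQ, hPv⟩, hu2, hv2, huv⟩ := B3_a hq hpq hκ0 hκ hu hv hP hQ
  have hP2 : 0 < P ^ 2 := pow_pos hP0 2
  have hQ2 : 0 < Q ^ 2 := pow_pos hQ0 2
  have hPQ : 0 < P * Q := mul_pos hP0 hQ0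
  have hk3 : 0 ≤ κ * P ^ 2 := mul_nonneg hκ0 hP2.le
  have hk4 : 0 ≤ κ * Q ^ 2 := mul_nonneg hκ0 hQ2.le
  have hk5 : 0 ≤ κ ^ 2 * P ^ 2 := mul_nonneg (sq_nonneg κ) hP2.le
  have hk6 : 0 ≤ κ ^ 2 * Q ^ 2 := mul_nonneg (sq_nonneg κ) hQ2.le
  have hk7 : 0 ≤ κ * (P * Q) := mul_nonneg hκ0 hPQ.le
  have hk8 : 0 ≤ κ ^ 2 * (P * Q) := mul_nonneg (sq_nonneg κ) hPQ.le
  have hu20 := sq_nonneg u
  have hv20 := sq_nonneg v
  obtain ⟨hPu1, hPu2⟩ := abs_le.1 hPu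
  obtain ⟨hQv1, hQv2⟩ := abs_le.1 hQv
  obtain ⟨huQ1, huQ2⟩ := abs_le.1 huQ
  obtain ⟨hPv1, hPv2⟩ := abs_le.1 hPv
  obtain ⟨huv1, huv2⟩ := abs_le.1 huv
  clear hPu hQv hP hQ hu hv huQ hPv huv
  have e1 : 5 * κ * (P ^ 2 + Q ^ 2) = 5 * (κ * P ^ 2) + 5 * (κ * Q ^ 2) := by ring
  have e2 : (5 * κ) ^ 2 * (P ^ 2 + Q ^ 2) = 25 * (κ ^ 2 * P ^ 2) + 25 * (κ ^ 2 * Q ^ 2) := by ring
  have e3 : 5 * κ * (P * Q) = 5 * (κ * (P * Q)) := by ring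
  have e4 : (5 * κ) ^ 2 * (P * Q) = 25 * (κ ^ 2 * (P * Q)) := by ring
  refine ⟨⟨hPQ, ?_, ?_⟩, by linarith, ?_, ?_⟩
  · rw [abs_le, e3]
    constructor <;> linarith
  · rw [abs_le, e4]
    constructor <;> linarith
  · rw [abs_le, e1]
    constructor <;> linarith
  · rw [abs_le, e2]
    constructor <;> linarith

private theorem B3_d {p q P Q κ : ℝ} (hq : 0 < q) (hpq : 2 * q ≤ p)
    (hκ0 : 0 ≤ κ) (hκ : κ ≤ 1 / 16)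
    (hP : |P - p| ≤ κ * p) (hQ : |Q - q| ≤ κ * q) :
    P ^ 2 - Q ^ 2 ≤ (1 + 4 * κ) * (p ^ 2 - q ^ 2) ∧
      P * Q ≤ (1 + 4 * κ) * (p * q) ∧
      (1 - 2 * κ) * (p ^ 2 + q ^ 2) ≤ P ^ 2 + Q ^ 2 := by
  have hp : 0 < p := by linarith
  obtain ⟨hsu1, hsu2⟩ := abs_le.1 hP
  obtain ⟨hsv1, hsv2⟩ := abs_le.1 hQ
  have hκp : κ * p ≤ 1 / 16 * p := mul_le_mul_of_nonneg_right hκ hp.le
  have hκq : κ * q ≤ 1 / 16 * q := mul_le_mul_of_nonneg_right hκ hq.le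
  have hP0 : 0 < P := by linarith
  have hQ0 : 0 < Q := by linarith
  have hPu : P ≤ (1 + κ) * p := by linarith
  have hPl : (1 - κ) * p ≤ P := by linarith
  have hQu : Q ≤ (1 + κ) * q := by linarith
  have hQl : (1 - κ) * q ≤ Q := by linarith
  have hκκ : 0 ≤ κ * (1 / 16 - κ) := mul_nonneg hκ0 (by linarith)
  have k1 : P ^ 2 ≤ ((1 + κ) * p) ^ 2 := pow_le_pow_left₀ hP0.le hPu 2
  have k2 : ((1 - κ) * q) ^ 2 ≤ Q ^ 2 := pow_le_pow_left₀ (mul_nonneg (by linarith) hq.le) hQl 2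
  have k3 : ((1 - κ) * p) ^ 2 ≤ P ^ 2 := pow_le_pow_left₀ (mul_nonneg (by linarith) hp.le) hPl 2
  have k4 : P * Q ≤ ((1 + κ) * p) * ((1 + κ) * q) :=
    mul_le_mul hPu hQu hQ0.le (mul_nonneg (by linarith) hp.le)
  have hp2 : 4 * q ^ 2 ≤ p ^ 2 := by
    have := pow_le_pow_left₀ (by linarith : (0 : ℝ) ≤ 2 * q) hpq 2
    linarith [mul_pow (2 : ℝ) q 2]
  have m1 : 0 ≤ κ * (p ^ 2 - 4 * q ^ 2) := mul_nonneg hκ0 (by linarith)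
  have m2 : 0 ≤ κ * (1 / 16 - κ) * p ^ 2 := mul_nonneg hκκ (sq_nonneg p)
  have m3 : 0 ≤ κ * (1 / 16 - κ) * q ^ 2 := mul_nonneg hκκ (sq_nonneg q)
  have m4 : 0 ≤ κ ^ 2 * q ^ 2 := by positivity
  have m5 : 0 ≤ κ * (1 / 16 - κ) * (p * q) := mul_nonneg hκκ (mul_pos hp hq).le
  have m6 : 0 ≤ κ * (p * q) := mul_nonneg hκ0 (mul_pos hp hq).le
  have m7 : 0 ≤ κ ^ 2 * p ^ 2 := by positivity
  have m8 : 0 ≤ κ * p ^ 2 := by positivity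
  have m9 : 0 ≤ κ * q ^ 2 := by positivity
  ring_nf at k1 k2 k3 k4 m1 m2 m3 m4 m5 m6 m7 m8 m9 ⊢
  refine ⟨by linarith, by linarith, by linarith⟩

private theorem B3_pt {p q u v κ s : ℝ} (hq : 0 < q) (hpq : 2 * q ≤ p)
    (hκ0 : 0 ≤ κ) (hκ : κ ≤ 1 / 16) (hu : |u| ≤ κ * p) (hv : |v| ≤ κ * q)
    (hs0 : 0 ≤ s) (hs1 : s ≤ 1) :
    (0 < (p + s * u) ^ 2 - (q + s * v) ^ 2 ∧
      |2 * ((p + s * u) * u - (q + s * v) * v)| ≤ 5 * κ * ((p + s * u) ^ 2 - (q + s * v) ^ 2) ∧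
      |2 * (u ^ 2 - v ^ 2)| ≤ (5 * κ) ^ 2 * ((p + s * u) ^ 2 - (q + s * v) ^ 2)) ∧
    ((0 < (p + s * u) * (q + s * v) ∧
      |u * (q + s * v) + (p + s * u) * v| ≤ 5 * κ * ((p + s * u) * (q + s * v)) ∧
      |2 * (u * v)| ≤ (5 * κ) ^ 2 * ((p + s * u) * (q + s * v))) ∧
    (0 < (p + s * u) ^ 2 + (q + s * v) ^ 2 ∧
      |2 * ((p + s * u) * u + (q + s * v) * v)| ≤ 5 * κ * ((p + s * u) ^ 2 + (q + s * v) ^ 2) ∧
      |2 * (u ^ 2 + v ^ 2)| ≤ (5 * κ) ^ 2 * ((p + s * u) ^ 2 + (q + s * v) ^ 2))) ∧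
    ((p + s * u) ^ 2 - (q + s * v) ^ 2 ≤ (1 + 4 * κ) * (p ^ 2 - q ^ 2) ∧
      (p + s * u) * (q + s * v) ≤ (1 + 4 * κ) * (p * q) ∧
      (1 - 2 * κ) * (p ^ 2 + q ^ 2) ≤ (p + s * u) ^ 2 + (q + s * v) ^ 2) := by
  have hP : |(p + s * u) - p| ≤ κ * p := by
    rw [add_sub_cancel_left, abs_mul, abs_of_nonneg hs0]
    calc s * |u| ≤ 1 * |u| := mul_le_mul_of_nonneg_right hs1 (abs_nonneg _)
      _ ≤ κ * p := by rw [one_mul]; exact hu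
  have hQ : |(q + s * v) - q| ≤ κ * q := by
    rw [add_sub_cancel_left, abs_mul, abs_of_nonneg hs0]
    calc s * |v| ≤ 1 * |v| := mul_le_mul_of_nonneg_right hs1 (abs_nonneg _)
      _ ≤ κ * q := by rw [one_mul]; exact hv
  exact ⟨B3_b hq hpq hκ0 hκ hu hv hP hQ, B3_c hq hpq hκ0 hκ hu hv hP hQ,
    B3_d hq hpq hκ0 hκ hP hQ⟩

/-- Apply `rolle_bound` to `φ(s) = e₁ + e₂` at `(p + s u, q + s v)`, using `term_deriv` with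
`f = p(s)² - q(s)²`, resp. `f = p(s) q(s)`, and `g = p(s)² + q(s)²`, `θ = 5 κ`
(`κ ≤ 1/16`, `q(s) ≤ 0.57 p(s)`: `|2(pu - qv)| ≤ 2κ(...)`, ...). On the segment
`e_i(s) ≤ 2 e_i(0)`, since `f(s) ≤ (1 + 4κ) f(0)`, `g(s) ≥ (1 - 2κ) g(0)` and `16 J κ ≤ 1`; hence
`|φ''| ≤ 8 J² θ² * 2 = 400 J² κ²`. -/
theorem dir_bound {J X Y Z : ℕ} (hJ : 1 ≤ J) (hX : X ≤ J) (hY : Y ≤ J) (hZ : Z ≤ J)
    {C₁ C₂ p q u v κ : ℝ} (hC₁ : 0 < C₁) (hC₂ : 0 < C₂) (hq : 0 < q) (hpq : 2 * q ≤ p)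
    (hκ0 : 0 ≤ κ) (hκ : 16 * J * κ ≤ 1) (hu : |u| ≤ κ * p) (hv : |v| ≤ κ * q)
    (h0 : e₁ C₁ X Z p q + e₂ C₂ Y Z p q = 1)
    (h1 : e₁ C₁ X Z (p + u) (q + v) + e₂ C₂ Y Z (p + u) (q + v) = 1) :
    |e₁ C₁ X Z p q * (X * (2 * (p * u - q * v) / (p ^ 2 - q ^ 2)) -
        Z * (2 * (p * u + q * v) / (p ^ 2 + q ^ 2))) +
      e₂ C₂ Y Z p q * (Y * ((u * q + p * v) / (p * q)) -
        Z * (2 * (p * u + q * v) / (p ^ 2 + q ^ 2)))| ≤ 1000 * J ^ 2 * κ ^ 2 := by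
  have hJ1 : (1 : ℝ) ≤ J := by exact_mod_cast hJ
  have hκ1 : κ ≤ 1 / 16 := by nlinarith
  have hp : 0 < p := by linarith
  have hPd : ∀ s : ℝ, HasDerivAt (fun s => p + s * u) u s := fun s => by
    simpa using ((hasDerivAt_id s).mul_const u).const_add p
  have hQd : ∀ s : ℝ, HasDerivAt (fun s => q + s * v) v s := fun s => by
    simpa using ((hasDerivAt_id s).mul_const v).const_add q
  have key : ∀ s ∈ Set.Icc (0 : ℝ) 1, _ := fun s hs =>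
    B3_pt (s := s) hq hpq hκ0 hκ1 hu hv hs.1 hs.2
  obtain ⟨φ₂, hφ⟩ := term_deriv (X := X) (Z := Z) (C := C₁) (θ := 5 * κ) hJ hX hZ hC₁ (by positivity)
    (f := fun s => (p + s * u) ^ 2 - (q + s * v) ^ 2)
    (f₁ := fun s => 2 * ((p + s * u) * u - (q + s * v) * v))
    (f₂ := fun _ => 2 * (u ^ 2 - v ^ 2))
    (g := fun s => (p + s * u) ^ 2 + (q + s * v) ^ 2)
    (g₁ := fun s => 2 * ((p + s * u) * u + (q + s * v) * v))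
    (g₂ := fun _ => 2 * (u ^ 2 + v ^ 2))
    (fun s hs => ⟨(((hPd s).pow 2).sub ((hQd s).pow 2)).congr_deriv (by push_cast; ring),
      ((((hPd s).mul_const u).sub ((hQd s).mul_const v)).const_mul 2).congr_deriv (by ring),
      (key s hs).1.1, (key s hs).1.2.1, (key s hs).1.2.2⟩)
    (fun s hs => ⟨(((hPd s).pow 2).add ((hQd s).pow 2)).congr_deriv (by push_cast; ring),
      ((((hPd s).mul_const u).add ((hQd s).mul_const v)).const_mul 2).congr_deriv (by ring),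
      (key s hs).2.1.2.1, (key s hs).2.1.2.2.1, (key s hs).2.1.2.2.2⟩)
  obtain ⟨ψ₂, hψ⟩ := term_deriv (X := Y) (Z := Z) (C := C₂) (θ := 5 * κ) hJ hY hZ hC₂ (by positivity)
    (f := fun s => (p + s * u) * (q + s * v))
    (f₁ := fun s => u * (q + s * v) + (p + s * u) * v)
    (f₂ := fun _ => 2 * (u * v))
    (g := fun s => (p + s * u) ^ 2 + (q + s * v) ^ 2)
    (g₁ := fun s => 2 * ((p + s * u) * u + (q + s * v) * v))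
    (g₂ := fun _ => 2 * (u ^ 2 + v ^ 2))
    (fun s hs => ⟨((hPd s).mul (hQd s)).congr_deriv (by ring),
      (((hQd s).const_mul u).add ((hPd s).mul_const v)).congr_deriv (by ring),
      (key s hs).2.1.1.1, (key s hs).2.1.1.2.1, (key s hs).2.1.1.2.2⟩)
    (fun s hs => ⟨(((hPd s).pow 2).add ((hQd s).pow 2)).congr_deriv (by push_cast; ring),
      ((((hPd s).mul_const u).add ((hQd s).mul_const v)).const_mul 2).congr_deriv (by ring),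
      (key s hs).2.1.2.1, (key s hs).2.1.2.2.1, (key s hs).2.1.2.2.2⟩)
  have hpq2 : 0 < p ^ 2 - q ^ 2 := by nlinarith
  have hR := rolle_bound (B := 1000 * J ^ 2 * κ ^ 2)
    (fun s hs => (hφ s hs).1.add (hψ s hs).1)
    (fun s hs => (hφ s hs).2.1.add (hψ s hs).2.1)
    (fun s hs => by
      obtain ⟨⟨hf0, _⟩, ⟨⟨hh0, _⟩, ⟨hg0, _⟩⟩, hm1, hm2, hm3⟩ := key s hs
      have t1 := (hφ s hs).2.2
      have t2 := (hψ s hs).2.2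
      have g1 := B3_grow (C := C₁) hX hZ hC₁ hκ0 hκ hf0 hpq2 (by positivity) hm1 hm3 hκ1
      have g2 := B3_grow (C := C₂) hY hZ hC₂ hκ0 hκ hh0 (mul_pos hp hq) (by positivity) hm2 hm3 hκ1
      unfold e₁ e₂ at h0
      have hJκ : 0 ≤ (J : ℝ) ^ 2 * κ ^ 2 := by positivity
      have hθ : 0 ≤ 8 * (J : ℝ) ^ 2 * (5 * κ) ^ 2 := by positivity
      have t1' := t1.trans (mul_le_mul_of_nonneg_left g1 hθ)
      have t2' := t2.trans (mul_le_mul_of_nonneg_left g2 hθ)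
      refine (abs_add_le _ _).trans ((add_le_add t1' t2').trans ?_)
      rw [← mul_add, ← mul_add, h0]
      nlinarith)
    (by
      unfold e₁ e₂ at h0 h1
      show C₁ * ((p + 0 * u) ^ 2 - (q + 0 * v) ^ 2) ^ X / ((p + 0 * u) ^ 2 + (q + 0 * v) ^ 2) ^ Z +
        C₂ * ((p + 0 * u) * (q + 0 * v)) ^ Y / ((p + 0 * u) ^ 2 + (q + 0 * v) ^ 2) ^ Z =
        C₁ * ((p + 1 * u) ^ 2 - (q + 1 * v) ^ 2) ^ X / ((p + 1 * u) ^ 2 + (q + 1 * v) ^ 2) ^ Z +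
        C₂ * ((p + 1 * u) * (q + 1 * v)) ^ Y / ((p + 1 * u) ^ 2 + (q + 1 * v) ^ 2) ^ Z
      simp only [zero_mul, add_zero, one_mul]
      rw [h0, h1])
  unfold e₁ e₂
  simp only [zero_mul, add_zero] at hR
  exact hR

end JB95
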