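import Pool.Agent.LibJB95.B3
namespace JB95

/-- The value of the linear form in the direction of the point. -/
private theorem B4_ge {J X Y Z : ℕ} (hJ : 1 ≤ J) (hX : X ≤ J) (hY : Y ≤ J) (hZ : Z ≤ J)
    {C₁ C₂ p q : ℝ} (hC₁ : 0 < C₁) (hC₂ : 0 < C₂) (hq : 0 < q) (hpq : 2 * q ≤ p)
    (hp8 : 8 * (J : ℝ) ≤ p ^ 2) (g : Good C₁ C₂ X Y Z p q) :
    1 ≤ e₁ C₁ X Z p q * (2 * X - 2 * Z) + e₂ C₂ Y Z p q * (2 * Y - 2 * Z) := by
  obtain ⟨h1, h2⟩ := g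
  have hJ1 : (1 : ℝ) ≤ J := by exact_mod_cast hJ
  have hp : 0 < p := by linarith
  have hpq2 : 0 < p ^ 2 - q ^ 2 := by nlinarith
  have he1 : 0 ≤ e₁ C₁ X Z p q := by
    unfold e₁
    positivity
  have he2 : 0 ≤ e₂ C₂ Y Z p q := by
    unfold e₂
    positivity
  have hsmall : 2 / p ^ 2 ≤ 1 / (4 * J) := by
    rw [div_le_div_iff₀ (by positivity) (by positivity)]
    linarith
  have hJinv : (J : ℝ) * (1 / (4 * J)) = 1 / 4 := by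
    field_simp
  have hJinv2 : (1 : ℝ) / (4 * J) ≤ 1 / 4 := by
    rw [div_le_div_iff₀ (by positivity) (by norm_num)]
    linarith
  set a := e₁ C₁ X Z p q with ha
  set b := e₂ C₂ Y Z p q with hb
  rcases h2 with ⟨hx, hy⟩ | ⟨hx, hy, hs⟩ | ⟨hy, hx, hs⟩
  · have hx' : (Z : ℝ) + 1 ≤ X := by exact_mod_cast hx
    have hy' : (Z : ℝ) + 1 ≤ Y := by exact_mod_cast hy
    have k1 : a * 2 ≤ a * (2 * X - 2 * Z) := mul_le_mul_of_nonneg_left (by linarith) he1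
    have k2 : b * 2 ≤ b * (2 * Y - 2 * Z) := mul_le_mul_of_nonneg_left (by linarith) he2
    linarith
  · have hy' : (Z : ℝ) + 1 ≤ Y := by exact_mod_cast hy
    have hZ' : (Z : ℝ) ≤ J := by exact_mod_cast hZ
    have hX0 : (0 : ℝ) ≤ X := Nat.cast_nonneg X
    have hs' : a ≤ 1 / (4 * J) := hs.trans hsmall
    have k1 : a * (-(2 * J)) ≤ a * (2 * X - 2 * Z) := mul_le_mul_of_nonneg_left (by linarith) he1
    have k2 : b * 2 ≤ b * (2 * Y - 2 * Z) := mul_le_mul_of_nonneg_left (by linarith) he2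
    have k3 : J * a ≤ J * (1 / (4 * J)) := mul_le_mul_of_nonneg_left hs' (by linarith)
    linarith
  · have hx' : (Z : ℝ) + 1 ≤ X := by exact_mod_cast hx
    have hZ' : (Z : ℝ) ≤ J := by exact_mod_cast hZ
    have hY0 : (0 : ℝ) ≤ Y := Nat.cast_nonneg Y
    have hs' : b ≤ 1 / (4 * J) := hs.trans hsmall
    have k1 : a * 2 ≤ a * (2 * X - 2 * Z) := mul_le_mul_of_nonneg_left (by linarith) he1
    have k2 : b * (-(2 * J)) ≤ b * (2 * Y - 2 * Z) := mul_le_mul_of_nonneg_left (by linarith) he2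
    have k3 : J * b ≤ J * (1 / (4 * J)) := mul_le_mul_of_nonneg_left hs' (by linarith)
    linarith

/-- Three solutions which are close to each other are collinear.  Let `u = (p' - p, q' - q)`,
`v = (p'' - p, q'' - q)`, `Δ = u₁v₂ - u₂v₁`. If `Δ ≠ 0` then `|Δ| ≥ 1` and `(p, q) = α u + β v`
with `α = (p v₂ - q v₁)/Δ`, `β = (u₁ q - u₂ p)/Δ`, `|α|, |β| ≤ 2κpq`. The expression in `dir_bound`
is linear in the direction; in the direction `(p, q)` it is `2(X-Z) e₁ + 2(Y-Z) e₂ ≥ 1` (`Good`,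
`p² ≥ 8J`). Hence `1 ≤ 4κpq * 1000 J²κ²`, a contradiction. -/
theorem three_pts {J X Y Z : ℕ} (hJ : 1 ≤ J) (hX : X ≤ J) (hY : Y ≤ J) (hZ : Z ≤ J)
    {C₁ C₂ κ : ℝ} (hC₁ : 0 < C₁) (hC₂ : 0 < C₂) {p q p' q' p'' q'' : ℤ}
    (hq : 0 < q) (hpq : 2 * q ≤ p) (hκ0 : 0 ≤ κ) (hκ : 16 * J * κ ≤ 1)
    (h1 : |((p' - p : ℤ) : ℝ)| ≤ κ * p) (h2 : |((q' - q : ℤ) : ℝ)| ≤ κ * q)
    (h3 : |((p'' - p : ℤ) : ℝ)| ≤ κ * p) (h4 : |((q'' - q : ℤ) : ℝ)| ≤ κ * q)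
    (hp : 8 * (J : ℝ) ≤ (p : ℝ) ^ 2)
    (g : Good C₁ C₂ X Y Z p q) (g' : Good C₁ C₂ X Y Z p' q') (g'' : Good C₁ C₂ X Y Z p'' q'')
    (hbig : 4000 * J ^ 2 * κ ^ 3 * (p * q) < 1) :
    (p' - p) * (q'' - q) - (p'' - p) * (q' - q) = 0 := by
  by_contra hne
  have hqR : (0 : ℝ) < q := by exact_mod_cast hq
  have hpqR : 2 * (q : ℝ) ≤ p := by exact_mod_cast hpq
  have hpR : (0 : ℝ) < p := by linarith
  have hge := B4_ge hJ hX hY hZ hC₁ hC₂ hqR hpqR hp g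
  have hd1 := dir_bound hJ hX hY hZ hC₁ hC₂ hqR hpqR hκ0 hκ h1 h2 g.1 (by
    have e1 : (p : ℝ) + ((p' - p : ℤ) : ℝ) = p' := by push_cast; ring
    have e2 : (q : ℝ) + ((q' - q : ℤ) : ℝ) = q' := by push_cast; ring
    rw [e1, e2]
    exact g'.1)
  have hd2 := dir_bound hJ hX hY hZ hC₁ hC₂ hqR hpqR hκ0 hκ h3 h4 g.1 (by
    have e1 : (p : ℝ) + ((p'' - p : ℤ) : ℝ) = p'' := by push_cast; ring
    have e2 : (q : ℝ) + ((q'' - q : ℤ) : ℝ) = q'' := by push_cast; ring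
    rw [e1, e2]
    exact g''.1)
  have hΔ : (1 : ℝ) ≤ |(((p' - p) * (q'' - q) - (p'' - p) * (q' - q) : ℤ) : ℝ)| := by
    have : 1 ≤ |(p' - p) * (q'' - q) - (p'' - p) * (q' - q)| := Int.one_le_abs hne
    exact_mod_cast this
  have hΔe : (((p' - p) * (q'' - q) - (p'' - p) * (q' - q) : ℤ) : ℝ) =
      ((p' - p : ℤ) : ℝ) * ((q'' - q : ℤ) : ℝ) - ((p'' - p : ℤ) : ℝ) * ((q' - q : ℤ) : ℝ) := by
    push_cast
    ring
  rw [hΔe] at hΔ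
  generalize ((p' - p : ℤ) : ℝ) = u₁ at *
  generalize ((q' - q : ℤ) : ℝ) = u₂ at *
  generalize ((p'' - p : ℤ) : ℝ) = w₁ at *
  generalize ((q'' - q : ℤ) : ℝ) = w₂ at *
  generalize hP : (p : ℝ) = P at *
  generalize hQ : (q : ℝ) = Q at *
  generalize e₁ C₁ X Z P Q = a at *
  generalize e₂ C₂ Y Z P Q = b at *
  have hpq2 : P ^ 2 - Q ^ 2 ≠ 0 := by
    have : 0 < P ^ 2 - Q ^ 2 := by nlinarith
    exact this.ne'
  have hpq3 : P ^ 2 + Q ^ 2 ≠ 0 := by positivity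
  set F₁ := a * (X * (2 * (P * u₁ - Q * u₂) / (P ^ 2 - Q ^ 2)) -
        Z * (2 * (P * u₁ + Q * u₂) / (P ^ 2 + Q ^ 2))) +
      b * (Y * ((u₁ * Q + P * u₂) / (P * Q)) -
        Z * (2 * (P * u₁ + Q * u₂) / (P ^ 2 + Q ^ 2))) with hF₁
  set F₂ := a * (X * (2 * (P * w₁ - Q * w₂) / (P ^ 2 - Q ^ 2)) -
        Z * (2 * (P * w₁ + Q * w₂) / (P ^ 2 + Q ^ 2))) +
      b * (Y * ((w₁ * Q + P * w₂) / (P * Q)) -
        Z * (2 * (P * w₁ + Q * w₂) / (P ^ 2 + Q ^ 2))) with hF₂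
  have hlin : (u₁ * w₂ - w₁ * u₂) * (a * (2 * X - 2 * Z) + b * (2 * Y - 2 * Z)) =
      (P * w₂ - Q * w₁) * F₁ + (u₁ * Q - u₂ * P) * F₂ := by
    rw [hF₁, hF₂]
    field_simp
    ring
  have hα : |P * w₂ - Q * w₁| ≤ 2 * κ * (P * Q) := by
    have k1 : |P * w₂| ≤ P * (κ * Q) := by
      rw [abs_mul, abs_of_pos hpR]
      exact mul_le_mul_of_nonneg_left h4 hpR.le
    have k2 : |Q * w₁| ≤ Q * (κ * P) := by
      rw [abs_mul, abs_of_pos hqR]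
      exact mul_le_mul_of_nonneg_left h3 hqR.le
    refine (abs_sub _ _).trans ?_
    linarith
  have hβ : |u₁ * Q - u₂ * P| ≤ 2 * κ * (P * Q) := by
    have k1 : |u₁ * Q| ≤ κ * P * Q := by
      rw [abs_mul, abs_of_pos hqR]
      exact mul_le_mul_of_nonneg_right h1 hqR.le
    have k2 : |u₂ * P| ≤ κ * Q * P := by
      rw [abs_mul, abs_of_pos hpR]
      exact mul_le_mul_of_nonneg_right h2 hpR.le
    refine (abs_sub _ _).trans ?_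
    linarith
  have hPQ0 : 0 ≤ 2 * κ * (P * Q) := by positivity
  have hbound : |(P * w₂ - Q * w₁) * F₁ + (u₁ * Q - u₂ * P) * F₂| ≤
      2 * κ * (P * Q) * (1000 * J ^ 2 * κ ^ 2) + 2 * κ * (P * Q) * (1000 * J ^ 2 * κ ^ 2) := by
    refine (abs_add_le _ _).trans (add_le_add ?_ ?_)
    · rw [abs_mul]
      exact mul_le_mul hα hd1 (abs_nonneg _) hPQ0
    · rw [abs_mul]
      exact mul_le_mul hβ hd2 (abs_nonneg _) hPQ0
  have hlow : 1 ≤ |(u₁ * w₂ - w₁ * u₂) * (a * (2 * X - 2 * Z) + b * (2 * Y - 2 * Z))| := by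
    rw [abs_mul]
    have := hge.trans (le_abs_self _)
    nlinarith [abs_nonneg (u₁ * w₂ - w₁ * u₂)]
  rw [hlin] at hlow
  have hfin := hlow.trans hbound
  nlinarith

end JB95
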