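import Pool.Agent.LibJB95.Defs
namespace JB95

private theorem B5_var1 {r r' δ : ℝ} (hr : 0 < r) (hrr : r ≤ r') (hr' : r' ≤ 1 / 2)
    (h : Real.log r' - Real.log r ≤ δ) :
    |Real.log (1 - r' ^ 2) - Real.log (1 - r ^ 2)| ≤ 2 / 3 * δ ∧
      |Real.log (1 + r' ^ 2) - Real.log (1 + r ^ 2)| ≤ 1 / 2 * δ := by
  have hr0' : 0 < r' := lt_of_lt_of_le hr hrr
  have hsq : r ^ 2 ≤ r' ^ 2 := pow_le_pow_left₀ hr.le hrr 2
  have hsq' : r' ^ 2 ≤ 1 / 4 := by
    have := pow_le_pow_left₀ hr0'.le hr' 2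
    linarith
  have hδ : 0 ≤ δ := le_trans (sub_nonneg.2 (Real.log_le_log hr hrr)) h
  have h1 : 1 - (r / r') ^ 2 ≤ 2 * δ := by
    have hx : 0 < (r / r') ^ 2 := by positivity
    have h2 := Real.log_le_sub_one_of_pos (inv_pos.2 hx)
    have h3 := Real.log_le_sub_one_of_pos hx
    have h4 := Real.one_sub_inv_le_log_of_pos (inv_pos.2 hx)
    rw [inv_inv, Real.log_inv, Real.log_pow, Real.log_div hr.ne' hr0'.ne'] at h4
    push_cast at h4
    linarith
  have h2 : r' ^ 2 - r ^ 2 ≤ 1 / 2 * δ := by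
    have e : r' ^ 2 - r ^ 2 = r' ^ 2 * (1 - (r / r') ^ 2) := by
      field_simp
    rw [e]
    calc r' ^ 2 * (1 - (r / r') ^ 2) ≤ r' ^ 2 * (2 * δ) :=
          mul_le_mul_of_nonneg_left h1 (by positivity)
      _ ≤ 1 / 4 * (2 * δ) := mul_le_mul_of_nonneg_right hsq' (by linarith)
      _ = 1 / 2 * δ := by ring
  constructor
  · have hpos' : 0 < 1 - r' ^ 2 := by linarith
    have hpos : 0 < 1 - r ^ 2 := by linarith
    have hmono : Real.log (1 - r' ^ 2) ≤ Real.log (1 - r ^ 2) :=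
      Real.log_le_log hpos' (by linarith)
    rw [abs_sub_comm, abs_of_nonneg (by linarith)]
    have h3 := Real.log_le_sub_one_of_pos (div_pos hpos hpos')
    rw [Real.log_div hpos.ne' hpos'.ne'] at h3
    have h4 : (1 - r ^ 2) / (1 - r' ^ 2) - 1 ≤ 2 / 3 * δ := by
      have e : (1 - r ^ 2) / (1 - r' ^ 2) - 1 = (r' ^ 2 - r ^ 2) / (1 - r' ^ 2) := by
        field_simp
        ring
      rw [e, div_le_iff₀ hpos']
      have : 2 / 3 * δ * (3 / 4) ≤ 2 / 3 * δ * (1 - r' ^ 2) :=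
        mul_le_mul_of_nonneg_left (by linarith) (by linarith)
      linarith
    linarith
  · have hpos' : 0 < 1 + r' ^ 2 := by positivity
    have hpos : 0 < 1 + r ^ 2 := by positivity
    have hmono : Real.log (1 + r ^ 2) ≤ Real.log (1 + r' ^ 2) :=
      Real.log_le_log hpos (by linarith)
    rw [abs_of_nonneg (by linarith)]
    have h3 := Real.log_le_sub_one_of_pos (div_pos hpos' hpos)
    rw [Real.log_div hpos'.ne' hpos.ne'] at h3
    have h4 : (1 + r' ^ 2) / (1 + r ^ 2) - 1 ≤ 1 / 2 * δ := by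
      have e : (1 + r' ^ 2) / (1 + r ^ 2) - 1 = (r' ^ 2 - r ^ 2) / (1 + r ^ 2) := by
        field_simp
        ring
      rw [e, div_le_iff₀ hpos]
      have : 1 / 2 * δ * 1 ≤ 1 / 2 * δ * (1 + r ^ 2) :=
        mul_le_mul_of_nonneg_left (by linarith [sq_nonneg r]) (by linarith)
      linarith
    linarith

private theorem B5_var {r r' δ : ℝ} (hr : 0 < r) (hr' : 0 < r') (hr2 : r ≤ 1 / 2)
    (hr2' : r' ≤ 1 / 2) (h : |Real.log r' - Real.log r| ≤ δ) :
    |Real.log (1 - r' ^ 2) - Real.log (1 - r ^ 2)| ≤ 2 / 3 * δ ∧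
      |Real.log (1 + r' ^ 2) - Real.log (1 + r ^ 2)| ≤ 1 / 2 * δ := by
  rcases le_total r r' with hle | hle
  · exact B5_var1 hr hle hr2' ((le_abs_self _).trans h)
  · rw [abs_sub_comm (Real.log (1 - r' ^ 2)), abs_sub_comm (Real.log (1 + r' ^ 2))]
    rw [abs_sub_comm] at h
    exact B5_var1 hr' hle hr2 ((le_abs_self _).trans h)

private theorem B5_log1 {X Z : ℕ} {C p q : ℝ} (hC : 0 < C) (hq : 0 < q) (hpq : 2 * q ≤ p) :
    Real.log (e₁ C X Z p q) = Real.log C +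
      X * (2 * Real.log p + Real.log (1 - (q / p) ^ 2)) -
      Z * (2 * Real.log p + Real.log (1 + (q / p) ^ 2)) := by
  have hp : 0 < p := by linarith
  have h1 : 0 < p ^ 2 - q ^ 2 := by nlinarith
  have h2 : 0 < p ^ 2 + q ^ 2 := by positivity
  have e1 : p ^ 2 - q ^ 2 = p ^ 2 * (1 - (q / p) ^ 2) := by
    field_simp
  have e2 : p ^ 2 + q ^ 2 = p ^ 2 * (1 + (q / p) ^ 2) := by
    field_simp
  have h3 : 0 < 1 - (q / p) ^ 2 := by
    rw [e1] at h1
    exact pos_of_mul_pos_right h1 (by positivity)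
  have h4 : 0 < 1 + (q / p) ^ 2 := by positivity
  unfold e₁
  rw [Real.log_div (by positivity) (by positivity), Real.log_mul hC.ne' (by positivity),
    Real.log_pow, Real.log_pow, e1, e2, Real.log_mul (by positivity) h3.ne',
    Real.log_mul (by positivity) h4.ne', Real.log_pow]
  push_cast
  ring

private theorem B5_log2 {Y Z : ℕ} {C p q : ℝ} (hC : 0 < C) (hq : 0 < q) (hpq : 2 * q ≤ p) :
    Real.log (e₂ C Y Z p q) = Real.log C +
      Y * (2 * Real.log p + Real.log (q / p)) -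
      Z * (2 * Real.log p + Real.log (1 + (q / p) ^ 2)) := by
  have hp : 0 < p := by linarith
  have h2 : 0 < p ^ 2 + q ^ 2 := by positivity
  have e1 : p * q = p ^ 2 * (q / p) := by
    field_simp
  have e2 : p ^ 2 + q ^ 2 = p ^ 2 * (1 + (q / p) ^ 2) := by
    field_simp
  have h3 : 0 < q / p := by positivity
  have h4 : 0 < 1 + (q / p) ^ 2 := by positivity
  unfold e₂
  rw [Real.log_div (by positivity) (by positivity), Real.log_mul hC.ne' (by positivity),
    Real.log_pow, Real.log_pow, e1, e2, Real.log_mul (by positivity) h3.ne',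
    Real.log_mul (by positivity) h4.ne', Real.log_pow]
  push_cast
  ring

private theorem B5_exp {x c : ℝ} (hx : |x| ≤ c) (hc : c ≤ 3 / 16) :
    |Real.exp x - 1| ≤ 19 / 16 * c := by
  have hx1 : |x| ≤ 1 := by linarith
  have h := Real.abs_exp_sub_one_sub_id_le hx1
  have h1 : |Real.exp x - 1| ≤ |x| + x ^ 2 := by
    have e : Real.exp x - 1 = (Real.exp x - 1 - x) + x := by ring
    rw [e]
    refine (abs_add_le _ _).trans ?_
    linarith
  have h2 : x ^ 2 ≤ 3 / 16 * c := by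
    rw [← sq_abs]
    have h0 := abs_nonneg x
    nlinarith
  linarith

/-- From `e ∈ [1 - τ, 1]` to the logarithm. -/
private theorem B5_logτ {e τ : ℝ} (h1 : 1 - τ ≤ e) (h2 : e ≤ 1) (hτ : τ ≤ 1 / 2) (_hτ0 : 0 ≤ τ) :
    -(2 * τ) ≤ Real.log e ∧ Real.log e ≤ 0 := by
  have he : 0 < e := by linarith
  refine ⟨?_, Real.log_nonpos he.le h2⟩
  have h3 := Real.one_sub_inv_le_log_of_pos he
  have h4 : e⁻¹ ≤ 1 + 2 * τ := by
    rw [inv_le_iff_one_le_mul₀ he]
    nlinarith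
  linarith

/-- The main estimate: `|T| ≤ 2 J δ`. -/
private theorem B5_T {J X Y Z : ℕ} (hJ : 1 ≤ J) (hX : X ≤ J) (hY : Y ≤ J) (hZ : Z ≤ J)
    {a a' b b' δ τ T A B D : ℝ} (ha : 0 < a) (ha' : 0 < a') (hb : 0 < b) (hb' : 0 < b')
    (hab : a + b = 1) (hab' : a' + b' = 1) (hδ : 0 < δ) (hδJ : 16 * J * δ ≤ 1) (hτ0 : 0 ≤ τ)
    (hτδ : τ ≤ δ) (hA : |A| ≤ 2 / 3 * δ) (hB : |B| ≤ 1 / 2 * δ) (hD : |D| ≤ δ)
    (h1 : Real.log a' - Real.log a = 2 * (X - Z) * T + X * A - Z * B)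
    (h2 : Real.log b' - Real.log b = 2 * (Y - Z) * T + Y * D - Z * B)
    (hg : (Z < X ∧ Z < Y) ∨ (X < Z ∧ Z < Y ∧ a ≤ τ ∧ a' ≤ τ) ∨
      (Y < Z ∧ Z < X ∧ b ≤ τ ∧ b' ≤ τ)) : |T| ≤ 2 * J * δ := by
  have hJ1 : (1 : ℝ) ≤ J := by exact_mod_cast hJ
  have hδJ1 : δ ≤ J * δ := le_mul_of_one_le_left hδ.le hJ1
  have hδ16 : δ ≤ 1 / 16 := by nlinarith
  have hXA : |X * A| ≤ 2 / 3 * (J * δ) := by
    rw [abs_mul, Nat.abs_cast]
    have hX' : (X : ℝ) ≤ J := by exact_mod_cast hX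
    calc (X : ℝ) * |A| ≤ J * (2 / 3 * δ) := mul_le_mul hX' hA (abs_nonneg _) (by linarith)
      _ = _ := by ring
  have hZB : |Z * B| ≤ 1 / 2 * (J * δ) := by
    rw [abs_mul, Nat.abs_cast]
    have hZ' : (Z : ℝ) ≤ J := by exact_mod_cast hZ
    calc (Z : ℝ) * |B| ≤ J * (1 / 2 * δ) := mul_le_mul hZ' hB (abs_nonneg _) (by linarith)
      _ = _ := by ring
  have hYD : |Y * D| ≤ J * δ := by
    rw [abs_mul, Nat.abs_cast]
    have hY' : (Y : ℝ) ≤ J := by exact_mod_cast hY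
    exact mul_le_mul hY' hD (abs_nonneg _) (by linarith)
  obtain ⟨hXA1, hXA2⟩ := abs_le.1 hXA
  obtain ⟨hZB1, hZB2⟩ := abs_le.1 hZB
  obtain ⟨hYD1, hYD2⟩ := abs_le.1 hYD
  rcases hg with ⟨hx, hy⟩ | ⟨_, hy, hs, hs'⟩ | ⟨_, hx, hs, hs'⟩
  · have hx' : (1 : ℝ) ≤ (X : ℝ) - Z := by
      have : (Z : ℝ) + 1 ≤ X := by exact_mod_cast hx
      linarith
    have hy' : (1 : ℝ) ≤ (Y : ℝ) - Z := by
      have : (Z : ℝ) + 1 ≤ Y := by exact_mod_cast hy
      linarith
    rw [abs_le]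
    constructor
    · by_contra hcon
      rw [not_le] at hcon
      have hT : T ≤ 0 := by nlinarith
      have k1 : ((X : ℝ) - Z) * T ≤ 1 * T := mul_le_mul_of_nonpos_right hx' hT
      have k2 : ((Y : ℝ) - Z) * T ≤ 1 * T := mul_le_mul_of_nonpos_right hy' hT
      have l1 : Real.log a' < Real.log a := by linarith
      have l2 : Real.log b' < Real.log b := by linarith
      have m1 := (Real.log_lt_log_iff ha' ha).1 l1
      have m2 := (Real.log_lt_log_iff hb' hb).1 l2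
      linarith
    · by_contra hcon
      rw [not_le] at hcon
      have hT : 0 ≤ T := by nlinarith
      have k1 : 1 * T ≤ ((X : ℝ) - Z) * T := mul_le_mul_of_nonneg_right hx' hT
      have k2 : 1 * T ≤ ((Y : ℝ) - Z) * T := mul_le_mul_of_nonneg_right hy' hT
      have l1 : Real.log a < Real.log a' := by linarith
      have l2 : Real.log b < Real.log b' := by linarith
      have m1 := (Real.log_lt_log_iff ha ha').1 l1
      have m2 := (Real.log_lt_log_iff hb hb').1 l2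
      linarith
  · have hy' : (1 : ℝ) ≤ (Y : ℝ) - Z := by
      have : (Z : ℝ) + 1 ≤ Y := by exact_mod_cast hy
      linarith
    obtain ⟨l1, l2⟩ := B5_logτ (e := b) (τ := τ) (by linarith) (by linarith) (by linarith) hτ0
    obtain ⟨l3, l4⟩ := B5_logτ (e := b') (τ := τ) (by linarith) (by linarith) (by linarith) hτ0
    rw [abs_le]
    constructor
    · by_contra hcon
      rw [not_le] at hcon
      have hT : T ≤ 0 := by nlinarith
      have k2 : ((Y : ℝ) - Z) * T ≤ 1 * T := mul_le_mul_of_nonpos_right hy' hT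
      linarith
    · by_contra hcon
      rw [not_le] at hcon
      have hT : 0 ≤ T := by nlinarith
      have k2 : 1 * T ≤ ((Y : ℝ) - Z) * T := mul_le_mul_of_nonneg_right hy' hT
      linarith
  · have hx' : (1 : ℝ) ≤ (X : ℝ) - Z := by
      have : (Z : ℝ) + 1 ≤ X := by exact_mod_cast hx
      linarith
    obtain ⟨l1, l2⟩ := B5_logτ (e := a) (τ := τ) (by linarith) (by linarith) (by linarith) hτ0
    obtain ⟨l3, l4⟩ := B5_logτ (e := a') (τ := τ) (by linarith) (by linarith) (by linarith) hτ0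
    rw [abs_le]
    constructor
    · by_contra hcon
      rw [not_le] at hcon
      have hT : T ≤ 0 := by nlinarith
      have k2 : ((X : ℝ) - Z) * T ≤ 1 * T := mul_le_mul_of_nonpos_right hx' hT
      linarith
    · by_contra hcon
      rw [not_le] at hcon
      have hT : 0 ≤ T := by nlinarith
      have k2 : 1 * T ≤ ((X : ℝ) - Z) * T := mul_le_mul_of_nonneg_right hx' hT
      linarith

/-- Two points of the curve in the same direction are close.  Put `T = log (p'/p)`,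
`r = q/p ≤ 1/2`, `r' = q'/p' ≤ 1/2`. As `|log r' - log r| ≤ δ`,
`e₁(P') = e₁(P) exp (2(X-Z)T + E₁)`, `e₂(P') = e₂(P) exp (2(Y-Z)T + E₂)` with `|E_i| ≤ 2Jδ`
(`log(1 - r²)` and `log(1 + r²)` vary by at most `(2/3)δ`, `(2/5)δ`). If `X, Y > Z` and `T > 0`:
`1 ≥ exp (2T - 2Jδ)`; similarly for `T < 0`. If, say, `X < Z < Y`: both values of `e₂` are in
`[1 - τ, 1]`, so `2|T| ≤ 2Jδ + 2τ`. Thus `|T| ≤ 2Jδ` and the claim follows. -/
theorem cell {J X Y Z : ℕ} (hJ : 1 ≤ J) (hX : X ≤ J) (hY : Y ≤ J) (hZ : Z ≤ J)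
    {C₁ C₂ p q p' q' δ τ : ℝ} (hC₁ : 0 < C₁) (hC₂ : 0 < C₂) (hq : 0 < q) (hpq : 2 * q ≤ p)
    (hq' : 0 < q') (hpq' : 2 * q' ≤ p') (hδ : 0 < δ) (hδJ : 16 * J * δ ≤ 1)
    (hτδ : τ ≤ δ) (hp : 2 / p ^ 2 ≤ τ) (hp' : 2 / p' ^ 2 ≤ τ)
    (g : Good C₁ C₂ X Y Z p q) (g' : Good C₁ C₂ X Y Z p' q')
    (hr : |Real.log (q' / p') - Real.log (q / p)| ≤ δ) :
    |p' - p| ≤ 4 * J * δ * p ∧ |q' - q| ≤ 4 * J * δ * q := by
  have hp0 : 0 < p := by linarith
  have hp0' : 0 < p' := by linarith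
  have hJ1 : (1 : ℝ) ≤ J := by exact_mod_cast hJ
  have hδJ1 : δ ≤ J * δ := le_mul_of_one_le_left hδ.le hJ1
  have hr2 : q / p ≤ 1 / 2 := by
    rw [div_le_iff₀ hp0]
    linarith
  have hr2' : q' / p' ≤ 1 / 2 := by
    rw [div_le_iff₀ hp0']
    linarith
  obtain ⟨hA, hB⟩ := B5_var (div_pos hq hp0) (div_pos hq' hp0') hr2 hr2' hr
  have hpq2 : 0 < p ^ 2 - q ^ 2 := by nlinarith
  have hpq2' : 0 < p' ^ 2 - q' ^ 2 := by nlinarith
  have ha : 0 < e₁ C₁ X Z p q := by unfold e₁; positivity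
  have ha' : 0 < e₁ C₁ X Z p' q' := by unfold e₁; positivity
  have hb : 0 < e₂ C₂ Y Z p q := by unfold e₂; positivity
  have hb' : 0 < e₂ C₂ Y Z p' q' := by unfold e₂; positivity
  have hτ0 : 0 ≤ τ := le_trans (by positivity) hp
  have hT : |Real.log p' - Real.log p| ≤ 2 * J * δ := by
    refine B5_T hJ hX hY hZ ha ha' hb hb' g.1 g'.1 hδ hδJ hτ0 hτδ hA hB hr ?_ ?_ ?_
    · rw [B5_log1 hC₁ hq hpq, B5_log1 hC₁ hq' hpq']
      ring
    · rw [B5_log2 hC₂ hq hpq, B5_log2 hC₂ hq' hpq']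
      ring
    · rcases g.2 with h | ⟨h1, h2, h3⟩ | ⟨h1, h2, h3⟩
      · exact Or.inl h
      · refine Or.inr (Or.inl ⟨h1, h2, h3.trans hp, ?_⟩)
        rcases g'.2 with h | ⟨_, _, h3'⟩ | ⟨h1', h2', _⟩
        · omega
        · exact h3'.trans hp'
        · omega
      · refine Or.inr (Or.inr ⟨h1, h2, h3.trans hp, ?_⟩)
        rcases g'.2 with h | ⟨h1', h2', _⟩ | ⟨_, _, h3'⟩
        · omega
        · omega
        · exact h3'.trans hp'
  constructor
  · have h1 := B5_exp hT (by linarith)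
    have e : Real.exp (Real.log p' - Real.log p) = p' / p := by
      rw [Real.exp_sub, Real.exp_log hp0', Real.exp_log hp0]
    rw [e] at h1
    have e2 : p' - p = (p' / p - 1) * p := by
      field_simp
    rw [e2, abs_mul, abs_of_pos hp0]
    refine mul_le_mul_of_nonneg_right (h1.trans ?_) hp0.le
    nlinarith
  · have hT2 : |Real.log q' - Real.log q| ≤ 3 * J * δ := by
      rw [Real.log_div hq'.ne' hp0'.ne', Real.log_div hq.ne' hp0.ne'] at hr
      have e : Real.log q' - Real.log q = (Real.log q' - Real.log p' - (Real.log q - Real.log p)) +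
          (Real.log p' - Real.log p) := by ring
      rw [e]
      refine (abs_add_le _ _).trans ?_
      linarith
    have h1 := B5_exp hT2 (by linarith)
    have e : Real.exp (Real.log q' - Real.log q) = q' / q := by
      rw [Real.exp_sub, Real.exp_log hq', Real.exp_log hq]
    rw [e] at h1
    have e2 : q' - q = (q' / q - 1) * q := by
      field_simp
    rw [e2, abs_mul, abs_of_pos hq]
    refine mul_le_mul_of_nonneg_right (h1.trans ?_) hq.le
    nlinarith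

end JB95
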