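import Pool.Agent.LibJB95.B4
import Pool.Agent.LibJB95.B5
namespace JB95

/-- The number of lattice points on the curve.  Let `δ = 1/(64 J² P^(2/3))`, `κ = 4Jδ`
(so `16Jκ ≤ 1` and `4000 J² κ³ p q ≤ 128000/64³ < 1` as `pq ≤ P²/2`). Points with
`p < 12 J P^(1/3)`: at most `144 J² P^(2/3)`. The other points have `2/p² ≤ δ`, `p² ≥ 8J`; put them
into cells according to `⌊-log(q/p)/δ⌋ ∈ [0, 64 J² P^(2/3) log P]`; by `cell` and `three_pts` any
three points of a cell are collinear, so a cell contains at most `D` points. -/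
theorem curve_count {J X Y Z D P : ℕ} (hJ : 1 ≤ J) (hX : X ≤ J) (hY : Y ≤ J) (hZ : Z ≤ J)
    (hD : 1 ≤ D) (hP : 1 ≤ P) {C₁ C₂ : ℝ} (hC₁ : 0 < C₁) (hC₂ : 0 < C₂) (S : Finset (ℤ × ℤ))
    (hS : ∀ s ∈ S, 0 < s.2 ∧ 2 * s.2 ≤ s.1 ∧ s.1 ≤ P ∧ Good C₁ C₂ X Y Z s.1 s.2)
    (hline : ∀ s ∈ S, ∀ s' ∈ S, s ≠ s' →
      (S.filter (fun w => (s'.1 - s.1) * (w.2 - s.2) - (w.1 - s.1) * (s'.2 - s.2) = 0)).card ≤ D) :
    (S.card : ℝ) ≤ 144 * J ^ 2 * (P : ℝ) ^ (2 / 3 : ℝ) +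
      D * (64 * J ^ 2 * (P : ℝ) ^ (2 / 3 : ℝ) * Real.log P + 1) := by
  classical
  have hJR : (1 : ℝ) ≤ J := by exact_mod_cast hJ
  have hPR : (1 : ℝ) ≤ P := by exact_mod_cast hP
  have hP0 : (0 : ℝ) < P := by linarith
  set c : ℝ := (P : ℝ) ^ (1 / 3 : ℝ) with hc
  have hc1 : 1 ≤ c := Real.one_le_rpow hPR (by norm_num)
  have hc3 : c ^ 3 = P := by
    rw [hc, ← Real.rpow_natCast, ← Real.rpow_mul hP0.le]
    norm_num
  have hR : (P : ℝ) ^ (2 / 3 : ℝ) = c ^ 2 := by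
    rw [hc, ← Real.rpow_natCast, ← Real.rpow_mul hP0.le]
    norm_num
  rw [hR]
  have hlogP : 0 ≤ Real.log P := Real.log_nonneg hPR
  set δ : ℝ := 1 / (64 * J ^ 2 * c ^ 2) with hδ
  have hden : 0 < 64 * (J : ℝ) ^ 2 * c ^ 2 := by positivity
  have hδ0 : 0 < δ := by positivity
  have hδe : δ * (64 * J ^ 2 * c ^ 2) = 1 := by rw [hδ]; field_simp
  have hδJ : 64 * (J : ℝ) ^ 2 * δ ≤ 1 := by
    have h1 : 64 * (J : ℝ) ^ 2 * δ * c ^ 2 = 1 := by rw [← hδe]; ring
    have h2 : 0 ≤ 64 * (J : ℝ) ^ 2 * δ := by positivity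
    have h3 : 1 ≤ c ^ 2 := by nlinarith
    nlinarith
  -- the two parts
  set S₁ := S.filter (fun s => (s.1 : ℝ) < 12 * J * c) with hS₁
  set S₂ := S.filter (fun s => ¬ (s.1 : ℝ) < 12 * J * c) with hS₂
  have hsplit : S.card = S₁.card + S₂.card := by
    rw [hS₁, hS₂]
    exact (Finset.card_filter_add_card_filter_not _).symm
  have h1 : (S₁.card : ℝ) ≤ 144 * J ^ 2 * c ^ 2 := by
    set x : ℕ := ⌊12 * (J : ℝ) * c⌋₊ with hx
    have hxle : (x : ℝ) ≤ 12 * J * c := Nat.floor_le (by positivity)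
    have hsub : S₁ ⊆ Finset.Icc (1 : ℤ) x ×ˢ Finset.Icc (1 : ℤ) x := by
      intro s hs
      rw [hS₁, Finset.mem_filter] at hs
      obtain ⟨hsS, hlt⟩ := hs
      obtain ⟨q1, q2, q3, _⟩ := hS s hsS
      have hsx : s.1 ≤ (x : ℤ) := by
        have hs0 : 0 ≤ s.1 := by omega
        have h2 : s.1.toNat ≤ x := by
          rw [hx]
          apply Nat.le_floor
          have : ((s.1.toNat : ℕ) : ℝ) = (s.1 : ℝ) := by
            have := Int.toNat_of_nonneg hs0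
            exact_mod_cast this
          rw [this]
          exact hlt.le
        omega
      rw [Finset.mem_product, Finset.mem_Icc, Finset.mem_Icc]
      exact ⟨⟨by omega, hsx⟩, ⟨by omega, by omega⟩⟩
    have h2 := Finset.card_le_card hsub
    rw [Finset.card_product, Int.card_Icc] at h2
    have h3 : ((x : ℤ) + 1 - 1).toNat = x := by simp
    rw [h3] at h2
    have h4 : (S₁.card : ℝ) ≤ (x : ℝ) * x := by exact_mod_cast h2
    have h5 : (0 : ℝ) ≤ x := Nat.cast_nonneg _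
    nlinarith
  -- facts about the points of S₂
  have hpt : ∀ s ∈ S₂, (0 : ℝ) < s.2 ∧ 2 * (s.2 : ℝ) ≤ s.1 ∧ (s.1 : ℝ) ≤ P ∧
      2 / (s.1 : ℝ) ^ 2 ≤ δ ∧ 8 * (J : ℝ) ≤ (s.1 : ℝ) ^ 2 ∧
      0 ≤ -Real.log ((s.2 : ℝ) / s.1) ∧ -Real.log ((s.2 : ℝ) / s.1) ≤ Real.log P := by
    intro s hs
    rw [hS₂, Finset.mem_filter] at hs
    obtain ⟨hsS, hge⟩ := hs
    push Not at hge
    obtain ⟨q1, q2, q3, _⟩ := hS s hsS
    have r1 : (0 : ℝ) < s.2 := by exact_mod_cast q1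
    have r1' : (1 : ℝ) ≤ s.2 := by exact_mod_cast q1
    have r2 : 2 * (s.2 : ℝ) ≤ s.1 := by exact_mod_cast q2
    have r3 : (s.1 : ℝ) ≤ P := by exact_mod_cast q3
    have r4 : (0 : ℝ) < s.1 := by linarith
    have r5 : 144 * (J : ℝ) ^ 2 * c ^ 2 ≤ (s.1 : ℝ) ^ 2 := by
      have : (12 * (J : ℝ) * c) ^ 2 ≤ (s.1 : ℝ) ^ 2 := pow_le_pow_left₀ (by positivity) hge 2
      nlinarith
    refine ⟨r1, r2, r3, ?_, ?_, ?_, ?_⟩
    · rw [div_le_iff₀ (by positivity)]
      nlinarith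
    · have e1 : 1 ≤ c ^ 2 := by nlinarith
      have e2 : (J : ℝ) ≤ J ^ 2 := by nlinarith
      nlinarith
    · rw [neg_nonneg]
      apply Real.log_nonpos (by positivity)
      rw [div_le_one r4]
      linarith
    · rw [← Real.log_inv, inv_div]
      apply Real.log_le_log (by positivity)
      rw [div_le_iff₀ r1]
      nlinarith
  -- the cells
  let φ : ℤ × ℤ → ℕ := fun s => ⌊-Real.log ((s.2 : ℝ) / s.1) / δ⌋₊
  set N : ℕ := ⌊Real.log P / δ⌋₊ with hN
  have hmaps : ∀ s ∈ S₂, φ s ∈ Finset.range (N + 1) := by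
    intro s hs
    obtain ⟨_, _, _, _, _, g1, g2⟩ := hpt s hs
    rw [Finset.mem_range, Nat.lt_succ_iff]
    exact Nat.floor_le_floor (div_le_div_of_nonneg_right g2 hδ0.le)
  have hfib : ∀ b ∈ Finset.range (N + 1), (S₂.filter (fun s => φ s = b)).card ≤ D := by
    intro b _
    by_contra hcon
    push Not at hcon
    have h2 : 1 < (S₂.filter (fun s => φ s = b)).card := by omega
    obtain ⟨s, hs, s', hs', hne⟩ := Finset.one_lt_card.1 h2
    rw [Finset.mem_filter] at hs hs'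
    have hsS : s ∈ S := (Finset.mem_filter.1 hs.1).1
    have hsS' : s' ∈ S := (Finset.mem_filter.1 hs'.1).1
    -- closeness of any two points of the cell
    have hclose : ∀ w ∈ S₂, φ w = b → |((w.1 - s.1 : ℤ) : ℝ)| ≤ 4 * J * δ * s.1 ∧
        |((w.2 - s.2 : ℤ) : ℝ)| ≤ 4 * J * δ * s.2 := by
      intro w hw hwb
      obtain ⟨a1, a2, a3, a4, a5, a6, a7⟩ := hpt s hs.1
      obtain ⟨b1, b2, b3, b4, b5, b6, b7⟩ := hpt w hw
      have hwS : w ∈ S := (Finset.mem_filter.1 hw).1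
      have g := (hS s hsS).2.2.2
      have g' := (hS w hwS).2.2.2
      have hr : |Real.log ((w.2 : ℝ) / w.1) - Real.log ((s.2 : ℝ) / s.1)| ≤ δ := by
        have i1 : φ w = φ s := hwb.trans hs.2.symm
        set A := -Real.log ((w.2 : ℝ) / w.1) / δ with hA
        set B := -Real.log ((s.2 : ℝ) / s.1) / δ with hB
        have iA0 : 0 ≤ A := by positivity
        have iB0 : 0 ≤ B := by positivity
        have i2 := Nat.lt_floor_add_one A
        have i3 := Nat.floor_le iA0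
        have i4 := Nat.lt_floor_add_one B
        have i5 := Nat.floor_le iB0
        have i6 : (⌊A⌋₊ : ℝ) = (⌊B⌋₊ : ℝ) := by exact_mod_cast i1
        have i7 : Real.log ((w.2 : ℝ) / w.1) - Real.log ((s.2 : ℝ) / s.1) = (B - A) * δ := by
          rw [hA, hB]; field_simp; ring
        rw [i7, abs_mul, abs_of_pos hδ0]
        have i8 : |B - A| ≤ 1 := by rw [abs_le]; constructor <;> linarith
        nlinarith
      have hcell := cell (J := J) hJ hX hY hZ hC₁ hC₂ a1 a2 b1 b2 hδ0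
        (by nlinarith [mul_pos (show (0 : ℝ) < J by linarith) hδ0]) (le_refl δ) a4 b4 g g' hr
      push_cast
      exact hcell
    have hsubset : S₂.filter (fun s => φ s = b) ⊆
        S.filter (fun w => (s'.1 - s.1) * (w.2 - s.2) - (w.1 - s.1) * (s'.2 - s.2) = 0) := by
      intro w hw
      rw [Finset.mem_filter] at hw ⊢
      have hwS : w ∈ S := (Finset.mem_filter.1 hw.1).1
      refine ⟨hwS, ?_⟩
      obtain ⟨a1, a2, a3, a4, a5, a6, a7⟩ := hpt s hs.1
      obtain ⟨c1, c2⟩ := hclose s' hs'.1 hs'.2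
      obtain ⟨c3, c4⟩ := hclose w hw.1 hw.2
      have g := (hS s hsS).2.2.2
      have g' := (hS s' hsS').2.2.2
      have g'' := (hS w hwS).2.2.2
      have hq := (hS s hsS).1
      have hpq := (hS s hsS).2.1
      refine three_pts (J := J) hJ hX hY hZ hC₁ hC₂ (κ := 4 * J * δ) hq hpq (by positivity) ?_
        c1 c2 c3 c4 a5 g g' g'' ?_
      · nlinarith
      · -- 4000 J² κ³ p q < 1
        have k1 : 4 * (J : ℝ) * δ * (16 * J * c ^ 2) = 1 := by rw [← hδe]; ring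
        have k2 : (s.1 : ℝ) * s.2 ≤ (P : ℝ) ^ 2 / 2 := by
          have : (0 : ℝ) < s.1 := by linarith
          nlinarith
        have k3 : (P : ℝ) ^ 2 = c ^ 6 := by rw [← hc3]; ring
        have k4 : (4 * (J : ℝ) * δ) ^ 3 * (4096 * J ^ 3 * c ^ 6) = 1 := by
          have : (4 * (J : ℝ) * δ) ^ 3 * (4096 * J ^ 3 * c ^ 6) =
              (4 * (J : ℝ) * δ * (16 * J * c ^ 2)) ^ 3 := by ring
          rw [this, k1]; norm_num
        have k5 : 0 < (4 * (J : ℝ) * δ) ^ 3 := by positivity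
        have k6 : 0 < c ^ 6 := by positivity
        have k7 : (J : ℝ) ^ 2 ≤ J ^ 3 := by nlinarith [sq_nonneg (J : ℝ)]
        calc 4000 * (J : ℝ) ^ 2 * (4 * J * δ) ^ 3 * (s.1 * s.2) ≤
            4000 * (J : ℝ) ^ 3 * (4 * J * δ) ^ 3 * (c ^ 6 / 2) := by
              rw [k3] at k2
              have k8 : (0 : ℝ) ≤ s.1 * s.2 := by
                have : (0 : ℝ) < s.1 := by linarith
                positivity
              have k9 : 4000 * (J : ℝ) ^ 2 * (4 * J * δ) ^ 3 ≤ 4000 * (J : ℝ) ^ 3 * (4 * J * δ) ^ 3 := by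
                nlinarith
              exact mul_le_mul k9 k2 k8 (by positivity)
          _ = 4000 / 8192 * ((4 * (J : ℝ) * δ) ^ 3 * (4096 * J ^ 3 * c ^ 6)) := by ring
          _ < 1 := by rw [k4]; norm_num
    have h3 := (Finset.card_le_card hsubset).trans (hline s hsS s' hsS' hne)
    omega
  have h2 := Finset.card_le_mul_card_image_of_maps_to hmaps D hfib
  rw [Finset.card_range] at h2
  have h3 : (S₂.card : ℝ) ≤ D * (64 * J ^ 2 * c ^ 2 * Real.log P + 1) := by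
    have e1 : (S₂.card : ℝ) ≤ D * ((N : ℝ) + 1) := by exact_mod_cast h2
    have e2 : (N : ℝ) ≤ 64 * J ^ 2 * c ^ 2 * Real.log P := by
      have : (N : ℝ) ≤ Real.log P / δ := Nat.floor_le (by positivity)
      refine this.trans (le_of_eq ?_)
      rw [hδ]; field_simp
    have e3 : (0 : ℝ) ≤ D := Nat.cast_nonneg _
    nlinarith
  rw [hsplit]
  push_cast
  linarith

end JB95
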