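import Pool.Agent.LibJB95.B10
import Pool.Agent.LibJes95.H1
namespace JB95
open Jes95 (Adm Jes Prim)

/-- The multiples by `k` of the primitive triples with hypotenuse at most `C`: `total_count` with
`M = ⌊√C⌋` (`m² ≤ C`), twice (two orders of the legs, `Jes95.prim_param`, `Jes95.jes_symm`). -/
theorem prim_exc (ε : ℝ) (hε : 0 < ε) : ∃ K : ℝ, 0 < K ∧ ∀ k C : ℕ, 0 < k → 1 ≤ C →
    (({t : ℕ × ℕ × ℕ | Prim t.1 t.2.1 t.2.2 ∧ t.2.2 ≤ C ∧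
      ¬ Jes (k * t.1) (k * t.2.1) (k * t.2.2)}).ncard : ℝ) ≤
      K * (k : ℝ) ^ ε * (C : ℝ) ^ (1 / 3 + ε) := by
  obtain ⟨K, hK, hmain⟩ := total_count ε hε
  refine ⟨2 * K, by positivity, fun k C hk hC => ?_⟩
  set M := Nat.sqrt C with hMdef
  have hM1 : 1 ≤ M := by
    rw [hMdef, Nat.le_sqrt]; omega
  have h := hmain k M hk hM1
  set S : Set (ℕ × ℕ) := {p : ℕ × ℕ | Adm p.1 p.2 ∧ p.1 ≤ M ∧ ¬ Jes (k * (p.1 ^ 2 - p.2 ^ 2))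
      (k * (2 * p.1 * p.2)) (k * (p.1 ^ 2 + p.2 ^ 2))} with hS
  have hSfin : S.Finite := by
    refine ((Set.finite_Iic M).prod (Set.finite_Iic M)).subset ?_
    rintro ⟨m, n⟩ ⟨h1, h2, -⟩
    exact ⟨h2, (h1.2.1.le).trans h2⟩
  have hsub : {t : ℕ × ℕ × ℕ | Prim t.1 t.2.1 t.2.2 ∧ t.2.2 ≤ C ∧
      ¬ Jes (k * t.1) (k * t.2.1) (k * t.2.2)} ⊆
      (fun p : ℕ × ℕ => ((p.1 ^ 2 - p.2 ^ 2, 2 * p.1 * p.2, p.1 ^ 2 + p.2 ^ 2) : ℕ × ℕ × ℕ)) '' S ∪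
      (fun p : ℕ × ℕ => ((2 * p.1 * p.2, p.1 ^ 2 - p.2 ^ 2, p.1 ^ 2 + p.2 ^ 2) : ℕ × ℕ × ℕ)) '' S := by
    rintro ⟨a, b, c⟩ ⟨h1, h2, h3⟩
    simp only at h1 h2 h3
    obtain ⟨m, n, hmn, hc, hab⟩ := Jes95.prim_param h1
    have hmM : m ≤ M := by
      rw [hMdef, Nat.le_sqrt']
      calc m ^ 2 ≤ m ^ 2 + n ^ 2 := Nat.le_add_right _ _
        _ = c := hc.symm
        _ ≤ C := h2
    rcases hab with ⟨ha, hb⟩ | ⟨ha, hb⟩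
    · left
      refine ⟨(m, n), ⟨hmn, hmM, ?_⟩, ?_⟩
      · simp only
        rw [← ha, ← hb, ← hc]; exact h3
      · simp only
        rw [← ha, ← hb, ← hc]
    · right
      refine ⟨(m, n), ⟨hmn, hmM, ?_⟩, ?_⟩
      · simp only
        rw [← ha, ← hb, ← hc]
        exact fun h4 => h3 (Jes95.jes_symm h4)
      · simp only
        rw [← ha, ← hb, ← hc]
  have hcard : ({t : ℕ × ℕ × ℕ | Prim t.1 t.2.1 t.2.2 ∧ t.2.2 ≤ C ∧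
      ¬ Jes (k * t.1) (k * t.2.1) (k * t.2.2)}).ncard ≤ 2 * S.ncard := by
    refine (Set.ncard_le_ncard hsub ((hSfin.image _).union (hSfin.image _))).trans ?_
    refine (Set.ncard_union_le _ _).trans ?_
    have h1 := Set.ncard_image_le (f := fun p : ℕ × ℕ =>
      ((p.1 ^ 2 - p.2 ^ 2, 2 * p.1 * p.2, p.1 ^ 2 + p.2 ^ 2) : ℕ × ℕ × ℕ)) hSfin
    have h2 := Set.ncard_image_le (f := fun p : ℕ × ℕ =>
      ((2 * p.1 * p.2, p.1 ^ 2 - p.2 ^ 2, p.1 ^ 2 + p.2 ^ 2) : ℕ × ℕ × ℕ)) hSfin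
    omega
  have hpow : (M : ℝ) ^ (2 / 3 + ε) ≤ (C : ℝ) ^ (1 / 3 + ε) := by
    have hC1 : (1 : ℝ) ≤ C := by exact_mod_cast hC
    have h0 : (0 : ℝ) ≤ M := Nat.cast_nonneg M
    have h1 : (M : ℝ) ^ 2 ≤ C := by
      have : M ^ 2 ≤ C := Nat.sqrt_le' C
      exact_mod_cast this
    have h2 : (M : ℝ) ≤ (C : ℝ) ^ (1 / 2 : ℝ) := by
      rw [← Real.sqrt_eq_rpow]
      exact Real.le_sqrt_of_sq_le h1
    calc (M : ℝ) ^ (2 / 3 + ε) ≤ ((C : ℝ) ^ (1 / 2 : ℝ)) ^ (2 / 3 + ε) :=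
          Real.rpow_le_rpow h0 h2 (by positivity)
      _ = (C : ℝ) ^ ((1 / 2 : ℝ) * (2 / 3 + ε)) := by
          rw [← Real.rpow_mul (by positivity)]
      _ ≤ (C : ℝ) ^ (1 / 3 + ε) := by
          apply Real.rpow_le_rpow_of_exponent_le hC1
          linarith
  have hkpos : 0 ≤ (k : ℝ) ^ ε := by positivity
  calc (({t : ℕ × ℕ × ℕ | Prim t.1 t.2.1 t.2.2 ∧ t.2.2 ≤ C ∧
      ¬ Jes (k * t.1) (k * t.2.1) (k * t.2.2)}).ncard : ℝ) ≤ ((2 * S.ncard : ℕ) : ℝ) := by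
        exact_mod_cast hcard
    _ = 2 * (S.ncard : ℝ) := by push_cast; ring
    _ ≤ 2 * (K * (k : ℝ) ^ ε * (M : ℝ) ^ (2 / 3 + ε)) := by gcongr
    _ ≤ 2 * (K * (k : ℝ) ^ ε * (C : ℝ) ^ (1 / 3 + ε)) := by gcongr
    _ = 2 * K * (k : ℝ) ^ ε * (C : ℝ) ^ (1 / 3 + ε) := by ring

end JB95
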