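import Pool.Agent.LibJB95.Defs
namespace JB95

private noncomputable def c2f (ε : ℝ) : ℕ →* ℝ where
  toFun k := (k : ℝ) ^ (-ε)
  map_one' := by simp
  map_mul' a b := by
    rw [Nat.cast_mul, Real.mul_rpow (Nat.cast_nonneg _) (Nat.cast_nonneg _)]

private theorem c2_factor {ε : ℝ} (hε : 0 < ε) {p : ℕ} (hp : 2 ≤ p) :
    (1 - (p : ℝ) ^ (-ε))⁻¹ ≤ (if (p : ℝ) ^ ε < 2 then (1 - (2 : ℝ) ^ (-ε))⁻¹ else 1) *
      (p : ℝ) ^ ε := by
  have hp1 : (2 : ℝ) ≤ p := by exact_mod_cast hp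
  have hp0 : (0 : ℝ) < p := by linarith
  have h1 : (p : ℝ) ^ (-ε) ≤ (2 : ℝ) ^ (-ε) :=
    Real.rpow_le_rpow_of_nonpos (by norm_num) hp1 (by linarith)
  have h2 : (2 : ℝ) ^ (-ε) < 1 := Real.rpow_lt_one_of_one_lt_of_neg (by norm_num) (by linarith)
  have h3 : (1 : ℝ) ≤ (p : ℝ) ^ ε := Real.one_le_rpow (by linarith) hε.le
  split_ifs with h
  · have h4 : (1 - (p : ℝ) ^ (-ε))⁻¹ ≤ (1 - (2 : ℝ) ^ (-ε))⁻¹ := by
      apply inv_anti₀ <;> linarith
    have h5 : 0 ≤ (1 - (2 : ℝ) ^ (-ε))⁻¹ := by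
      apply inv_nonneg.2; linarith
    nlinarith
  · push Not at h
    rw [one_mul]
    rw [inv_le_comm₀ (by linarith) (by linarith)]
    have h6 : (p : ℝ) ^ (-ε) = ((p : ℝ) ^ ε)⁻¹ := Real.rpow_neg hp0.le ε
    rw [h6]
    have h7 : ((p : ℝ) ^ ε)⁻¹ ≤ 2⁻¹ := inv_anti₀ (by norm_num) h
    linarith

/-- Rankin: the number is at most `C^ε ∑ k^(-ε)` over all `k` composed of primes dividing `N`
(`Nat.factoredNumbers`, `EulerProduct.summable_and_hasSum_factoredNumbers_prod_filter_prime_geometric`)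
`= C^ε ∏_{p ∣ N} (1 - p^(-ε))⁻¹`; the factor of `p > p₀(ε)` is at most `p^ε`, so the product is
`≤ K N^ε`. -/
theorem smooth_count (ε : ℝ) (hε : 0 < ε) : ∃ K : ℝ, 0 < K ∧ ∀ N C : ℕ, 0 < N → 1 ≤ C →
    (({k : ℕ | 0 < k ∧ k ≤ C ∧ ∀ p : ℕ, p.Prime → p ∣ k → p ∣ N}).ncard : ℝ) ≤
      K * (N : ℝ) ^ ε * (C : ℝ) ^ ε := by
  classical
  have h2 : (2 : ℝ) ^ (-ε) < 1 := Real.rpow_lt_one_of_one_lt_of_neg (by norm_num) (by linarith)
  have h20 : (0 : ℝ) < (2 : ℝ) ^ (-ε) := by positivity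
  set q : ℝ := (1 - (2 : ℝ) ^ (-ε))⁻¹ with hq
  have hq1 : 1 ≤ q := by
    rw [hq]
    apply (one_le_inv₀ (by linarith)).2
    linarith
  -- the small primes
  have hfin : {p : ℕ | (p : ℝ) ^ ε < 2}.Finite := by
    refine (Set.finite_Iic ⌈(2 : ℝ) ^ (1 / ε)⌉₊).subset ?_
    intro p hp
    simp only [Set.mem_ofPred_eq] at hp
    have h : (p : ℝ) ≤ (2 : ℝ) ^ (1 / ε) := by
      calc (p : ℝ) = ((p : ℝ) ^ ε) ^ (1 / ε) := by
            rw [← Real.rpow_mul (Nat.cast_nonneg _), mul_one_div_cancel hε.ne', Real.rpow_one]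
        _ ≤ (2 : ℝ) ^ (1 / ε) := Real.rpow_le_rpow (by positivity) hp.le (by positivity)
    have : (p : ℝ) ≤ (⌈(2 : ℝ) ^ (1 / ε)⌉₊ : ℝ) := h.trans (Nat.le_ceil _)
    exact_mod_cast this
  refine ⟨q ^ hfin.toFinset.card, by positivity, fun N C hN hC => ?_⟩
  set f := c2f ε with hf
  have hfk : ∀ k : ℕ, f k = (k : ℝ) ^ (-ε) := fun k => rfl
  have hC0 : (0 : ℝ) < C := by exact_mod_cast hC
  set S : Finset ℕ := (Finset.Icc 1 C).filter fun k => ∀ p : ℕ, p.Prime → p ∣ k → p ∣ N with hS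
  have hSet : {k : ℕ | 0 < k ∧ k ≤ C ∧ ∀ p : ℕ, p.Prime → p ∣ k → p ∣ N} = (S : Set ℕ) := by
    ext k
    simp only [hS, Set.mem_ofPred_eq, Finset.coe_filter, Finset.mem_Icc]
    constructor
    · rintro ⟨h1, h2, h3⟩; exact ⟨⟨h1, h2⟩, h3⟩
    · rintro ⟨⟨h1, h2⟩, h3⟩; exact ⟨h1, h2, h3⟩
  rw [hSet, Set.ncard_coe_finset]
  have hlt : ∀ {p : ℕ}, p.Prime → ‖f p‖ < 1 := by
    intro p hp
    rw [hfk, Real.norm_eq_abs, abs_of_nonneg (by positivity)]
    exact Real.rpow_lt_one_of_one_lt_of_neg (by exact_mod_cast hp.one_lt) (by linarith)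
  obtain ⟨-, hsum⟩ := EulerProduct.summable_and_hasSum_factoredNumbers_prod_filter_prime_geometric
    hlt N.primeFactors
  have hmem : ∀ k ∈ S, k ∈ Nat.factoredNumbers N.primeFactors := by
    intro k hk
    simp only [hS, Finset.mem_filter, Finset.mem_Icc] at hk
    obtain ⟨⟨h1, h2⟩, h3⟩ := hk
    rw [Nat.mem_factoredNumbers]
    refine ⟨by omega, fun p hp => ?_⟩
    rw [Nat.mem_primeFactors]
    exact ⟨Nat.prime_of_mem_primeFactorsList hp, h3 p (Nat.prime_of_mem_primeFactorsList hp)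
      (Nat.dvd_of_mem_primeFactorsList hp), hN.ne'⟩
  have h1 : ∑ k ∈ S, f k ≤ ∏ p ∈ N.primeFactors with p.Prime, (1 - f p)⁻¹ := by
    have h := sum_le_hasSum (S.subtype (· ∈ Nat.factoredNumbers N.primeFactors))
      (fun k _ => by rw [hfk]; positivity) hsum
    rwa [Finset.sum_subtype_of_mem (fun k => f k) hmem] at h
  have h3 : (S.card : ℝ) ≤ (C : ℝ) ^ ε * ∑ k ∈ S, f k := by
    rw [Finset.card_eq_sum_ones, Finset.mul_sum]
    push_cast
    apply Finset.sum_le_sum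
    intro k hk
    simp only [hS, Finset.mem_filter, Finset.mem_Icc] at hk
    obtain ⟨⟨h1, h2⟩, h3⟩ := hk
    have hk0 : (0 : ℝ) < k := by exact_mod_cast h1
    rw [hfk, Real.rpow_neg hk0.le, ← div_eq_mul_inv, one_le_div (by positivity)]
    exact Real.rpow_le_rpow hk0.le (by exact_mod_cast h2) hε.le
  have hfilter : (N.primeFactors.filter fun p => p.Prime) = N.primeFactors := by
    apply Finset.filter_true_of_mem
    intro p hp
    exact Nat.prime_of_mem_primeFactors hp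
  rw [hfilter] at h1
  have h4 : ∏ p ∈ N.primeFactors, (1 - f p)⁻¹ ≤ q ^ hfin.toFinset.card * (N : ℝ) ^ ε := by
    calc ∏ p ∈ N.primeFactors, (1 - f p)⁻¹
        ≤ ∏ p ∈ N.primeFactors, ((if (p : ℝ) ^ ε < 2 then q else 1) * (p : ℝ) ^ ε) := by
          apply Finset.prod_le_prod
          · intro p hp
            have := hlt (Nat.prime_of_mem_primeFactors hp)
            rw [Real.norm_eq_abs, abs_lt] at this
            apply inv_nonneg.2; linarith [this.2]
          · intro p hp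
            exact c2_factor hε (Nat.prime_of_mem_primeFactors hp).two_le
      _ = (∏ p ∈ N.primeFactors, (if (p : ℝ) ^ ε < 2 then q else 1)) *
            ∏ p ∈ N.primeFactors, (p : ℝ) ^ ε := Finset.prod_mul_distrib
      _ ≤ q ^ hfin.toFinset.card * (N : ℝ) ^ ε := by
          apply mul_le_mul
          · rw [Finset.prod_ite, Finset.prod_const, Finset.prod_const_one, mul_one]
            apply pow_le_pow_right₀ hq1
            apply Finset.card_le_card
            intro p hp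
            rw [Finset.mem_filter] at hp
            rw [Set.Finite.mem_toFinset]
            exact hp.2
          · rw [Real.finsetProd_rpow _ _ (fun p _ => Nat.cast_nonneg p)]
            apply Real.rpow_le_rpow (by positivity) _ hε.le
            have h5 : ((∏ p ∈ N.primeFactors, p : ℕ) : ℝ) ≤ (N : ℝ) := by
              exact_mod_cast Nat.le_of_dvd hN (Nat.prod_primeFactors_dvd N)
            rwa [Nat.cast_prod] at h5
          · positivity
          · positivity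
  calc (S.card : ℝ) ≤ (C : ℝ) ^ ε * ∑ k ∈ S, f k := h3
    _ ≤ (C : ℝ) ^ ε * (q ^ hfin.toFinset.card * (N : ℝ) ^ ε) := by
        gcongr
        exact h1.trans h4
    _ = q ^ hfin.toFinset.card * (N : ℝ) ^ ε * (C : ℝ) ^ ε := by ring

end JB95
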