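import Pool.Agent.LibJB95.A3
namespace JB95

private theorem k_dvd_aux1 {A B C k p i j l : ℕ} (hk : 0 < k) (hp : p ∣ k) (hij : i < j)
    (hil : i < l) (e : k ^ i * A + k ^ j * B = k ^ l * C) : p ∣ A := by
  obtain ⟨j', rfl⟩ := Nat.exists_eq_add_of_lt hij
  obtain ⟨l', rfl⟩ := Nat.exists_eq_add_of_lt hil
  have hki : 0 < k ^ i := pow_pos hk i
  have e1 : k ^ i * (A + k * (k ^ j' * B)) = k ^ i * (k * (k ^ l' * C)) := by
    have h1 : k ^ (i + j' + 1) = k ^ i * k ^ j' * k := by rw [pow_succ, pow_add]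
    have h2 : k ^ (i + l' + 1) = k ^ i * k ^ l' * k := by rw [pow_succ, pow_add]
    rw [h1, h2] at e
    calc k ^ i * (A + k * (k ^ j' * B)) = k ^ i * A + k ^ i * k ^ j' * k * B := by ring
      _ = k ^ i * k ^ l' * k * C := e
      _ = k ^ i * (k * (k ^ l' * C)) := by ring
  have e2 := Nat.eq_of_mul_eq_mul_left hki e1
  have h3 : p ∣ k * (k ^ j' * B) := Dvd.dvd.mul_right hp _
  have h4 : p ∣ A + k * (k ^ j' * B) := by
    rw [e2]
    exact Dvd.dvd.mul_right hp _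
  exact (Nat.dvd_add_left h3).mp h4

private theorem k_dvd_aux2 {A B C k p i j l : ℕ} (hk : 0 < k) (hp : p ∣ k) (hli : l < i)
    (hlj : l < j) (e : k ^ i * A + k ^ j * B = k ^ l * C) : p ∣ C := by
  obtain ⟨j', rfl⟩ := Nat.exists_eq_add_of_lt hlj
  obtain ⟨i', rfl⟩ := Nat.exists_eq_add_of_lt hli
  have hki : 0 < k ^ l := pow_pos hk l
  have e1 : k ^ l * (k * (k ^ i' * A + k ^ j' * B)) = k ^ l * C := by
    have h1 : k ^ (l + j' + 1) = k ^ l * k ^ j' * k := by rw [pow_succ, pow_add]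
    have h2 : k ^ (l + i' + 1) = k ^ l * k ^ i' * k := by rw [pow_succ, pow_add]
    rw [h1, h2] at e
    calc k ^ l * (k * (k ^ i' * A + k ^ j' * B)) =
        k ^ l * k ^ i' * k * A + k ^ l * k ^ j' * k * B := by ring
      _ = k ^ l * C := e
  have e2 := Nat.eq_of_mul_eq_mul_left hki e1
  rw [← e2]
  exact Dvd.dvd.mul_right hp _

/-- By `tri`, `(x < z < y)`, `(y < z < x)` or `z < x, y`: there is a strictly smallest exponent
(if `z < x, y` it is `z`). Dividing the equation by `k` to that exponent: `k` divides a power of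
`a`, `b` or `c`. -/
theorem k_dvd {a b c k x y z : ℕ} (h : PT a b c) (hk : 0 < k)
    (hs : Sol (k * a) (k * b) (k * c) x y z) :
    ∀ p : ℕ, p.Prime → p ∣ k → p ∣ a * b * c := by
  intro p hp hpk
  have e : k ^ x * a ^ x + k ^ y * b ^ y = k ^ z * c ^ z := by
    have e0 := hs.2.2.2.2.2.2.1
    rw [mul_pow, mul_pow, mul_pow] at e0
    exact e0
  rcases (tri hs).1 with ⟨h1, h2⟩ | ⟨h1, h2⟩ | ⟨h1, h2⟩
  · have h3 : p ∣ a ^ x := k_dvd_aux1 hk hpk (lt_trans h1 h2) h1 e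
    exact Dvd.dvd.mul_right (Dvd.dvd.mul_right (hp.dvd_of_dvd_pow h3) b) c
  · rw [add_comm] at e
    have h3 : p ∣ b ^ y := k_dvd_aux1 hk hpk (lt_trans h1 h2) h1 e
    exact Dvd.dvd.mul_right (Dvd.dvd.mul_left (hp.dvd_of_dvd_pow h3) a) c
  · have h3 : p ∣ c ^ z := k_dvd_aux2 hk hpk h1 h2 e
    exact Dvd.dvd.mul_left (hp.dvd_of_dvd_pow h3) (a * b)

end JB95
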