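import Pool.Agent.LibJB95.C1
import Pool.Agent.LibJB95.C2
import Pool.Agent.LibJB95.C3
namespace JB95
open Jes95 (Adm Jes Prim)

private theorem sum_cube_root (n : ℕ) :
    ∑ k ∈ Finset.range n, ((k + 1 : ℕ) : ℝ) ^ (-(1 / 3 : ℝ)) ≤ 3 / 2 * (n : ℝ) ^ (2 / 3 : ℝ) := by
  induction n with
  | zero => simp
  | succ n ih =>
    rw [Finset.sum_range_succ]
    set N : ℝ := ((n + 1 : ℕ) : ℝ) with hN
    have hN0 : 0 < N := by rw [hN]; positivity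
    have hnN : (n : ℝ) = N - 1 := by rw [hN]; push_cast; ring
    have hn0 : (0 : ℝ) ≤ n := Nat.cast_nonneg n
    have h1 := Real.geom_mean_le_arith_mean2_weighted (w₁ := 2 / 3) (w₂ := 1 / 3) (p₁ := (n : ℝ))
      (p₂ := N) (by norm_num) (by norm_num) hn0 hN0.le (by norm_num)
    have h2 : N ^ (2 / 3 : ℝ) = N ^ (-(1 / 3 : ℝ)) * N := by
      nth_rewrite 3 [← Real.rpow_one N]
      rw [← Real.rpow_add hN0]
      norm_num
    have h3 : (n : ℝ) ^ (2 / 3 : ℝ) = N ^ (-(1 / 3 : ℝ)) * ((n : ℝ) ^ (2 / 3 : ℝ) * N ^ (1 / 3 : ℝ)) := by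
      have : N ^ (-(1 / 3 : ℝ)) * N ^ (1 / 3 : ℝ) = 1 := by
        rw [← Real.rpow_add hN0]; norm_num
      calc (n : ℝ) ^ (2 / 3 : ℝ) = (n : ℝ) ^ (2 / 3 : ℝ) * (N ^ (-(1 / 3 : ℝ)) * N ^ (1 / 3 : ℝ)) := by
            rw [this, mul_one]
        _ = _ := by ring
    have h4 : 0 < N ^ (-(1 / 3 : ℝ)) := Real.rpow_pos_of_pos hN0 _
    have h5 : N ^ (-(1 / 3 : ℝ)) * ((n : ℝ) ^ (2 / 3 : ℝ) * N ^ (1 / 3 : ℝ)) ≤
        N ^ (-(1 / 3 : ℝ)) * (N - 2 / 3) := by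
      apply mul_le_mul_of_nonneg_left _ h4.le
      rw [hnN] at h1 ⊢
      linarith
    have h6 : (n : ℝ) ^ (2 / 3 : ℝ) ≤ N ^ (-(1 / 3 : ℝ)) * (N - 2 / 3) := by rw [h3]; exact h5
    have h7 : 3 / 2 * (n : ℝ) ^ (2 / 3 : ℝ) + N ^ (-(1 / 3 : ℝ)) ≤ 3 / 2 * N ^ (2 / 3 : ℝ) := by
      rw [h2]
      nlinarith
    have h8 : ((n + 1 : ℕ) : ℝ) ^ (-(1 / 3 : ℝ)) = N ^ (-(1 / 3 : ℝ)) := rfl
    rw [h8]
    linarith

/-- the finite set of primitive triples with `c ≤ W` -/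
private theorem prim_card (W : ℕ) : ∃ S : Finset (ℕ × ℕ × ℕ),
    (∀ t : ℕ × ℕ × ℕ, t ∈ S ↔ Prim t.1 t.2.1 t.2.2 ∧ t.2.2 ≤ W) ∧ S.card ≤ 2 * W := by
  classical
  let box : Finset (ℕ × ℕ) := Finset.Icc 1 (Nat.sqrt W) ×ˢ Finset.Icc 1 (Nat.sqrt W)
  let f : ℕ × ℕ → ℕ × ℕ × ℕ := fun p => (p.1 ^ 2 - p.2 ^ 2, 2 * p.1 * p.2, p.1 ^ 2 + p.2 ^ 2)
  let g : ℕ × ℕ → ℕ × ℕ × ℕ := fun p => (2 * p.1 * p.2, p.1 ^ 2 - p.2 ^ 2, p.1 ^ 2 + p.2 ^ 2)
  let S0 : Finset (ℕ × ℕ × ℕ) := box.image f ∪ box.image g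
  refine ⟨S0.filter (fun t => Prim t.1 t.2.1 t.2.2 ∧ t.2.2 ≤ W), ?_, ?_⟩
  · intro t
    rw [Finset.mem_filter]
    refine ⟨fun h => h.2, fun h => ⟨?_, h⟩⟩
    obtain ⟨m, n, hadm, hc, hab⟩ := Jes95.prim_param h.1
    have hn := hadm.1
    have hnm := hadm.2.1
    have hW := h.2
    rw [hc] at hW
    have hbox : (m, n) ∈ box := by
      rw [Finset.mem_product, Finset.mem_Icc, Finset.mem_Icc]
      refine ⟨⟨by simp only; omega, ?_⟩, ⟨hn, ?_⟩⟩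
      · exact Nat.le_sqrt'.2 (by simp only; nlinarith)
      · exact Nat.le_sqrt'.2 (by simp only; nlinarith)
    rw [Finset.mem_union, Finset.mem_image, Finset.mem_image]
    rcases hab with ⟨ha, hb⟩ | ⟨ha, hb⟩
    · left
      exact ⟨(m, n), hbox, by ext <;> simp [f, ha, hb, hc]⟩
    · right
      exact ⟨(m, n), hbox, by ext <;> simp [g, ha, hb, hc]⟩
  · have h1 : box.card ≤ W := by
      rw [Finset.card_product, Nat.card_Icc, Nat.add_sub_cancel]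
      exact Nat.sqrt_le W
    refine (Finset.card_filter_le _ _).trans ((Finset.card_union_le _ _).trans ?_)
    have h2 := Finset.card_image_le (s := box) (f := f)
    have h3 := Finset.card_image_le (s := box) (f := g)
    omega

/-- All Pythagorean triples.  Every exceptional triple is `k (a₀, b₀, c₀)` with `(a₀, b₀, c₀)`
primitive, `k c₀ ≤ C`. For `k ≤ C^(2/5)`: `∑_k K k^ε (C/k)^(1/3+ε) ≤ K' C^(3/5+2ε)` (`prim_exc`).
For `k > C^(2/5)`: `c₀ ≤ C^(3/5)`, at most `2 C^(3/5)` choices of `(a₀, b₀, c₀)`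
(`Jes95.prim_param`), and at most `K C^(4ε)` values of `k` for each (`k_dvd`, `smooth_count` with
`N = a₀ b₀ c₀ ≤ C³`). -/
theorem all_exc (ε : ℝ) (hε : 0 < ε) : ∃ K : ℝ, 0 < K ∧ ∀ C : ℕ, 1 ≤ C →
    (({t : ℕ × ℕ × ℕ | 0 < t.1 ∧ 0 < t.2.1 ∧ t.1 ^ 2 + t.2.1 ^ 2 = t.2.2 ^ 2 ∧ t.2.2 ≤ C ∧
      ¬ Jes t.1 t.2.1 t.2.2}).ncard : ℝ) ≤ K * (C : ℝ) ^ (3 / 5 + ε) := by
  classical
  set η : ℝ := ε / 4 with hη
  have hη0 : 0 < η := by positivity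
  obtain ⟨K₁, hK₁, h₁⟩ := prim_exc η hη0
  obtain ⟨K₂, hK₂, h₂⟩ := smooth_count η hη0
  refine ⟨3 / 2 * K₁ + 2 * K₂, by positivity, ?_⟩
  intro C hC
  have hCR : (1 : ℝ) ≤ C := by exact_mod_cast hC
  have hC0 : (0 : ℝ) < C := by linarith
  set Y : ℝ := (C : ℝ) ^ (2 / 5 : ℝ) with hY
  set Z : ℝ := (C : ℝ) ^ (3 / 5 : ℝ) with hZ
  have hY1 : 1 ≤ Y := Real.one_le_rpow hCR (by norm_num)
  have hZ1 : 1 ≤ Z := Real.one_le_rpow hCR (by norm_num)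
  have hYZ : Y * Z = C := by
    rw [hY, hZ, ← Real.rpow_add hC0]
    norm_num
  set y : ℕ := ⌊Y⌋₊ with hy
  set w : ℕ := ⌊Z⌋₊ with hw
  have hyY : (y : ℝ) ≤ Y := Nat.floor_le (by linarith)
  have hwZ : (w : ℝ) ≤ Z := Nat.floor_le (by linarith)
  have hYC : Y ≤ C := by nlinarith
  obtain ⟨SW, hSW, hSWc⟩ := prim_card w
  -- the finite covers
  have hEfin : ∀ k : ℕ, ({t : ℕ × ℕ × ℕ | Prim t.1 t.2.1 t.2.2 ∧ t.2.2 ≤ C / k ∧
      ¬ Jes (k * t.1) (k * t.2.1) (k * t.2.2)}).Finite := by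
    intro k
    obtain ⟨S, hS, _⟩ := prim_card (C / k)
    apply (Finset.finite_toSet S).subset
    rintro t ⟨h1, h2, _⟩
    exact (hS t).2 ⟨h1, h2⟩
  have hFfin : ∀ N : ℕ, ({k : ℕ | 0 < k ∧ k ≤ C ∧ ∀ p : ℕ, p.Prime → p ∣ k → p ∣ N}).Finite := by
    intro N
    apply (Finset.finite_toSet (Finset.range (C + 1))).subset
    rintro k ⟨_, h2, _⟩
    exact Finset.mem_coe.2 (Finset.mem_range.2 (by omega))
  let mul : ℕ → ℕ × ℕ × ℕ → ℕ × ℕ × ℕ := fun k t => (k * t.1, k * t.2.1, k * t.2.2)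
  let A : Finset (ℕ × ℕ × ℕ) := (Finset.range y).biUnion (fun j =>
    ((hEfin (j + 1)).toFinset).image (mul (j + 1)))
  let B : Finset (ℕ × ℕ × ℕ) := SW.biUnion (fun t =>
    ((hFfin (t.1 * t.2.1 * t.2.2)).toFinset).image (fun k => mul k t))
  have hsub : {t : ℕ × ℕ × ℕ | 0 < t.1 ∧ 0 < t.2.1 ∧ t.1 ^ 2 + t.2.1 ^ 2 = t.2.2 ^ 2 ∧
      t.2.2 ≤ C ∧ ¬ Jes t.1 t.2.1 t.2.2} ⊆ ((A ∪ B : Finset (ℕ × ℕ × ℕ)) : Set (ℕ × ℕ × ℕ)) := by
    rintro ⟨a, b, c⟩ ⟨ha, hb, hab, hcC, hne⟩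
    simp only at ha hb hab hcC hne
    obtain ⟨k, a₀, b₀, c₀, hk, hc, hor, hpt⟩ := decomp ha hb hab
    -- an oriented primitive triple t₀
    obtain ⟨t₀, hP0, hmul, hN⟩ : ∃ t₀ : ℕ × ℕ × ℕ, Prim t₀.1 t₀.2.1 t₀.2.2 ∧
        (a, b, c) = mul k t₀ ∧ (∀ p : ℕ, p.Prime → p ∣ k → p ∣ t₀.1 * t₀.2.1 * t₀.2.2) := by
      have hex : ∃ x y z, Sol a b c x y z := by
        unfold Jes at hne
        push Not at hne
        obtain ⟨x, y, z, hx, hy, hz, e, hne⟩ := hne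
        exact ⟨x, y, z, ha, hb, hab, hx, hy, hz, e, fun ⟨h1, h2, h3⟩ => hne h1 h2 h3⟩
      obtain ⟨x, y, z, hsol⟩ := hex
      have hpt' := hpt
      obtain ⟨ha0, hb0, _, _, hco, hpy⟩ := hpt'
      rcases hor with ⟨e1, e2⟩ | ⟨e1, e2⟩
      · refine ⟨(a₀, b₀, c₀), ⟨ha0, hb0, hco, hpy⟩, by simp only [mul]; rw [e1, e2, hc], ?_⟩
        rw [e1, e2, hc] at hsol
        exact k_dvd hpt hk hsol
      · refine ⟨(b₀, a₀, c₀), ⟨hb0, ha0, hco.symm, by simp only; linarith⟩,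
          by simp only [mul]; rw [e1, e2, hc], ?_⟩
        rw [e1, e2, hc] at hsol
        have hsol' : Sol (k * a₀) (k * b₀) (k * c₀) y x z := by
          obtain ⟨q1, q2, q3, q4, q5, q6, q7, q8⟩ := hsol
          exact ⟨q2, q1, by linarith, q5, q4, q6, by linarith, fun ⟨r1, r2, r3⟩ => q8 ⟨r2, r1, r3⟩⟩
        have := k_dvd hpt hk hsol'
        intro p hp hpk
        have h3 := this p hp hpk
        simp only
        rwa [mul_comm b₀ a₀]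
    have hc' : c = k * t₀.2.2 := by
      have := congrArg (fun t : ℕ × ℕ × ℕ => t.2.2) hmul
      exact this
    have hkc : k * t₀.2.2 ≤ C := by rw [← hc']; exact hcC
    have hc0 : 0 < t₀.2.2 := by
      have := hP0.2.2.2
      have h4 := hP0.1
      by_contra h5
      have h6 : t₀.2.2 = 0 := by omega
      rw [h6] at this
      have : 0 < t₀.1 ^ 2 := by positivity
      omega
    have hkC : k ≤ C := le_trans (Nat.le_mul_of_pos_right k hc0) hkc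
    rw [Finset.coe_union]
    rcases le_or_gt k y with hky | hky
    · left
      rw [Finset.mem_coe, Finset.mem_biUnion]
      refine ⟨k - 1, Finset.mem_range.2 (by omega), ?_⟩
      have hk1 : k - 1 + 1 = k := by omega
      rw [hk1, Finset.mem_image]
      refine ⟨t₀, ?_, hmul.symm⟩
      rw [Set.Finite.mem_toFinset]
      refine ⟨hP0, ?_, ?_⟩
      · rw [Nat.le_div_iff_mul_le hk, mul_comm]; exact hkc
      · have e1 : a = k * t₀.1 := congrArg (fun t : ℕ × ℕ × ℕ => t.1) hmul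
        have e2 : b = k * t₀.2.1 := congrArg (fun t : ℕ × ℕ × ℕ => t.2.1) hmul
        rw [← e1, ← e2, ← hc']
        exact hne
    · right
      rw [Finset.mem_coe, Finset.mem_biUnion]
      refine ⟨t₀, (hSW t₀).2 ⟨hP0, ?_⟩, ?_⟩
      · rw [hw]
        apply Nat.le_floor
        have e1 : Y < k := (Nat.floor_lt (by linarith)).1 hky
        have e2 : (k : ℝ) * t₀.2.2 ≤ C := by exact_mod_cast hkc
        have e3 : Y * (t₀.2.2 : ℝ) ≤ Y * Z := by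
          rw [hYZ]
          have : (0 : ℝ) ≤ t₀.2.2 := Nat.cast_nonneg _
          nlinarith
        exact le_of_mul_le_mul_left e3 (by linarith)
      · rw [Finset.mem_image]
        refine ⟨k, ?_, hmul.symm⟩
        rw [Set.Finite.mem_toFinset]
        exact ⟨hk, hkC, hN⟩
  have hcard : (({t : ℕ × ℕ × ℕ | 0 < t.1 ∧ 0 < t.2.1 ∧ t.1 ^ 2 + t.2.1 ^ 2 = t.2.2 ^ 2 ∧
      t.2.2 ≤ C ∧ ¬ Jes t.1 t.2.1 t.2.2}).ncard : ℝ) ≤ (A.card : ℝ) + B.card := by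
    have h1 := Set.ncard_le_ncard hsub (Finset.finite_toSet _)
    rw [Set.ncard_coe_finset] at h1
    have h2 := h1.trans (Finset.card_union_le A B)
    exact_mod_cast h2
  -- bound for A
  have hA : (A.card : ℝ) ≤ 3 / 2 * K₁ * (C : ℝ) ^ (3 / 5 + ε) := by
    have e1 : (A.card : ℝ) ≤ ∑ j ∈ Finset.range y, K₁ * ((C : ℝ) ^ η * ((C : ℝ) ^ (1 / 3 + η) *
        ((j + 1 : ℕ) : ℝ) ^ (-(1 / 3 : ℝ)))) := by
      have f1 : A.card ≤ ∑ j ∈ Finset.range y, ({t : ℕ × ℕ × ℕ | Prim t.1 t.2.1 t.2.2 ∧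
          t.2.2 ≤ C / (j + 1) ∧ ¬ Jes ((j + 1) * t.1) ((j + 1) * t.2.1) ((j + 1) * t.2.2)}).ncard := by
        refine Finset.card_biUnion_le.trans (Finset.sum_le_sum (fun j _ => ?_))
        refine Finset.card_image_le.trans (le_of_eq ?_)
        rw [Set.ncard_eq_toFinset_card _ (hEfin (j + 1))]
      have f2 : (A.card : ℝ) ≤ ∑ j ∈ Finset.range y, (({t : ℕ × ℕ × ℕ | Prim t.1 t.2.1 t.2.2 ∧
          t.2.2 ≤ C / (j + 1) ∧
          ¬ Jes ((j + 1) * t.1) ((j + 1) * t.2.1) ((j + 1) * t.2.2)}).ncard : ℝ) := by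
        exact_mod_cast f1
      refine f2.trans (Finset.sum_le_sum (fun j hj => ?_))
      rw [Finset.mem_range] at hj
      have hjC : j + 1 ≤ C := by
        have g1 : ((j + 1 : ℕ) : ℝ) ≤ C := by
          have : ((j + 1 : ℕ) : ℝ) ≤ (y : ℝ) := by exact_mod_cast hj
          linarith
        exact_mod_cast g1
      have hdiv1 : 1 ≤ C / (j + 1) := (Nat.one_le_div_iff (by omega)).2 hjC
      refine (h₁ (j + 1) (C / (j + 1)) (by omega) hdiv1).trans ?_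
      have g2 : ((j + 1 : ℕ) : ℝ) ^ η ≤ (C : ℝ) ^ η := by
        apply Real.rpow_le_rpow (by positivity) _ hη0.le
        exact_mod_cast hjC
      have g3 : ((C / (j + 1) : ℕ) : ℝ) ^ (1 / 3 + η) ≤
          (C : ℝ) ^ (1 / 3 + η) * ((j + 1 : ℕ) : ℝ) ^ (-(1 / 3 : ℝ)) := by
        have i0 : (1 : ℝ) ≤ ((j + 1 : ℕ) : ℝ) := by
          have : 1 ≤ j + 1 := by omega
          exact_mod_cast this
        have i1 : ((C / (j + 1) : ℕ) : ℝ) ≤ (C : ℝ) / ((j + 1 : ℕ) : ℝ) := Nat.cast_div_le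
        calc ((C / (j + 1) : ℕ) : ℝ) ^ (1 / 3 + η) ≤ ((C : ℝ) / ((j + 1 : ℕ) : ℝ)) ^ (1 / 3 + η) :=
              Real.rpow_le_rpow (Nat.cast_nonneg _) i1 (by positivity)
          _ = (C : ℝ) ^ (1 / 3 + η) * (((j + 1 : ℕ) : ℝ) ^ (1 / 3 + η))⁻¹ := by
              rw [Real.div_rpow hC0.le (by positivity), div_eq_mul_inv]
          _ = (C : ℝ) ^ (1 / 3 + η) * ((j + 1 : ℕ) : ℝ) ^ (-(1 / 3 + η)) := by
              rw [Real.rpow_neg (by positivity)]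
          _ ≤ (C : ℝ) ^ (1 / 3 + η) * ((j + 1 : ℕ) : ℝ) ^ (-(1 / 3 : ℝ)) := by
              apply mul_le_mul_of_nonneg_left _ (by positivity)
              apply Real.rpow_le_rpow_of_exponent_le i0
              linarith
      calc K₁ * ((j + 1 : ℕ) : ℝ) ^ η * ((C / (j + 1) : ℕ) : ℝ) ^ (1 / 3 + η) =
          K₁ * (((j + 1 : ℕ) : ℝ) ^ η * ((C / (j + 1) : ℕ) : ℝ) ^ (1 / 3 + η)) := by ring
        _ ≤ _ := by
          apply mul_le_mul_of_nonneg_left _ hK₁.le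
          exact mul_le_mul g2 g3 (by positivity) (by positivity)
    refine e1.trans ?_
    rw [← Finset.mul_sum, ← Finset.mul_sum, ← Finset.mul_sum]
    have e2 := sum_cube_root y
    have e3 : (y : ℝ) ^ (2 / 3 : ℝ) ≤ (C : ℝ) ^ (4 / 15 : ℝ) := by
      calc (y : ℝ) ^ (2 / 3 : ℝ) ≤ Y ^ (2 / 3 : ℝ) :=
            Real.rpow_le_rpow (Nat.cast_nonneg _) hyY (by norm_num)
        _ = (C : ℝ) ^ (4 / 15 : ℝ) := by
            rw [hY, ← Real.rpow_mul hC0.le]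
            norm_num
    calc K₁ * ((C : ℝ) ^ η * ((C : ℝ) ^ (1 / 3 + η) *
        ∑ j ∈ Finset.range y, ((j + 1 : ℕ) : ℝ) ^ (-(1 / 3 : ℝ)))) ≤
        K₁ * ((C : ℝ) ^ η * ((C : ℝ) ^ (1 / 3 + η) * (3 / 2 * (C : ℝ) ^ (4 / 15 : ℝ)))) := by
          have : ∑ j ∈ Finset.range y, ((j + 1 : ℕ) : ℝ) ^ (-(1 / 3 : ℝ)) ≤
              3 / 2 * (C : ℝ) ^ (4 / 15 : ℝ) := e2.trans (by linarith)
          gcongr
      _ = 3 / 2 * K₁ * ((C : ℝ) ^ η * (C : ℝ) ^ (1 / 3 + η) * (C : ℝ) ^ (4 / 15 : ℝ)) := by ring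
      _ = 3 / 2 * K₁ * (C : ℝ) ^ (3 / 5 + 2 * η) := by
          rw [← Real.rpow_add hC0, ← Real.rpow_add hC0]
          congr 2
          ring
      _ ≤ 3 / 2 * K₁ * (C : ℝ) ^ (3 / 5 + ε) := by
          apply mul_le_mul_of_nonneg_left _ (by positivity)
          apply Real.rpow_le_rpow_of_exponent_le hCR
          rw [hη]; linarith
  -- bound for B
  have hB : (B.card : ℝ) ≤ 2 * K₂ * (C : ℝ) ^ (3 / 5 + ε) := by
    have e1 : (B.card : ℝ) ≤ ∑ t ∈ SW, K₂ * (C : ℝ) ^ (4 * η) := by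
      have f1 : B.card ≤ ∑ t ∈ SW, ({k : ℕ | 0 < k ∧ k ≤ C ∧
          ∀ p : ℕ, p.Prime → p ∣ k → p ∣ t.1 * t.2.1 * t.2.2}).ncard := by
        refine Finset.card_biUnion_le.trans (Finset.sum_le_sum (fun t _ => ?_))
        refine Finset.card_image_le.trans (le_of_eq ?_)
        rw [Set.ncard_eq_toFinset_card _ (hFfin (t.1 * t.2.1 * t.2.2))]
      have f2 : (B.card : ℝ) ≤ ∑ t ∈ SW, (({k : ℕ | 0 < k ∧ k ≤ C ∧
          ∀ p : ℕ, p.Prime → p ∣ k → p ∣ t.1 * t.2.1 * t.2.2}).ncard : ℝ) := by exact_mod_cast f1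
      refine f2.trans (Finset.sum_le_sum (fun t ht => ?_))
      obtain ⟨hP, hcw⟩ := (hSW t).1 ht
      obtain ⟨g1, g2, g3, g4⟩ := hP
      have hcC : t.2.2 ≤ C := by
        have i1 : (t.2.2 : ℝ) ≤ C := by
          have : (t.2.2 : ℝ) ≤ (w : ℝ) := by exact_mod_cast hcw
          nlinarith
        exact_mod_cast i1
      have hac : t.1 ≤ t.2.2 := by
        by_contra hcon
        push Not at hcon
        have := Nat.pow_lt_pow_left hcon (n := 2) (by norm_num)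
        omega
      have hbc : t.2.1 ≤ t.2.2 := by
        by_contra hcon
        push Not at hcon
        have := Nat.pow_lt_pow_left hcon (n := 2) (by norm_num)
        omega
      have hN0 : 0 < t.1 * t.2.1 * t.2.2 := by
        have : 0 < t.2.2 := by omega
        positivity
      have hN : ((t.1 * t.2.1 * t.2.2 : ℕ) : ℝ) ≤ (C : ℝ) ^ 3 := by
        have : t.1 * t.2.1 * t.2.2 ≤ C ^ 3 := by
          calc t.1 * t.2.1 * t.2.2 ≤ C * C * C :=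
                Nat.mul_le_mul (Nat.mul_le_mul (hac.trans hcC) (hbc.trans hcC)) hcC
            _ = C ^ 3 := by ring
        exact_mod_cast this
      refine (h₂ _ C hN0 hC).trans ?_
      calc K₂ * ((t.1 * t.2.1 * t.2.2 : ℕ) : ℝ) ^ η * (C : ℝ) ^ η ≤
          K₂ * ((C : ℝ) ^ 3) ^ η * (C : ℝ) ^ η := by
            have : ((t.1 * t.2.1 * t.2.2 : ℕ) : ℝ) ^ η ≤ ((C : ℝ) ^ 3) ^ η :=
              Real.rpow_le_rpow (Nat.cast_nonneg _) hN hη0.le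
            gcongr
        _ = K₂ * (C : ℝ) ^ (4 * η) := by
            rw [← Real.rpow_natCast, ← Real.rpow_mul hC0.le, mul_assoc, ← Real.rpow_add hC0]
            congr 2
            push_cast
            ring
    refine e1.trans ?_
    rw [Finset.sum_const, nsmul_eq_mul]
    have e2 : (SW.card : ℝ) ≤ 2 * Z := by
      have : (SW.card : ℝ) ≤ 2 * (w : ℝ) := by exact_mod_cast hSWc
      linarith
    calc (SW.card : ℝ) * (K₂ * (C : ℝ) ^ (4 * η)) ≤ 2 * Z * (K₂ * (C : ℝ) ^ (4 * η)) := by gcongr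
      _ = 2 * K₂ * (Z * (C : ℝ) ^ (4 * η)) := by ring
      _ = 2 * K₂ * (C : ℝ) ^ (3 / 5 + ε) := by
          rw [hZ, ← Real.rpow_add hC0, hη]
          congr 2
          ring
  calc _ ≤ (A.card : ℝ) + B.card := hcard
    _ ≤ 3 / 2 * K₁ * (C : ℝ) ^ (3 / 5 + ε) + 2 * K₂ * (C : ℝ) ^ (3 / 5 + ε) := add_le_add hA hB
    _ = (3 / 2 * K₁ + 2 * K₂) * (C : ℝ) ^ (3 / 5 + ε) := by ring

end JB95
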