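import Pool.Agent.LibJB95.A6
import Pool.Agent.LibJB95.B7
namespace JB95
open Jes95 (Jes)
open Polynomial

private theorem fam_natDegree (P Q : ℝ[X]) (k : ℝ) (x y z d J : ℕ) (hP : P.natDegree ≤ d)
    (hQ : Q.natDegree ≤ d) (hx : x ≤ J) (hy : y ≤ J) (hz : z ≤ J) :
    ((C k * (P ^ 2 - Q ^ 2)) ^ x + (C k * (2 * P * Q)) ^ y -
      (C k * (P ^ 2 + Q ^ 2)) ^ z).natDegree ≤ J * (2 * d) := by
  have hP2 : (P ^ 2).natDegree ≤ 2 * d := natDegree_pow_le_of_le 2 hP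
  have hQ2 : (Q ^ 2).natDegree ≤ 2 * d := natDegree_pow_le_of_le 2 hQ
  have hPQ : (2 * P * Q).natDegree ≤ 2 * d := by
    have h1 : (2 * P * Q) = C (2:ℝ) * (P * Q) := by
      rw [← mul_assoc]
      rfl
    rw [h1]
    refine le_trans (natDegree_C_mul_le _ _) ?_
    refine le_trans (natDegree_mul_le (p := P) (q := Q)) ?_
    omega
  have h1 : (C k * (P ^ 2 - Q ^ 2)).natDegree ≤ 2 * d :=
    le_trans (natDegree_C_mul_le k (P ^ 2 - Q ^ 2)) (le_trans (natDegree_sub_le _ _) (max_le hP2 hQ2))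
  have h2 : (C k * (2 * P * Q)).natDegree ≤ 2 * d :=
    le_trans (natDegree_C_mul_le k (2 * P * Q)) hPQ
  have h3 : (C k * (P ^ 2 + Q ^ 2)).natDegree ≤ 2 * d :=
    le_trans (natDegree_C_mul_le k (P ^ 2 + Q ^ 2)) (le_trans (natDegree_add_le _ _) (max_le hP2 hQ2))
  have h4 : ((C k * (P ^ 2 - Q ^ 2)) ^ x).natDegree ≤ J * (2 * d) :=
    le_trans (natDegree_pow_le_of_le x h1) (Nat.mul_le_mul_right _ hx)
  have h5 : ((C k * (2 * P * Q)) ^ y).natDegree ≤ J * (2 * d) :=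
    le_trans (natDegree_pow_le_of_le y h2) (Nat.mul_le_mul_right _ hy)
  have h6 : ((C k * (P ^ 2 + Q ^ 2)) ^ z).natDegree ≤ J * (2 * d) :=
    le_trans (natDegree_pow_le_of_le z h3) (Nat.mul_le_mul_right _ hz)
  have h7 : ((C k * (P ^ 2 - Q ^ 2)) ^ x + (C k * (2 * P * Q)) ^ y).natDegree ≤ J * (2 * d) :=
    le_trans (natDegree_add_le _ _) (max_le h4 h5)
  exact le_trans (natDegree_sub_le _ _) (max_le h7 h6)

/-- Polynomial families.  For each exponent triple `x, y, z ≤ J = ⌊K (log (2kM²))^(9/4)⌋`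
(`exp_bound`) with the properties of `tri`, the polynomial of `poly_ne` (after mapping to `ℝ[X]`)
is nonzero of degree at most `2 J d`, and the exceptional `t` are among its roots. Total
`≤ J³ * 2 J d`. -/
theorem fam_count : ∃ K : ℝ, 0 < K ∧ ∀ (P Q : ℤ[X]),
    IsCoprime (P.map (Int.castRingHom ℚ)) (Q.map (Int.castRingHom ℚ)) →
    (0 < P.natDegree ∨ 0 < Q.natDegree) → ∀ k M : ℕ, 0 < k → 2 ≤ M →
    ({t : ℤ | 0 < Q.eval t ∧ Q.eval t < P.eval t ∧ P.eval t ≤ M ∧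
      ¬ Jes (k * ((P.eval t) ^ 2 - (Q.eval t) ^ 2).toNat) (k * (2 * P.eval t * Q.eval t).toNat)
        (k * ((P.eval t) ^ 2 + (Q.eval t) ^ 2).toNat)}).Finite ∧
    (({t : ℤ | 0 < Q.eval t ∧ Q.eval t < P.eval t ∧ P.eval t ≤ M ∧
      ¬ Jes (k * ((P.eval t) ^ 2 - (Q.eval t) ^ 2).toNat) (k * (2 * P.eval t * Q.eval t).toNat)
        (k * ((P.eval t) ^ 2 + (Q.eval t) ^ 2).toNat)}).ncard : ℝ) ≤
      K * (max P.natDegree Q.natDegree : ℕ) * (Real.log (k * M)) ^ 9 := by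
  classical
  obtain ⟨K₀, hK₀, hexp⟩ := exp_bound
  refine ⟨2 * K₀ ^ 4 * 3 ^ 9, by positivity, ?_⟩
  intro P Q hco hdeg k M hk hM
  set T : Set ℤ := {t : ℤ | 0 < Q.eval t ∧ Q.eval t < P.eval t ∧ P.eval t ≤ M ∧
      ¬ Jes (k * ((P.eval t) ^ 2 - (Q.eval t) ^ 2).toNat) (k * (2 * P.eval t * Q.eval t).toNat)
        (k * ((P.eval t) ^ 2 + (Q.eval t) ^ 2).toNat)} with hT
  set d : ℕ := max P.natDegree Q.natDegree with hd
  have hkM : (2 : ℝ) ≤ k * M := by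
    have h1 : 1 * 2 ≤ k * M := Nat.mul_le_mul hk hM
    exact_mod_cast h1
  have hlog : 0 < Real.log (k * M) := Real.log_pos (by linarith)
  by_cases hTe : T = ∅
  · rw [hTe]
    refine ⟨Set.finite_empty, ?_⟩
    rw [Set.ncard_empty, Nat.cast_zero]
    positivity
  obtain ⟨t₀, ht₀⟩ := Set.nonempty_iff_ne_empty.mpr hTe
  -- the real polynomials
  set p : ℝ[X] := P.map (Int.castRingHom ℝ) with hp
  set q : ℝ[X] := Q.map (Int.castRingHom ℝ) with hq
  have hpe : ∀ t : ℤ, p.eval (t : ℝ) = ((P.eval t : ℤ) : ℝ) := by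
    intro t
    rw [hp, eval_intCast_map, eq_intCast, Int.cast_id]
  have hqe : ∀ t : ℤ, q.eval (t : ℝ) = ((Q.eval t : ℤ) : ℝ) := by
    intro t
    rw [hq, eval_intCast_map, eq_intCast, Int.cast_id]
  have hp0 : p ≠ 0 := by
    intro h
    have h1 := hpe t₀
    rw [h, eval_zero] at h1
    have h2 : P.eval t₀ = 0 := by exact_mod_cast h1.symm
    have := ht₀.1
    have := ht₀.2.1
    omega
  have hq0 : q ≠ 0 := by
    intro h
    have h1 := hqe t₀
    rw [h, eval_zero] at h1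
    have h2 : Q.eval t₀ = 0 := by exact_mod_cast h1.symm
    have := ht₀.1
    omega
  have hpd : p.natDegree = P.natDegree := natDegree_map_eq_of_injective Int.cast_injective P
  have hqd : q.natDegree = Q.natDegree := natDegree_map_eq_of_injective Int.cast_injective Q
  have hcor : IsCoprime p q := by
    have h1 := hco.map (Polynomial.mapRingHom (Rat.castHom ℝ))
    rw [coe_mapRingHom, Polynomial.map_map, Polynomial.map_map] at h1
    have h2 : (Rat.castHom ℝ).comp (Int.castRingHom ℚ) = Int.castRingHom ℝ := RingHom.ext_int _ _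
    rwa [h2] at h1
  -- the bound of the exponents
  set J : ℕ := ⌊K₀ * (3 * Real.log (k * M)) ^ (9 / 4 : ℝ)⌋₊ with hJ
  set tri' : ℕ × ℕ × ℕ → Prop := fun e => 0 < e.1 ∧ 0 < e.2.1 ∧ 0 < e.2.2 ∧ e.1 ≠ e.2.2 ∧
    e.2.1 ≠ e.2.2 ∧ (e.2.2 < e.1 ∨ e.2.2 < e.2.1) ∧ e.1 < 2 * e.2.2 ∧ e.2.1 < 2 * e.2.2 with htri'
  set R : ℕ × ℕ × ℕ → ℝ[X] := fun e => (C (k : ℝ) * (p ^ 2 - q ^ 2)) ^ e.1 +
    (C (k : ℝ) * (2 * p * q)) ^ e.2.1 - (C (k : ℝ) * (p ^ 2 + q ^ 2)) ^ e.2.2 with hR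
  set I : Finset (ℕ × ℕ × ℕ) :=
    ((Finset.Icc 1 J ×ˢ (Finset.Icc 1 J ×ˢ Finset.Icc 1 J)).filter tri') with hI
  set U : Finset ℝ := I.biUnion fun e => (R e).roots.toFinset with hU
  have hsub : ∀ t ∈ T, (t : ℝ) ∈ U := by
    intro t ht
    obtain ⟨h1, h2, h3, h4⟩ := ht
    have h5 : ∃ x y z : ℕ, Sol (k * ((P.eval t) ^ 2 - (Q.eval t) ^ 2).toNat)
        (k * (2 * P.eval t * Q.eval t).toNat) (k * ((P.eval t) ^ 2 + (Q.eval t) ^ 2).toNat) x y z := by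
      unfold Jes at h4
      push Not at h4
      obtain ⟨x, y, z, hx, hy, hz, he, hne⟩ := h4
      refine ⟨x, y, z, ?_, ?_, ?_, hx, hy, hz, he, ?_⟩
      · refine Nat.mul_pos hk ?_
        rw [Int.lt_toNat]
        push_cast
        nlinarith
      · refine Nat.mul_pos hk ?_
        rw [Int.lt_toNat]
        push_cast
        have : 0 < P.eval t := by linarith
        positivity
      · have e1 : (((P.eval t) ^ 2 - (Q.eval t) ^ 2).toNat : ℤ) = (P.eval t) ^ 2 - (Q.eval t) ^ 2 :=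
          Int.toNat_of_nonneg (by nlinarith)
        have e2 : ((2 * P.eval t * Q.eval t).toNat : ℤ) = 2 * P.eval t * Q.eval t :=
          Int.toNat_of_nonneg (by
            have : 0 < P.eval t := by linarith
            positivity)
        have e3 : (((P.eval t) ^ 2 + (Q.eval t) ^ 2).toNat : ℤ) = (P.eval t) ^ 2 + (Q.eval t) ^ 2 :=
          Int.toNat_of_nonneg (by positivity)
        have e4 : ((((k * ((P.eval t) ^ 2 - (Q.eval t) ^ 2).toNat) ^ 2 +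
            (k * (2 * P.eval t * Q.eval t).toNat) ^ 2 : ℕ)) : ℤ) =
            (((k * ((P.eval t) ^ 2 + (Q.eval t) ^ 2).toNat) ^ 2 : ℕ) : ℤ) := by
          push_cast [e1, e2, e3]
          ring
        exact_mod_cast e4
      · rintro ⟨r1, r2, r3⟩
        exact hne r1 r2 r3
    obtain ⟨x, y, z, hs⟩ := h5
    have hbd := hexp _ _ _ x y z hs
    have hP0 : (0 : ℝ) < ((P.eval t : ℤ) : ℝ) := by
      have : 0 < P.eval t := by linarith
      exact_mod_cast this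
    have hQ0 : (0 : ℝ) < ((Q.eval t : ℤ) : ℝ) := by exact_mod_cast h1
    have hc : (((k * ((P.eval t) ^ 2 + (Q.eval t) ^ 2).toNat : ℕ)) : ℝ) =
        k * (((P.eval t : ℤ) : ℝ) ^ 2 + ((Q.eval t : ℤ) : ℝ) ^ 2) := by
      have e3 : (((P.eval t) ^ 2 + (Q.eval t) ^ 2).toNat : ℤ) = (P.eval t) ^ 2 + (Q.eval t) ^ 2 :=
        Int.toNat_of_nonneg (by positivity)
      have e4 : ((((P.eval t) ^ 2 + (Q.eval t) ^ 2).toNat : ℕ) : ℝ) =
          ((P.eval t : ℤ) : ℝ) ^ 2 + ((Q.eval t : ℤ) : ℝ) ^ 2 := by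
        have e5 := congrArg (Int.cast : ℤ → ℝ) e3
        push_cast at e5
        exact e5
      rw [Nat.cast_mul, e4]
    have hk1 : (1 : ℝ) ≤ k := by exact_mod_cast hk
    have hM2 : (2 : ℝ) ≤ M := by exact_mod_cast hM
    have hPM : ((P.eval t : ℤ) : ℝ) ≤ M := by exact_mod_cast h3
    have hQP : ((Q.eval t : ℤ) : ℝ) < ((P.eval t : ℤ) : ℝ) := by exact_mod_cast h2
    have hcpos : (0 : ℝ) < ((k * ((P.eval t) ^ 2 + (Q.eval t) ^ 2).toNat : ℕ) : ℝ) := by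
      rw [hc]
      positivity
    have hcle : (((k * ((P.eval t) ^ 2 + (Q.eval t) ^ 2).toNat : ℕ)) : ℝ) ≤ (k * M) ^ 3 := by
      rw [hc]
      have a1 : ((P.eval t : ℤ) : ℝ) ^ 2 ≤ (M : ℝ) ^ 2 := by gcongr
      have a2 : ((Q.eval t : ℤ) : ℝ) ^ 2 ≤ (M : ℝ) ^ 2 := by
        have : ((Q.eval t : ℤ) : ℝ) ≤ M := by linarith
        gcongr
      have a3 : (k : ℝ) * (((P.eval t : ℤ) : ℝ) ^ 2 + ((Q.eval t : ℤ) : ℝ) ^ 2) ≤
          k * (2 * (M : ℝ) ^ 2) := by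
        apply mul_le_mul_of_nonneg_left _ (by linarith)
        linarith
      have a4 : (k : ℝ) ≤ k ^ 3 := by
        have : (1 : ℝ) ≤ k ^ 2 := one_le_pow₀ hk1
        nlinarith
      calc (k : ℝ) * (((P.eval t : ℤ) : ℝ) ^ 2 + ((Q.eval t : ℤ) : ℝ) ^ 2) ≤
          k * (2 * (M : ℝ) ^ 2) := a3
        _ ≤ k ^ 3 * (M * (M : ℝ) ^ 2) := by gcongr
        _ = (k * M) ^ 3 := by ring
    have hlogc : Real.log (((k * ((P.eval t) ^ 2 + (Q.eval t) ^ 2).toNat : ℕ)) : ℝ) ≤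
        3 * Real.log (k * M) := by
      have a1 := Real.log_le_log hcpos hcle
      rw [Real.log_pow] at a1
      exact_mod_cast a1
    have hlogc0 : 0 ≤ Real.log (((k * ((P.eval t) ^ 2 + (Q.eval t) ^ 2).toNat : ℕ)) : ℝ) :=
      Real.log_natCast_nonneg _
    have hJb : K₀ * (Real.log (((k * ((P.eval t) ^ 2 + (Q.eval t) ^ 2).toNat : ℕ)) : ℝ)) ^
        (9 / 4 : ℝ) ≤ K₀ * (3 * Real.log (k * M)) ^ (9 / 4 : ℝ) := by
      apply mul_le_mul_of_nonneg_left _ hK₀.le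
      exact Real.rpow_le_rpow hlogc0 hlogc (by norm_num)
    have hxJ : x ≤ J := Nat.le_floor (le_trans hbd.1 hJb)
    have hyJ : y ≤ J := Nat.le_floor (le_trans hbd.2.1 hJb)
    have hzJ : z ≤ J := Nat.le_floor (le_trans hbd.2.2 hJb)
    have htri := tri hs
    have hx0 := hs.2.2.2.1
    have hy0 := hs.2.2.2.2.1
    have hz0 := hs.2.2.2.2.2.1
    have htr : tri' (x, y, z) := ⟨hx0, hy0, hz0, by simp only; omega, by simp only; omega,
      by simp only; omega, htri.2.1, htri.2.2⟩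
    have hR0 : R (x, y, z) ≠ 0 := poly_ne p q hp0 hq0 hcor (by rw [hpd, hqd]; exact hdeg) k
      (by linarith) x y z htr.1 htr.2.1 htr.2.2.1 htr.2.2.2.1 htr.2.2.2.2.1 htr.2.2.2.2.2.1
      htr.2.2.2.2.2.2.1 htr.2.2.2.2.2.2.2
    rw [hU, Finset.mem_biUnion]
    refine ⟨(x, y, z), ?_, ?_⟩
    · rw [hI, Finset.mem_filter]
      refine ⟨?_, htr⟩
      simp only [Finset.mem_product, Finset.mem_Icc]
      exact ⟨⟨hx0, hxJ⟩, ⟨hy0, hyJ⟩, ⟨hz0, hzJ⟩⟩
    · rw [Multiset.mem_toFinset, mem_roots hR0, IsRoot.def, hR]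
      simp only [eval_sub, eval_add, eval_mul, eval_pow, eval_C, eval_ofNat]
      rw [hpe, hqe]
      have e0 := hs.2.2.2.2.2.2.1
      have e1 : (((P.eval t) ^ 2 - (Q.eval t) ^ 2).toNat : ℤ) = (P.eval t) ^ 2 - (Q.eval t) ^ 2 :=
        Int.toNat_of_nonneg (by nlinarith)
      have e2 : ((2 * P.eval t * Q.eval t).toNat : ℤ) = 2 * P.eval t * Q.eval t :=
        Int.toNat_of_nonneg (by
          have : 0 < P.eval t := by linarith
          positivity)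
      have e3 : (((P.eval t) ^ 2 + (Q.eval t) ^ 2).toNat : ℤ) = (P.eval t) ^ 2 + (Q.eval t) ^ 2 :=
        Int.toNat_of_nonneg (by positivity)
      have e4 : ((k : ℤ) * ((P.eval t) ^ 2 - (Q.eval t) ^ 2)) ^ x +
          ((k : ℤ) * (2 * P.eval t * Q.eval t)) ^ y =
          ((k : ℤ) * ((P.eval t) ^ 2 + (Q.eval t) ^ 2)) ^ z := by
        have e5 := congrArg (Nat.cast : ℕ → ℤ) e0
        rw [Nat.cast_add, Nat.cast_pow, Nat.cast_pow, Nat.cast_pow, Nat.cast_mul, Nat.cast_mul,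
          Nat.cast_mul, e1, e2, e3] at e5
        exact e5
      have e6 := congrArg (Int.cast : ℤ → ℝ) e4
      push_cast at e6
      rw [e6, sub_self]
  -- counting
  have hinj : Set.InjOn (fun t : ℤ => (t : ℝ)) T := fun a _ b _ h => Int.cast_injective h
  have himg : (fun t : ℤ => (t : ℝ)) '' T ⊆ (U : Set ℝ) := by
    rintro _ ⟨t, ht, rfl⟩
    exact hsub t ht
  have hfin : T.Finite := Set.Finite.of_finite_image (U.finite_toSet.subset himg) hinj
  refine ⟨hfin, ?_⟩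
  have hcard1 : T.ncard ≤ U.card := by
    rw [← hinj.ncard_image, ← Set.ncard_coe_finset U]
    exact Set.ncard_le_ncard himg U.finite_toSet
  have hcard2 : U.card ≤ I.card * (J * (2 * d)) := by
    refine Finset.card_biUnion_le_card_mul _ _ _ ?_
    intro e he
    rw [hI, Finset.mem_filter] at he
    simp only [Finset.mem_product, Finset.mem_Icc] at he
    refine le_trans (Multiset.toFinset_card_le _) (le_trans (card_roots' _) ?_)
    exact fam_natDegree p q k e.1 e.2.1 e.2.2 d J (by rw [hpd]; exact le_max_left _ _)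
      (by rw [hqd]; exact le_max_right _ _) he.1.1.2 he.1.2.1.2 he.1.2.2.2
  have hcard3 : I.card ≤ J ^ 3 := by
    refine le_trans (Finset.card_filter_le _ _) ?_
    rw [Finset.card_product, Finset.card_product, Nat.card_Icc]
    simp only [Nat.add_sub_cancel]
    exact le_of_eq (by ring)
  have hcard : T.ncard ≤ 2 * d * J ^ 4 := by
    calc T.ncard ≤ I.card * (J * (2 * d)) := le_trans hcard1 hcard2
      _ ≤ J ^ 3 * (J * (2 * d)) := Nat.mul_le_mul_right _ hcard3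
      _ = 2 * d * J ^ 4 := by ring
  have hJle : (J : ℝ) ≤ K₀ * (3 * Real.log (k * M)) ^ (9 / 4 : ℝ) := Nat.floor_le (by positivity)
  have hJ4 : (J : ℝ) ^ 4 ≤ K₀ ^ 4 * (3 * Real.log (k * M)) ^ 9 := by
    have h1 : (J : ℝ) ^ 4 ≤ (K₀ * (3 * Real.log (k * M)) ^ (9 / 4 : ℝ)) ^ 4 := by gcongr
    have h2 : ((3 * Real.log (k * M)) ^ (9 / 4 : ℝ)) ^ 4 = (3 * Real.log (k * M)) ^ 9 := by
      rw [← Real.rpow_natCast, ← Real.rpow_mul (by positivity), ← Real.rpow_natCast]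
      norm_num
    rw [mul_pow, h2] at h1
    exact h1
  calc (T.ncard : ℝ) ≤ ((2 * d * J ^ 4 : ℕ) : ℝ) := by exact_mod_cast hcard
    _ = 2 * d * (J : ℝ) ^ 4 := by push_cast; ring
    _ ≤ 2 * d * (K₀ ^ 4 * (3 * Real.log (k * M)) ^ 9) := by gcongr
    _ = 2 * K₀ ^ 4 * 3 ^ 9 * (d : ℕ) * (Real.log (k * M)) ^ 9 := by ring

end JB95
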