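import Pool.Agent.LibJes95.Defs

/-!
Definitions for the second part of the work on Jeśmanowicz's conjecture (MP_252f3f_nt).
-/

namespace JB95

/-- `(x, y, z)` is a nontrivial solution of `a ^ x + b ^ y = c ^ z` for the Pythagorean triple
`(a, b, c)` (not necessarily primitive). -/
def Sol (a b c x y z : ℕ) : Prop :=
  0 < a ∧ 0 < b ∧ a ^ 2 + b ^ 2 = c ^ 2 ∧ 0 < x ∧ 0 < y ∧ 0 < z ∧
    a ^ x + b ^ y = c ^ z ∧ ¬ (x = 2 ∧ y = 2 ∧ z = 2)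

/-- Primitive triple with the even leg second. -/
def PT (a b c : ℕ) : Prop :=
  0 < a ∧ 0 < b ∧ Odd a ∧ Even b ∧ a.Coprime b ∧ a ^ 2 + b ^ 2 = c ^ 2

/-- The two terms of `a ^ x / c ^ z + b ^ y / c ^ z = 1` in coordinates `(p, q)`:
`C₁ (p² - q²)^X / (p² + q²)^Z` and `C₂ (p q)^Y / (p² + q²)^Z`. -/
noncomputable def e₁ (C₁ : ℝ) (X Z : ℕ) (p q : ℝ) : ℝ := C₁ * (p ^ 2 - q ^ 2) ^ X / (p ^ 2 + q ^ 2) ^ Z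

/-- See `e₁`. -/
noncomputable def e₂ (C₂ : ℝ) (Y Z : ℕ) (p q : ℝ) : ℝ := C₂ * (p * q) ^ Y / (p ^ 2 + q ^ 2) ^ Z

/-- `(p, q)` lies on the curve `e₁ + e₂ = 1`, and the term whose exponent is less than `Z` (if any)
is at most `2 / p²`. -/
def Good (C₁ C₂ : ℝ) (X Y Z : ℕ) (p q : ℝ) : Prop :=
  e₁ C₁ X Z p q + e₂ C₂ Y Z p q = 1 ∧
    ((Z < X ∧ Z < Y) ∨ (X < Z ∧ Z < Y ∧ e₁ C₁ X Z p q ≤ 2 / p ^ 2) ∨
      (Y < Z ∧ Z < X ∧ e₂ C₂ Y Z p q ≤ 2 / p ^ 2))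

end JB95
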